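import Mathlib

/-! Basic tools for counting cliques inside vertex subsets (MP_76b19e_co). -/

open Finset

noncomputable section

namespace Pool.Agent.MP76b19e

open Classical in
/-- vertices of `U` not adjacent to `v` (closed co-neighbourhood) -/
def cn {V : Type*} (G : SimpleGraph V) (U : Finset V) (v : V) : Finset V :=
  U.filter (fun u => ¬ G.Adj v u)

open Classical in
/-- vertices of `U` adjacent to `v` -/
def nb {V : Type*} (G : SimpleGraph V) (U : Finset V) (v : V) : Finset V :=
  U.filter (fun u => G.Adj v u)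

open Classical in
/-- `m`-cliques contained in `U` -/
def K {V : Type*} (G : SimpleGraph V) (U : Finset V) (m : ℕ) : Finset (Finset V) :=
  (U.powersetCard m).filter (fun s => G.IsClique (s : Set V))

open Classical in
/-- vertices of `U` with co-degree at most `p` -/
def W {V : Type*} (G : SimpleGraph V) (U : Finset V) (p : ℕ) : Finset V :=
  U.filter (fun v => (cn G U v).card ≤ p)

/-- the cluster condition -/
def C {V : Type*} (G : SimpleGraph V) (U : Finset V) : ℕ → List ℕ → Prop
  | a, [] => a + 1 ≤ U.card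
  | a, (p :: ps) => a + 1 ≤ (W G U p).card ∧ C G U (a + p) ps

section
variable {V : Type*} {G : SimpleGraph V}

open Classical in
lemma cn_card_add_nb_card (U : Finset V) (v : V) : (cn G U v).card + (nb G U v).card = U.card := by
  unfold cn nb
  rw [add_comm]
  exact Finset.card_filter_add_card_filter_not (s := U) (fun u => G.Adj v u)

lemma mem_cn {U : Finset V} {v u : V} : u ∈ cn G U v ↔ u ∈ U ∧ ¬ G.Adj v u := by
  classical
  simp [cn]

lemma mem_nb {U : Finset V} {v u : V} : u ∈ nb G U v ↔ u ∈ U ∧ G.Adj v u := by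
  classical
  simp [nb]

lemma mem_W {U : Finset V} {p : ℕ} {v : V} : v ∈ W G U p ↔ v ∈ U ∧ (cn G U v).card ≤ p := by
  classical
  simp [W]

lemma mem_K {U : Finset V} {m : ℕ} {s : Finset V} :
    s ∈ K G U m ↔ s ⊆ U ∧ s.card = m ∧ G.IsClique (s : Set V) := by
  classical
  simp [K, Finset.mem_powersetCard, and_assoc]

lemma cn_mono {U U' : Finset V} (h : U' ⊆ U) (v : V) : cn G U' v ⊆ cn G U v := by
  intro u hu
  rw [mem_cn] at hu ⊢
  exact ⟨h hu.1, hu.2⟩

lemma nb_subset {U : Finset V} {v : V} : nb G U v ⊆ U := fun u hu => (mem_nb.1 hu).1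

lemma K_mono {U U' : Finset V} (h : U' ⊆ U) (m : ℕ) : K G U' m ⊆ K G U m := by
  intro s hs
  rw [mem_K] at hs ⊢
  exact ⟨hs.1.trans h, hs.2⟩

lemma W_card_sub {U U' : Finset V} {c p : ℕ} (h : U' ⊆ U) (hc : U.card ≤ U'.card + c) :
    (W G U p).card ≤ (W G U' p).card + c := by
  classical
  have h1 : W G U p ⊆ W G U' p ∪ (U \ U') := by
    intro v hv
    rw [mem_W] at hv
    by_cases hvU : v ∈ U'
    · refine Finset.mem_union_left _ (mem_W.2 ⟨hvU, ?_⟩)
      exact (Finset.card_le_card (cn_mono h v)).trans hv.2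
    · exact Finset.mem_union_right _ (Finset.mem_sdiff.2 ⟨hv.1, hvU⟩)
  have h2 := Finset.card_le_card h1
  have h3 := Finset.card_union_le (W G U' p) (U \ U')
  have h4 : (U \ U').card + U'.card = U.card := by
    rw [Finset.card_sdiff_add_card_eq_card h]
  omega

lemma C_sub {U U' : Finset V} {c : ℕ} (h : U' ⊆ U) (hc : U.card ≤ U'.card + c) :
    ∀ (ps : List ℕ) (a : ℕ), C G U (a + c) ps → C G U' a ps := by
  intro ps
  induction ps with
  | nil =>
    intro a ha
    simp only [C] at ha ⊢
    omega
  | cons p ps ih =>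
    intro a ha
    simp only [C] at ha ⊢
    refine ⟨?_, ?_⟩
    · have := W_card_sub (G := G) (p := p) h hc
      omega
    · apply ih
      have : a + p + c = a + c + p := by ring
      rw [this]
      exact ha.2

lemma C_le {U : Finset V} : ∀ (ps : List ℕ) (a b : ℕ), b ≤ a → C G U a ps → C G U b ps := by
  intro ps
  induction ps with
  | nil => intro a b hab ha; simp only [C] at ha ⊢; omega
  | cons p ps ih =>
    intro a b hab ha
    simp only [C] at ha ⊢
    exact ⟨by omega, ih _ _ (by omega) ha.2⟩

/-- changing the graph without destroying the relevant small co-degrees -/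
lemma C_graph {G' : SimpleGraph V} {U : Finset V} : ∀ (ps : List ℕ) (a : ℕ),
    (∀ x ∈ ps, W G U x ⊆ W G' U x) → C G U a ps → C G' U a ps := by
  intro ps
  induction ps with
  | nil => intro a _ ha; simpa only [C] using ha
  | cons p ps ih =>
    intro a hW ha
    simp only [C] at ha ⊢
    refine ⟨ha.1.trans (Finset.card_le_card (hW p (by simp))), ih _ ?_ ha.2⟩
    intro x hx
    exact hW x (by simp [hx])

lemma insert_mem_K {U : Finset V} {v : V} [DecidableEq V] (hv : v ∈ U) {m : ℕ} {s : Finset V}
    (hs : s ∈ K G (nb G U v) m) : insert v s ∈ K G U (m + 1) := by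
  rw [mem_K] at hs ⊢
  obtain ⟨h1, h2, h3⟩ := hs
  have hvs : v ∉ s := by
    intro h
    have := (mem_nb.1 (h1 h)).2
    exact G.loopless.irrefl v this
  refine ⟨?_, ?_, ?_⟩
  · intro u hu
    rcases Finset.mem_insert.1 hu with rfl | hu
    · exact hv
    · exact (mem_nb.1 (h1 hu)).1
  · rw [Finset.card_insert_of_notMem hvs, h2]
  · rw [Finset.coe_insert, SimpleGraph.isClique_insert]
    refine ⟨h3, ?_⟩
    intro b hb _
    exact (mem_nb.1 (h1 hb)).2

lemma K_split [DecidableEq V] {U : Finset V} {v : V} (hv : v ∈ U) (m : ℕ) :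
    (K G (U.erase v) (m + 1)).card + (K G (nb G U v) m).card ≤ (K G U (m + 1)).card := by
  have hinj : Set.InjOn (fun s : Finset V => insert v s) (K G (nb G U v) m : Set (Finset V)) := by
    intro s hs t ht hst
    have hvs : v ∉ s := by
      intro h
      have := (mem_nb.1 ((mem_K.1 hs).1 h)).2
      exact G.loopless.irrefl v this
    have hvt : v ∉ t := by
      intro h
      have := (mem_nb.1 ((mem_K.1 ht).1 h)).2
      exact G.loopless.irrefl v this
    have : (insert v s).erase v = (insert v t).erase v := by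
      simp only at hst
      rw [hst]
    rwa [Finset.erase_insert hvs, Finset.erase_insert hvt] at this
  rw [← Finset.card_image_of_injOn hinj, ← Finset.card_union_of_disjoint]
  · apply Finset.card_le_card
    intro s hs
    rcases Finset.mem_union.1 hs with hs | hs
    · exact K_mono (Finset.erase_subset _ _) _ hs
    · obtain ⟨t, ht, rfl⟩ := Finset.mem_image.1 hs
      exact insert_mem_K hv ht
  · rw [Finset.disjoint_left]
    intro s hs hs'
    obtain ⟨t, ht, rfl⟩ := Finset.mem_image.1 hs'
    have := (mem_K.1 hs).1 (Finset.mem_insert_self v t)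
    simp at this

lemma card_nb_of_W {U : Finset V} {v : V} {p : ℕ} (hv : v ∈ W G U p) :
    U.card ≤ (nb G U v).card + p := by
  have h1 := cn_card_add_nb_card (G := G) U v
  have h2 := (mem_W.1 hv).2
  omega

/-- greedy clique -/
lemma greedy : ∀ (ps : List ℕ) (U : Finset V), C G U 0 ps → (K G U (ps.length + 1)).Nonempty := by
  classical
  intro ps
  induction ps with
  | nil =>
    intro U h
    simp only [C] at h
    obtain ⟨v, hv⟩ : U.Nonempty := Finset.card_pos.1 (by omega)
    refine ⟨{v}, mem_K.2 ⟨by simpa using hv, by simp, by simp⟩⟩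
  | cons p ps ih =>
    intro U h
    simp only [C] at h
    obtain ⟨v, hv⟩ : (W G U p).Nonempty := Finset.card_pos.1 (by omega)
    have h2 : C G (nb G U v) 0 ps := C_sub nb_subset (card_nb_of_W hv) ps 0 h.2
    obtain ⟨s, hs⟩ := ih _ h2
    exact ⟨insert v s, insert_mem_K (mem_W.1 hv).1 hs⟩

/-- with excess one there are two cliques -/
lemma excess (ps : List ℕ) (U : Finset V) (h : C G U 1 ps) :
    2 ≤ (K G U (ps.length + 1)).card := by
  classical
  obtain ⟨s, hs⟩ := greedy ps U (C_le ps 1 0 (by omega) h)
  have hs' := mem_K.1 hs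
  obtain ⟨v, hv⟩ : s.Nonempty := Finset.card_pos.1 (by omega)
  have hvU : v ∈ U := hs'.1 hv
  have h2 : C G (U.erase v) 0 ps := by
    refine C_sub (c := 1) (Finset.erase_subset _ _) ?_ ps 0 h
    rw [Finset.card_erase_of_mem hvU]
    omega
  obtain ⟨t, ht⟩ := greedy ps _ h2
  have hne : s ≠ t := by
    rintro rfl
    have := (mem_K.1 ht).1 hv
    simp at this
  have : ({s, t} : Finset (Finset V)) ⊆ K G U (ps.length + 1) := by
    intro x hx
    rcases Finset.mem_insert.1 hx with rfl | hx
    · exact hs
    · rw [Finset.mem_singleton.1 hx]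
      exact K_mono (Finset.erase_subset _ _) _ ht
  calc 2 = ({s, t} : Finset (Finset V)).card := (Finset.card_pair hne).symm
    _ ≤ _ := Finset.card_le_card this

end

end Pool.Agent.MP76b19e
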