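import Pool.Agent.Lib.MP76b19e.CoreR

/-! Numerical inequalities for the local inequalities (MP_76b19e_co). -/

open Finset

noncomputable section

namespace Pool.Agent.MP76b19e

/-- Bernoulli: `(1 + x)^j ≤ (1 + (j/N) x)^N` for `j ≤ N`. -/
lemma bernN {N j : ℕ} {x : ℝ} (hN : 1 ≤ N) (hj : j ≤ N) (hx : 0 ≤ x) :
    (1 + x) ^ j ≤ (1 + (j : ℝ) / N * x) ^ N := by
  have hN0 : (0 : ℝ) < N := by exact_mod_cast hN
  have hjN : (j : ℝ) ≤ N := by exact_mod_cast hj
  have h2 := rpow_one_add_le_one_add_mul_self (show (-1 : ℝ) ≤ x by linarith) (p := (j : ℝ) / N)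
    (by positivity) (by rw [div_le_one hN0]; exact hjN)
  have h0 : 0 ≤ 1 + x := by linarith
  have h4 := pow_le_pow_left₀ (Real.rpow_nonneg h0 _) h2 N
  rwa [← Real.rpow_natCast ((1 + x) ^ ((j : ℝ) / N)) N, ← Real.rpow_mul h0,
    div_mul_cancel₀ _ hN0.ne', Real.rpow_natCast] at h4

section
variable {q : ℕ} {L H : ℝ}

lemma H_pow_le (hq : 2 ≤ q) (hH : 0 < H) (hHq : H ^ (q - 1) = 2 * q / (q + 1)) {j : ℕ}
    (hj : j ≤ q - 1) : H ^ j ≤ 1 + (j : ℝ) / (q + 1) := by
  have hN : 1 ≤ q - 1 := by omega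
  have hN0 : (0 : ℝ) < ((q - 1 : ℕ) : ℝ) := by exact_mod_cast hN
  have hqN : (q : ℝ) = ((q - 1 : ℕ) : ℝ) + 1 := by
    have : q = (q - 1) + 1 := by omega
    exact_mod_cast this
  have hq1 : (0 : ℝ) < (q : ℝ) + 1 := by positivity
  have h1 := bernN hN hj (x := ((q - 1 : ℕ) : ℝ) / (q + 1)) (by positivity)
  have e1 : 1 + ((q - 1 : ℕ) : ℝ) / (q + 1) = 2 * q / (q + 1) := by
    field_simp
    rw [hqN]; ring
  have e2 : 1 + (j : ℝ) / ((q - 1 : ℕ) : ℝ) * (((q - 1 : ℕ) : ℝ) / (q + 1)) =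
      1 + (j : ℝ) / (q + 1) := by
    field_simp
  rw [e1, e2, ← hHq, ← pow_mul, mul_comm, pow_mul] at h1
  exact le_of_pow_le_pow_left₀ (by omega) (by positivity) h1

lemma H_ge_one (hq : 2 ≤ q) (hH : 0 < H) (hHq : H ^ (q - 1) = 2 * q / (q + 1)) : 1 ≤ H := by
  have hq1 : (1 : ℝ) ≤ q := by
    have : 1 ≤ q := by omega
    exact_mod_cast this
  refine le_of_pow_le_pow_left₀ (n := q - 1) (by omega) hH.le ?_
  rw [one_pow, hHq, le_div_iff₀ (by positivity)]
  linarith

lemma H_pow_le' (hq : 2 ≤ q) (hH : 0 < H) (hHq : H ^ (q - 1) = 2 * q / (q + 1)) {j : ℕ}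
    (hj : j ≤ q) : H ^ j ≤ 1 + (j : ℝ) / q := by
  have hq1 : (0 : ℝ) < (q : ℝ) := by
    have : 0 < q := by omega
    exact_mod_cast this
  rcases Nat.lt_or_ge j q with h | h
  · refine (H_pow_le hq hH hHq (by omega)).trans ?_
    have : (j : ℝ) / (q + 1) ≤ (j : ℝ) / q :=
      div_le_div_of_nonneg_left (Nat.cast_nonneg _) hq1 (by linarith)
    linarith
  · have hjq : j = q := by omega
    subst hjq
    have h1 : H ^ j = H ^ (j - 1) * H := by
      rw [← pow_succ]; congr 1; omega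
    have h2 := H_pow_le hq hH hHq (j := 1) (by omega)
    rw [pow_one] at h2
    rw [h1, hHq, div_self hq1.ne']
    have h3 : 2 * (j : ℝ) / (j + 1) * H ≤ 2 * (j : ℝ) / (j + 1) * (1 + ((1 : ℕ) : ℝ) / (j + 1)) :=
      mul_le_mul_of_nonneg_left h2 (by positivity)
    refine h3.trans ?_
    have h4 : 2 * (j : ℝ) / (j + 1) * (1 + ((1 : ℕ) : ℝ) / (j + 1)) =
        (2 * j * (j + 2)) / ((j + 1) * (j + 1)) := by
      field_simp
      push_cast
      ring
    rw [h4, div_le_iff₀ (by positivity)]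
    nlinarith

lemma L_ge (hq : 2 ≤ q) (hL : 0 < L) (hLq : L ^ (q - 1) = q) : ((q : ℝ) + 1) / q ≤ L := by
  have hq1 : (0 : ℝ) < (q : ℝ) := by
    have : 0 < q := by omega
    exact_mod_cast this
  have key : ∀ j : ℕ, j ≤ q - 1 → (((q : ℝ) + 1) / q) ^ j ≤ 1 + j := by
    intro j
    induction j with
    | zero => intro _; simp
    | succ j ih =>
      intro hj
      have h1 := ih (by omega)
      rw [pow_succ]
      have h2 : (((q : ℝ) + 1) / q) ^ j * (((q : ℝ) + 1) / q) ≤ (1 + j) * (((q : ℝ) + 1) / q) :=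
        mul_le_mul_of_nonneg_right h1 (by positivity)
      refine h2.trans ?_
      rw [mul_div_assoc', div_le_iff₀ hq1]
      have h3 : (j : ℝ) + 1 ≤ q := by
        have : j + 1 ≤ q := by omega
        exact_mod_cast this
      push_cast
      nlinarith
  refine le_of_pow_le_pow_left₀ (n := q - 1) (by omega) hL.le ?_
  refine (key (q - 1) le_rfl).trans ?_
  rw [hLq]
  have : (((q - 1 : ℕ) : ℝ)) = q - 1 := by
    rw [Nat.cast_sub (by omega)]; simp
  rw [this]
  linarith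

lemma starIneq (hq : 2 ≤ q) (hL : 0 < L) (hH : 0 < H) (hLq : L ^ (q - 1) = q)
    (hHq : H ^ (q - 1) = 2 * q / (q + 1)) {e : ℕ} (he : 1 ≤ e) (heq : e ≤ q) :
    L * H ^ (e - 1) ≤ 1 + e * (L - 1) := by
  have hq1 : (0 : ℝ) < (q : ℝ) := by
    have : 0 < q := by omega
    exact_mod_cast this
  have h1 := H_pow_le hq hH hHq (j := e - 1) (by omega)
  have h2 := L_ge hq hL hLq
  rw [div_le_iff₀ hq1] at h2
  have h3 : L * H ^ (e - 1) ≤ L * (1 + ((e - 1 : ℕ) : ℝ) / (q + 1)) :=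
    mul_le_mul_of_nonneg_left h1 hL.le
  refine h3.trans ?_
  have h4 : L / (q + 1) ≤ L - 1 := by
    rw [div_le_iff₀ (by positivity)]
    nlinarith
  have h5 : ((e - 1 : ℕ) : ℝ) = e - 1 := by
    rw [Nat.cast_sub he]; simp
  have h6 : 0 ≤ (e : ℝ) - 1 := by
    have : (1 : ℝ) ≤ e := by exact_mod_cast he
    linarith
  rw [h5]
  have h7 : L * (1 + ((e : ℝ) - 1) / (q + 1)) = L + ((e : ℝ) - 1) * (L / (q + 1)) := by ring
  rw [h7]
  have h8 := mul_le_mul_of_nonneg_left h4 h6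
  linarith

/-- case `c = 1` -/
lemma num1 (hq : 2 ≤ q) (hL : 0 < L) (hLq : L ^ (q - 1) = q) :
    L ^ 2 * (((q : ℝ) - 1) / (3 * q - 1)) ≤ 1 := by
  have hq2 : (2 : ℝ) ≤ q := by exact_mod_cast hq
  have hN : ((q - 1 : ℕ) : ℝ) = q - 1 := by
    rw [Nat.cast_sub (by omega)]; simp
  have h0 : 0 < ((q : ℝ) - 1) / (3 * q - 1) := by
    apply div_pos <;> linarith
  refine le_of_pow_le_pow_left₀ (n := q - 1) (by omega) zero_le_one ?_
  rw [one_pow, mul_pow, ← pow_mul, mul_comm 2, pow_mul, hLq]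
  have h1 : (((q : ℝ) - 1) / (3 * q - 1)) ^ (q - 1) * ((3 * (q : ℝ) - 1) / (q - 1)) ^ (q - 1) = 1 := by
    rw [← mul_pow]
    have : ((q : ℝ) - 1) / (3 * q - 1) * ((3 * (q : ℝ) - 1) / (q - 1)) = 1 := by
      have h2 : (3 * (q : ℝ) - 1) ≠ 0 := by linarith
      have h3 : ((q : ℝ) - 1) ≠ 0 := by linarith
      rw [div_mul_div_comm, mul_comm, div_self (mul_ne_zero h2 h3)]
    rw [this, one_pow]
  have h2 : (q : ℝ) ^ 2 ≤ ((3 * (q : ℝ) - 1) / (q - 1)) ^ (q - 1) := by
    have e1 : (3 * (q : ℝ) - 1) / (q - 1) = 3 * (1 + 2 / (3 * (q - 1))) := by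
      have h3 : ((q : ℝ) - 1) ≠ 0 := by linarith
      field_simp
      ring
    rw [e1, mul_pow]
    have e2 : (5 : ℝ) / 3 ≤ (1 + 2 / (3 * ((q : ℝ) - 1))) ^ (q - 1) := by
      have h4 := one_add_mul_le_pow (a := 2 / (3 * ((q : ℝ) - 1))) (by
        have : 0 ≤ 2 / (3 * ((q : ℝ) - 1)) := by
          apply div_nonneg <;> linarith
        linarith) (q - 1)
      refine le_trans (le_of_eq ?_) h4
      rw [hN]
      have h3 : ((q : ℝ) - 1) ≠ 0 := by linarith
      field_simp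
      ring
    have e3 : (q : ℝ) ^ 2 ≤ 3 ^ (q - 1) * (5 / 3) := by
      have : ∀ m : ℕ, ((m : ℝ) + 2) ^ 2 ≤ 3 ^ (m + 1) * (5 / 3) := by
        intro m
        induction m with
        | zero => norm_num
        | succ m ih =>
          rw [pow_succ (3 : ℝ)]
          push_cast
          have hm : (0 : ℝ) ≤ m := Nat.cast_nonneg _
          nlinarith
      have h5 := this (q - 2)
      have h6 : ((q - 2 : ℕ) : ℝ) = q - 2 := by
        rw [Nat.cast_sub (by omega)]; simp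
      have h7 : q - 2 + 1 = q - 1 := by omega
      rw [h6, h7] at h5
      calc (q : ℝ) ^ 2 = ((q : ℝ) - 2 + 2) ^ 2 := by ring
        _ ≤ _ := h5
    refine e3.trans ?_
    exact mul_le_mul_of_nonneg_left e2 (by positivity)
  calc (q : ℝ) ^ 2 * (((q : ℝ) - 1) / (3 * q - 1)) ^ (q - 1)
      ≤ ((3 * (q : ℝ) - 1) / (q - 1)) ^ (q - 1) * (((q : ℝ) - 1) / (3 * q - 1)) ^ (q - 1) :=
        mul_le_mul_of_nonneg_right h2 (by positivity)
    _ = 1 := by rw [mul_comm]; exact h1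

/-- case `c ≥ 2` -/
lemma num2 (hq : 2 ≤ q) (hL : 0 < L) (hH : 0 < H) (hLq : L ^ (q - 1) = q)
    (hHq : H ^ (q - 1) = 2 * q / (q + 1)) :
    L ^ 3 * H ^ (q + 1) * (2 * ((q : ℝ) - 1) ^ 2 / (3 * q * (4 * q - 1))) ≤ 1 := by
  have hq2 : (2 : ℝ) ≤ q := by exact_mod_cast hq
  have hq0 : (0 : ℝ) < q := by linarith
  set X : ℝ := 2 * ((q : ℝ) - 1) ^ 2 / (3 * q * (4 * q - 1)) with hX
  have h41 : 0 < 4 * (q : ℝ) - 1 := by linarith
  have hq1 : 0 < (q : ℝ) - 1 := by linarith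
  have hX0 : 0 < X := by rw [hX]; positivity
  refine le_of_pow_le_pow_left₀ (n := q - 1) (by omega) zero_le_one ?_
  have e1 : (L ^ 3 * H ^ (q + 1) * X) ^ (q - 1) =
      (q : ℝ) ^ 3 * (2 * q / (q + 1)) ^ (q + 1) * X ^ (q - 1) := by
    rw [mul_pow, mul_pow, ← pow_mul, ← pow_mul, mul_comm 3, mul_comm (q + 1), pow_mul, pow_mul,
      hLq, hHq]
  rw [one_pow, e1]
  rcases Nat.lt_or_ge q 8 with h | h
  · rw [hX]
    interval_cases q <;> norm_num
  · -- large q
    have h1 : X ≤ 1 / 6 := by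
      rw [hX, div_le_div_iff₀ (by positivity) (by norm_num)]
      nlinarith
    have h2 : X ^ (q - 1) ≤ (1 / 6) ^ (q - 1) := pow_le_pow_left₀ hX0.le h1 _
    have h3 : (2 * (q : ℝ) / (q + 1)) ^ (q + 1) ≤ 2 ^ (q + 1) := by
      refine pow_le_pow_left₀ (by positivity) ?_ _
      rw [div_le_iff₀ (by positivity)]
      linarith
    have h4 : 4 * (q : ℝ) ^ 3 ≤ 3 ^ (q - 1) := by
      have : ∀ m : ℕ, 4 * ((m : ℝ) + 8) ^ 3 ≤ 3 ^ (m + 7) := by
        intro m
        induction m with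
        | zero => norm_num
        | succ m ih =>
          have e : m + 1 + 7 = (m + 7) + 1 := by ring
          rw [e, pow_succ (3 : ℝ)]
          push_cast
          have hm : (0 : ℝ) ≤ m := Nat.cast_nonneg _
          have h5 : ((m : ℝ) + 1 + 8) ^ 3 ≤ 3 * ((m : ℝ) + 8) ^ 3 := by
            nlinarith [mul_nonneg hm hm, mul_nonneg (mul_nonneg hm hm) hm]
          nlinarith
      have h5 := this (q - 8)
      have h6 : ((q - 8 : ℕ) : ℝ) = q - 8 := by
        rw [Nat.cast_sub h]; simp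
      have h7 : q - 8 + 7 = q - 1 := by omega
      rw [h6, h7] at h5
      calc 4 * (q : ℝ) ^ 3 = 4 * ((q : ℝ) - 8 + 8) ^ 3 := by ring
        _ ≤ _ := h5
    calc (q : ℝ) ^ 3 * (2 * q / (q + 1)) ^ (q + 1) * X ^ (q - 1)
        ≤ (q : ℝ) ^ 3 * 2 ^ (q + 1) * (1 / 6) ^ (q - 1) := by
          refine mul_le_mul (mul_le_mul_of_nonneg_left h3 (by positivity)) h2 (by positivity)
            (by positivity)
      _ = (4 * (q : ℝ) ^ 3) * (2 ^ (q - 1) * (1 / 6) ^ (q - 1)) := by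
          have : (2 : ℝ) ^ (q + 1) = 4 * 2 ^ (q - 1) := by
            have h8 : q + 1 = (q - 1) + 2 := by omega
            conv_lhs => rw [h8, pow_add]
            ring
          rw [this]; ring
      _ = (4 * (q : ℝ) ^ 3) * (1 / 3) ^ (q - 1) := by
          rw [← mul_pow]; norm_num
      _ ≤ 3 ^ (q - 1) * (1 / 3) ^ (q - 1) := mul_le_mul_of_nonneg_right h4 (by positivity)
      _ = 1 := by rw [← mul_pow]; norm_num

/-- the final comparison in the case `c = 0` -/
lemma fin0 {s : ℝ} {F P : ℝ} {e : ℕ} (hs : 0 ≤ s) (hL : 0 < L) (hL1 : 1 ≤ L) (hH : 0 < H)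
    (he : 1 ≤ e) (hstar : L * H ^ (e - 1) ≤ 1 + e * (L - 1))
    (hP : P ≤ (1 + s / e) ^ e)
    (h1 : F ≤ L * H ^ (e - 1)) (h2 : F * L ^ (e - 1) ≤ H ^ (e - 1) * P) : F ≤ 1 + s := by
  rcases le_or_gt (L * H ^ (e - 1)) (1 + s) with h | h
  · exact h1.trans h
  · have he0 : (0 : ℝ) < e := by exact_mod_cast he
    set X : ℝ := 1 + s / e with hX
    have hX1 : 1 ≤ X := by
      have : 0 ≤ s / e := by positivity
      linarith
    have hX0 : 0 < X := by linarith
    have hsX : s = e * (X - 1) := by rw [hX]; field_simp; ring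
    have hXL : X ≤ L := by
      have h3 : s ≤ e * (L - 1) := by linarith
      rw [hsX] at h3
      have := le_of_mul_le_mul_left h3 he0
      linarith
    -- X^e (1 + e (L-1)) ≤ L^e (1 + e (X-1))
    have key : X ^ e * (1 + e * (L - 1)) ≤ L ^ e * (1 + e * (X - 1)) := by
      set lam : ℝ := L / X with hlam
      have hlam1 : 1 ≤ lam := by rw [hlam, le_div_iff₀ hX0]; linarith
      have hLX : L = lam * X := by rw [hlam]; field_simp
      have hb := one_add_mul_le_pow (a := lam - 1) (by linarith) e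
      have e1 : 1 + (lam - 1) = lam := by ring
      rw [e1] at hb
      have h4 : 1 + e * (L - 1) ≤ lam ^ e * (1 + e * (X - 1)) := by
        have h5 : (1 + e * (lam - 1)) * (1 + e * (X - 1)) ≤ lam ^ e * (1 + e * (X - 1)) := by
          refine mul_le_mul_of_nonneg_right hb ?_
          have : 0 ≤ (e : ℝ) * (X - 1) := mul_nonneg he0.le (by linarith)
          linarith
        refine le_trans ?_ h5
        rw [hLX]
        have h6 : 0 ≤ (lam - 1) * (X - 1) := mul_nonneg (by linarith) (by linarith)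
        have h7 : (e : ℝ) ≤ e * e := by
          have : (1 : ℝ) ≤ e := by exact_mod_cast he
          nlinarith
        nlinarith [mul_nonneg (sub_nonneg.2 h7) h6]
      have h8 : L ^ e = lam ^ e * X ^ e := by rw [← mul_pow, ← hLX]
      rw [h8]
      calc X ^ e * (1 + e * (L - 1)) ≤ X ^ e * (lam ^ e * (1 + e * (X - 1))) :=
            mul_le_mul_of_nonneg_left h4 (by positivity)
        _ = _ := by ring
    have hpos : 0 < 1 + (e : ℝ) * (L - 1) := by
      have : 0 ≤ (e : ℝ) * (L - 1) := mul_nonneg he0.le (by linarith)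
      linarith
    -- F L^{e-1} (1+e(L-1)) ≤ H^{e-1} X^e (1 + e (L-1)) ≤ H^{e-1} L^e (1+e(X-1))
    have h9 : F * L ^ (e - 1) * (1 + e * (L - 1)) ≤
        L ^ (e - 1) * ((1 + e * (L - 1)) * (1 + s)) := by
      calc F * L ^ (e - 1) * (1 + e * (L - 1))
          ≤ H ^ (e - 1) * P * (1 + e * (L - 1)) := mul_le_mul_of_nonneg_right h2 hpos.le
        _ ≤ H ^ (e - 1) * X ^ e * (1 + e * (L - 1)) := by
            refine mul_le_mul_of_nonneg_right (mul_le_mul_of_nonneg_left hP (by positivity)) hpos.le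
        _ = H ^ (e - 1) * (X ^ e * (1 + e * (L - 1))) := by ring
        _ ≤ H ^ (e - 1) * (L ^ e * (1 + e * (X - 1))) :=
            mul_le_mul_of_nonneg_left key (by positivity)
        _ = L ^ (e - 1) * ((L * H ^ (e - 1)) * (1 + s)) := by
            rw [← hsX]
            have : L ^ e = L ^ (e - 1) * L := by
              rw [← pow_succ]; congr 1; omega
            rw [this]; ring
        _ ≤ L ^ (e - 1) * ((1 + e * (L - 1)) * (1 + s)) := by
            refine mul_le_mul_of_nonneg_left (mul_le_mul_of_nonneg_right hstar (by linarith))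
              (by positivity)
    have h10 : F * (L ^ (e - 1) * (1 + e * (L - 1))) ≤ (1 + s) * (L ^ (e - 1) * (1 + e * (L - 1))) := by
      calc F * (L ^ (e - 1) * (1 + e * (L - 1))) = F * L ^ (e - 1) * (1 + e * (L - 1)) := by ring
        _ ≤ _ := h9
        _ = _ := by ring
    exact le_of_mul_le_mul_right h10 (by positivity)

/-- `∏ (1 + e_u x_u) ≤ (1 + s/e)^e`, where `e = ∑ e_u` and `s = ∑ e_u x_u`. -/
lemma prod_le {V : Type*} (S : Finset V) (e : V → ℕ) (x : V → ℝ) (hx : ∀ u ∈ S, 0 ≤ x u)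
    (he : 1 ≤ ∑ u ∈ S, e u) :
    ∏ u ∈ S, (1 + e u * x u) ≤
      (1 + (∑ u ∈ S, e u * x u) / ((∑ u ∈ S, e u : ℕ) : ℝ)) ^ (∑ u ∈ S, e u) := by
  set E := ∑ u ∈ S, e u with hE
  have hE0 : (0 : ℝ) < E := by exact_mod_cast he
  set s := ∑ u ∈ S, (e u : ℝ) * x u with hs
  have hs0 : 0 ≤ s := Finset.sum_nonneg fun u hu => mul_nonneg (Nat.cast_nonneg _) (hx u hu)
  set M : ℝ := 1 + s / E with hM
  have hM0 : 0 < M := by positivity
  have key : ∀ y : ℝ, y ≤ M * Real.exp (y / M - 1) := by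
    intro y
    have h1 := Real.add_one_le_exp (y / M - 1)
    have h2 : y / M ≤ Real.exp (y / M - 1) := by linarith
    calc y = M * (y / M) := by field_simp
      _ ≤ _ := mul_le_mul_of_nonneg_left h2 hM0.le
  have hterm : ∀ u ∈ S, 1 + e u * x u ≤ M ^ (e u) * Real.exp (e u * ((1 + x u) / M - 1)) := by
    intro u hu
    have h1 := one_add_mul_le_pow (a := x u) (by have := hx u hu; linarith) (e u)
    refine h1.trans ?_
    rw [Real.exp_nat_mul, ← mul_pow]
    exact pow_le_pow_left₀ (by have := hx u hu; linarith) (key _) _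
  calc ∏ u ∈ S, (1 + e u * x u)
      ≤ ∏ u ∈ S, (M ^ (e u) * Real.exp (e u * ((1 + x u) / M - 1))) := by
        refine Finset.prod_le_prod (fun u hu => ?_) hterm
        have := mul_nonneg (Nat.cast_nonneg (α := ℝ) (e u)) (hx u hu)
        linarith
    _ = M ^ E * Real.exp (∑ u ∈ S, e u * ((1 + x u) / M - 1)) := by
        rw [Finset.prod_mul_distrib, Finset.prod_pow_eq_pow_sum, Real.exp_sum]
    _ = M ^ E * Real.exp 0 := by
        congr 2
        have h1 : ∑ u ∈ S, (e u : ℝ) * ((1 + x u) / M - 1) = (E + s) / M - E := by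
          have h2 : ∀ u ∈ S, (e u : ℝ) * ((1 + x u) / M - 1) = (e u + e u * x u) / M - e u := by
            intro u _; field_simp
          rw [Finset.sum_congr rfl h2, Finset.sum_sub_distrib, ← Finset.sum_div,
            Finset.sum_add_distrib, hE]
          push_cast
          rfl
        rw [h1]
        have h3 : (E : ℝ) + s = E * M := by rw [hM]; field_simp
        rw [h3]
        field_simp
        ring
    _ = M ^ E := by rw [Real.exp_zero, mul_one]

end

end Pool.Agent.MP76b19e
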