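import Pool.Agent.Lib.MP76b19e.CoreS

/-! Removing undominated vertices from a local structure (MP_76b19e_co). -/

open Finset

noncomputable section

namespace Pool.Agent.MP76b19e

variable {V : Type*} [DecidableEq V]

lemma sum_upd1 {M : Type*} [AddCommMonoid M] (I : Finset V) (D : V → Finset V) (f : Finset V → M)
    {v0 : V} (hv : v0 ∈ I) (B : Finset V) :
    ∃ R : M, ∑ v ∈ I, f (D v) = f (D v0) + R ∧
      ∑ v ∈ I, f (Function.update D v0 B v) = f B + R := by
  refine ⟨∑ v ∈ I.erase v0, f (D v), (Finset.add_sum_erase _ _ hv).symm, ?_⟩
  rw [← Finset.add_sum_erase I (fun v => f (Function.update D v0 B v)) hv, Function.update_self]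
  congr 1
  refine Finset.sum_congr rfl fun v hv' => ?_
  rw [Function.update_of_ne (Finset.ne_of_mem_erase hv')]

lemma sum_upd2 {M : Type*} [AddCommMonoid M] (I : Finset V) (D : V → Finset V) (f : Finset V → M)
    {v0 z0 : V} (hv : v0 ∈ I) (hz : z0 ∈ I) (hne : v0 ≠ z0) (A B : Finset V) :
    ∃ R : M, ∑ v ∈ I, f (D v) = f (D v0) + (f (D z0) + R) ∧
      ∑ v ∈ I, f (Function.update (Function.update D z0 A) v0 B v) = f B + (f A + R) := by
  have hz' : z0 ∈ I.erase v0 := Finset.mem_erase.2 ⟨hne.symm, hz⟩
  refine ⟨∑ v ∈ (I.erase v0).erase z0, f (D v), ?_, ?_⟩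
  · rw [Finset.add_sum_erase _ (fun v => f (D v)) hz', Finset.add_sum_erase _ (fun v => f (D v)) hv]
  · rw [← Finset.add_sum_erase I
      (fun v => f (Function.update (Function.update D z0 A) v0 B v)) hv,
      Function.update_self,
      ← Finset.add_sum_erase (I.erase v0)
      (fun v => f (Function.update (Function.update D z0 A) v0 B v)) hz',
      Function.update_of_ne hne.symm, Function.update_self]
    congr 2
    refine Finset.sum_congr rfl fun v hv' => ?_
    rw [Function.update_of_ne, Function.update_of_ne]
    · exact Finset.ne_of_mem_erase hv'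
    · exact Finset.ne_of_mem_erase (Finset.mem_of_mem_erase hv')

lemma transf {K I : Finset V} {q : ℕ} {L H : ℝ} (hq : 2 ≤ q) (hL : 0 < L) (hH : 0 < H)
    (hLq : L ^ (q - 1) = q) (hHq : H ^ (q - 1) = 2 * q / (q + 1)) (c0 : ℕ) :
    ∀ (n : ℕ) (D : V → Finset V) (δ : V → ℕ), (∀ v ∈ I, D v ⊆ K) →
      (∀ k ∈ K, (I.filter (fun v => k ∈ D v)).card + δ k = q - 1) →
      (I.filter (fun v => D v = ∅)).card = c0 + n → n ≤ ∑ k ∈ K, δ k + ovl I D →
      (q : ℝ) ^ K.card * gw (aD K I D) K.card K ≤
        L ^ (∑ k ∈ K, δ k + ovl I D - n) * H ^ (ovl I D - n) *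
          bq (q - 1) c0 (∑ k ∈ K, δ k + ovl I D - n) := by
  intro n
  induction n with
  | zero =>
    intro D δ hD hslot hc _
    have h := gw_le (K := K) (I := I) (D := D) (δ := δ) (e := fun _ => 0) hq hL hH hLq hHq hD
      (fun k hk => by rw [add_zero]; exact hslot k hk) c0 (by omega)
    have hth : ∏ k ∈ K, th I D (fun _ => 0) k = 1 := by
      refine Finset.prod_eq_one fun k _ => ?_
      unfold th
      simp
    rw [hth, mul_one] at h
    simpa using h
  | succ n ih =>
    intro D δ hD hslot hc hn
    -- an undominated vertex
    obtain ⟨v0, hv0⟩ : (I.filter (fun v => D v = ∅)).Nonempty := Finset.card_pos.1 (by omega)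
    rw [Finset.mem_filter] at hv0
    by_cases hz : ∃ z ∈ I, 2 ≤ (D z).card
    · obtain ⟨z0, hz0, hz2⟩ := hz
      obtain ⟨k, hk⟩ : (D z0).Nonempty := Finset.card_pos.1 (by omega)
      have hne : v0 ≠ z0 := by
        rintro rfl
        rw [hv0.2] at hk
        simp at hk
      set D' := Function.update (Function.update D z0 ((D z0).erase k)) v0 {k} with hD'
      have hcard : ((D z0).erase k).card = (D z0).card - 1 := Finset.card_erase_of_mem hk
      -- properties
      have hsub : ∀ v ∈ I, D' v ⊆ K := by
        intro v hv
        rw [hD']
        by_cases h1 : v = v0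
        · rw [h1, Function.update_self, Finset.singleton_subset_iff]
          exact hD z0 hz0 hk
        · rw [Function.update_of_ne h1]
          by_cases h2 : v = z0
          · rw [h2, Function.update_self]
            exact (Finset.erase_subset _ _).trans (hD z0 hz0)
          · rw [Function.update_of_ne h2]
            exact hD v hv
      have hslot' : ∀ x ∈ K, (I.filter (fun v => x ∈ D' v)).card + δ x = q - 1 := by
        intro x hx
        rw [← hslot x hx]
        congr 1
        obtain ⟨R, h1, h2⟩ := sum_upd2 I D (fun S => if x ∈ S then 1 else 0) hv0.1 hz0 hne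
          ((D z0).erase k) {k}
        rw [Finset.card_filter, Finset.card_filter, h1, hD', h2, hv0.2]
        by_cases hxk : x = k
        · subst hxk
          simp [hk]
        · simp [hxk]
      have hovl : ovl I D = ovl I D' + 1 := by
        obtain ⟨R, h1, h2⟩ := sum_upd2 I D (fun S => S.card - 1) hv0.1 hz0 hne
          ((D z0).erase k) {k}
        unfold ovl
        rw [h1, hD', h2, hv0.2, hcard]
        simp
        omega
      have hemp : (I.filter (fun v => D' v = ∅)).card = c0 + n := by
        obtain ⟨R, h1, h2⟩ := sum_upd2 I D (fun S => if S = ∅ then 1 else 0) hv0.1 hz0 hne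
          ((D z0).erase k) {k}
        rw [Finset.card_filter, h1, hv0.2] at hc
        rw [Finset.card_filter, hD', h2]
        have h3 : D z0 ≠ ∅ := by
          intro h
          rw [h] at hz2
          simp at hz2
        have h4 : (D z0).erase k ≠ ∅ := by
          intro h
          rw [h] at hcard
          simp at hcard
          omega
        rw [if_neg h3] at hc
        rw [if_neg h4, if_neg (Finset.singleton_ne_empty k)]
        simp at hc
        omega
      have haD : ∀ T, T ⊆ K → T ≠ K → 0 < aD K I D' T ∧ aD K I D' T ≤ aD K I D T := by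
        intro T hT hTne
        refine ⟨aD_pos hT hTne, ?_⟩
        unfold aD
        obtain ⟨R, h1, h2⟩ := sum_upd2 I D (fun S => if Disjoint S T then 1 else 0) hv0.1 hz0 hne
          ((D z0).erase k) {k}
        rw [Finset.card_filter, Finset.card_filter, h1, hD', h2, hv0.2]
        norm_cast
        refine Nat.add_le_add_left ?_ _
        by_cases hkT : k ∈ T
        · have e1 : ¬ Disjoint ({k} : Finset V) T := by
            rw [Finset.disjoint_singleton_left]
            exact fun h => h hkT
          rw [if_neg e1, if_pos (Finset.disjoint_empty_left T)]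
          have e2 : (if Disjoint ((D z0).erase k) T then 1 else 0) ≤ 1 := by split_ifs <;> simp
          omega
        · have e1 : Disjoint ({k} : Finset V) T := by
            rw [Finset.disjoint_singleton_left]
            exact hkT
          have e2 : Disjoint ((D z0).erase k) T ↔ Disjoint (D z0) T := by
            constructor
            · intro h
              rw [Finset.disjoint_left] at h ⊢
              intro x hx hxT
              by_cases hxk : x = k
              · subst hxk
                exact hkT hxT
              · exact h (Finset.mem_erase.2 ⟨hxk, hx⟩) hxT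
            · intro h
              exact h.mono_left (Finset.erase_subset _ _)
          rw [if_pos e1, if_pos (Finset.disjoint_empty_left T)]
          simp only [e2]
          exact le_rfl
      have h1 := ih D' δ hsub hslot' hemp (by omega)
      have e1 : ∑ k ∈ K, δ k + ovl I D' - n = ∑ k ∈ K, δ k + ovl I D - (n + 1) := by omega
      have e2 : ovl I D' - n = ovl I D - (n + 1) := by omega
      rw [e1, e2] at h1
      refine le_trans ?_ h1
      refine mul_le_mul_of_nonneg_left ?_ (by positivity)
      exact gw_anti (K := K) (gw_nonneg (aD_nonneg K I D')) haD K.card K (Finset.Subset.refl _) rfl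
    · push Not at hz
      have hov : ovl I D = 0 := by
        unfold ovl
        refine Finset.sum_eq_zero fun v hv => ?_
        have := hz v hv
        omega
      obtain ⟨k, hk, hk0⟩ : ∃ k ∈ K, 0 < δ k := by
        by_contra hcon
        push Not at hcon
        have : ∑ k ∈ K, δ k = 0 := Finset.sum_eq_zero fun k hk => by
          have := hcon k hk
          omega
        omega
      set D' := Function.update D v0 {k} with hD'
      set δ' := Function.update δ k (δ k - 1) with hδ'
      have hsub : ∀ v ∈ I, D' v ⊆ K := by
        intro v hv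
        rw [hD']
        by_cases h1 : v = v0
        · rw [h1, Function.update_self, Finset.singleton_subset_iff]
          exact hk
        · rw [Function.update_of_ne h1]
          exact hD v hv
      have hsumδ : ∑ x ∈ K, δ x = ∑ x ∈ K, δ' x + 1 := by
        rw [← Finset.add_sum_erase K δ hk, ← Finset.add_sum_erase K δ' hk, hδ',
          Function.update_self]
        have : ∑ x ∈ K.erase k, Function.update δ k (δ k - 1) x = ∑ x ∈ K.erase k, δ x := by
          refine Finset.sum_congr rfl fun x hx => ?_
          rw [Function.update_of_ne (Finset.ne_of_mem_erase hx)]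
        rw [this]
        omega
      have hslot' : ∀ x ∈ K, (I.filter (fun v => x ∈ D' v)).card + δ' x = q - 1 := by
        intro x hx
        rw [← hslot x hx]
        obtain ⟨R, h1, h2⟩ := sum_upd1 I D (fun S => if x ∈ S then 1 else 0) hv0.1 {k}
        rw [Finset.card_filter, Finset.card_filter, h1, hD', h2, hv0.2, hδ']
        by_cases hxk : x = k
        · subst hxk
          rw [Function.update_self]
          simp
          omega
        · rw [Function.update_of_ne hxk]
          simp [hxk]
      have hovl : ovl I D' = 0 := by
        obtain ⟨R, h1, h2⟩ := sum_upd1 I D (fun S => S.card - 1) hv0.1 {k}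
        unfold ovl at hov ⊢
        rw [h1] at hov
        rw [hD', h2]
        simp at hov ⊢
        omega
      have hemp : (I.filter (fun v => D' v = ∅)).card = c0 + n := by
        obtain ⟨R, h1, h2⟩ := sum_upd1 I D (fun S => if S = ∅ then 1 else 0) hv0.1 {k}
        rw [Finset.card_filter, h1, hv0.2] at hc
        rw [Finset.card_filter, hD', h2]
        rw [if_neg (Finset.singleton_ne_empty k)]
        simp at hc
        omega
      have haD : ∀ T, T ⊆ K → T ≠ K → 0 < aD K I D' T ∧ aD K I D' T ≤ aD K I D T := by
        intro T hT hTne
        refine ⟨aD_pos hT hTne, ?_⟩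
        unfold aD
        obtain ⟨R, h1, h2⟩ := sum_upd1 I D (fun S => if Disjoint S T then 1 else 0) hv0.1 {k}
        rw [Finset.card_filter, Finset.card_filter, h1, hD', h2, hv0.2]
        norm_cast
        refine Nat.add_le_add_left ?_ _
        rw [if_pos (Finset.disjoint_empty_left T)]
        refine Nat.add_le_add_right ?_ _
        split_ifs <;> simp
      have h1 := ih D' δ' hsub hslot' hemp (by omega)
      have e1 : ∑ k ∈ K, δ' k + ovl I D' - n = ∑ k ∈ K, δ k + ovl I D - (n + 1) := by omega
      have e2 : ovl I D' - n = ovl I D - (n + 1) := by omega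
      rw [e1, e2] at h1
      refine le_trans ?_ h1
      refine mul_le_mul_of_nonneg_left ?_ (by positivity)
      exact gw_anti (K := K) (gw_nonneg (aD_nonneg K I D')) haD K.card K (Finset.Subset.refl _) rfl

end Pool.Agent.MP76b19e
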