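import Pool.Agent.Lib.MP76b19e.Basic
import Pool.Agent.Lib.MP76b19e.CoreT
import Pool.Agent.Lib.MP76b19e.CoreI

/-! The counting identity and the local inequalities in a graph (MP_76b19e_co). -/

open Finset

noncomputable section

namespace Pool.Agent.MP76b19e

variable {V : Type*} [DecidableEq V] {G : SimpleGraph V}

open Classical in
/-- common neighbours of `T` in `A` -/
def cnb (G : SimpleGraph V) (A T : Finset V) : Finset V := A.filter (fun a => ∀ t ∈ T, G.Adj t a)

/-- number of common neighbours -/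
def al (G : SimpleGraph V) (A T : Finset V) : ℝ := ((cnb G A T).card : ℝ)

open Classical in
/-- non-neighbours of `v` in `S` -/
def Dn (G : SimpleGraph V) (S : Finset V) (v : V) : Finset V := S.filter (fun u => ¬ G.Adj u v)

lemma mem_cnb {A T : Finset V} {a : V} : a ∈ cnb G A T ↔ a ∈ A ∧ ∀ t ∈ T, G.Adj t a := by
  classical
  simp [cnb]

lemma mem_Dn {S : Finset V} {v u : V} : u ∈ Dn G S v ↔ u ∈ S ∧ ¬ G.Adj u v := by
  classical
  simp [Dn]

lemma Dn_subset {S : Finset V} {v : V} : Dn G S v ⊆ S := fun _ h => (mem_Dn.1 h).1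

lemma al_nonneg (A T : Finset V) : 0 ≤ al G A T := Nat.cast_nonneg _

lemma not_mem_cnb_self {A T : Finset V} {a : V} (h : a ∈ T) : a ∉ cnb G A T := by
  intro h'
  exact G.loopless.irrefl a ((mem_cnb.1 h').2 a h)

lemma clique_adj {S : Finset V} (h : G.IsClique (S : Set V)) {a b : V} (ha : a ∈ S) (hb : b ∈ S)
    (hab : a ≠ b) : G.Adj a b := h (by exact_mod_cast ha) (by exact_mod_cast hb) hab

lemma erase_mem_K {A S : Finset V} {m : ℕ} (h : S ∈ K G A (m + 1)) {u : V} (hu : u ∈ S) :
    S.erase u ∈ K G A m := by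
  rw [mem_K] at h ⊢
  refine ⟨(Finset.erase_subset _ _).trans h.1, ?_, ?_⟩
  · rw [Finset.card_erase_of_mem hu, h.2.1]; rfl
  · exact h.2.2.subset (by exact_mod_cast Finset.erase_subset _ _)

lemma sum_K_erase (A : Finset V) (m : ℕ) (f : Finset V → V → ℝ) :
    ∑ S ∈ K G A (m + 1), ∑ u ∈ S, f (S.erase u) u = ∑ T ∈ K G A m, ∑ a ∈ cnb G A T, f T a := by
  rw [Finset.sum_sigma', Finset.sum_sigma']
  refine Finset.sum_bij' (fun x _ => ⟨x.1.erase x.2, x.2⟩) (fun x _ => ⟨insert x.2 x.1, x.2⟩)
    ?_ ?_ ?_ ?_ ?_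
  · rintro ⟨S, u⟩ h
    simp only [Finset.mem_sigma] at h ⊢
    refine ⟨erase_mem_K h.1 h.2, ?_⟩
    have h1 := mem_K.1 h.1
    rw [mem_cnb]
    refine ⟨h1.1 h.2, fun t ht => ?_⟩
    exact clique_adj h1.2.2 (Finset.mem_of_mem_erase ht) h.2 (Finset.ne_of_mem_erase ht)
  · rintro ⟨T, a⟩ h
    simp only [Finset.mem_sigma] at h ⊢
    have h1 := mem_K.1 h.1
    have h2 := mem_cnb.1 h.2
    have h3 : a ∉ T := fun h' => not_mem_cnb_self h' h.2
    refine ⟨?_, Finset.mem_insert_self _ _⟩
    rw [mem_K]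
    refine ⟨Finset.insert_subset h2.1 h1.1, ?_, ?_⟩
    · rw [Finset.card_insert_of_notMem h3, h1.2.1]
    · rw [Finset.coe_insert, SimpleGraph.isClique_insert]
      refine ⟨h1.2.2, fun b hb _ => ?_⟩
      exact (h2.2 b (by exact_mod_cast hb)).symm
  · rintro ⟨S, u⟩ h
    simp only [Finset.mem_sigma] at h
    simp only
    rw [Finset.insert_erase h.2]
  · rintro ⟨T, a⟩ h
    simp only [Finset.mem_sigma] at h
    have h3 : a ∉ T := fun h' => not_mem_cnb_self h' h.2
    simp only
    rw [Finset.erase_insert h3]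
  · rintro ⟨S, u⟩ _
    rfl

/-- splitting a sum over cliques -/
lemma sum_K_split (A : Finset V) (m : ℕ) (f : Finset V → ℝ) :
    ∑ T ∈ K G A m, f T = ∑ T ∈ (K G A m).filter (fun T => cnb G A T = ∅), f T +
      ∑ S ∈ K G A (m + 1), ∑ u ∈ S, f (S.erase u) / al G A (S.erase u) := by
  rw [sum_K_erase A m (fun T _ => f T / al G A T),
    ← Finset.sum_filter_add_sum_filter_not (K G A m) (fun T => cnb G A T = ∅) f]
  congr 1
  rw [← Finset.sum_filter_add_sum_filter_not (K G A m) (fun T => cnb G A T = ∅)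
    (fun T => ∑ a ∈ cnb G A T, f T / al G A T)]
  have h1 : ∑ T ∈ (K G A m).filter (fun T => cnb G A T = ∅),
      (∑ a ∈ cnb G A T, f T / al G A T) = 0 := by
    refine Finset.sum_eq_zero fun T hT => ?_
    rw [(Finset.mem_filter.1 hT).2, Finset.sum_empty]
  rw [h1, zero_add]
  refine Finset.sum_congr rfl fun T hT => ?_
  have h2 : cnb G A T ≠ ∅ := (Finset.mem_filter.1 hT).2
  have h3 : (0 : ℝ) < al G A T := by
    unfold al
    exact_mod_cast Finset.card_pos.2 (Finset.nonempty_iff_ne_empty.2 h2)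
  rw [Finset.sum_const, nsmul_eq_mul]
  change f T = al G A T * (f T / al G A T)
  field_simp

/-- the greedy weights form a probability distribution as long as the process does not stop -/
lemma gw_sum {A : Finset V} : ∀ (m : ℕ), (∀ n < m, ∀ T ∈ K G A n, 0 < al G A T) →
    ∑ T ∈ K G A m, gw (al G A) m T = 1
  | 0, _ => by
    have : K G A 0 = {∅} := by
      ext T
      rw [mem_K, Finset.mem_singleton]
      constructor
      · rintro ⟨_, h, _⟩
        exact Finset.card_eq_zero.1 h
      · rintro rfl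
        simp
    rw [this, Finset.sum_singleton]
    rfl
  | m + 1, h => by
    have ih := gw_sum m (fun n hn => h n (by omega))
    rw [← ih]
    have h1 : ∑ T ∈ K G A (m + 1), gw (al G A) (m + 1) T =
        ∑ S ∈ K G A (m + 1), ∑ u ∈ S, gw (al G A) m (S.erase u) / al G A (S.erase u) := rfl
    rw [h1, sum_K_erase A m (fun T _ => gw (al G A) m T / al G A T)]
    refine Finset.sum_congr rfl fun T hT => ?_
    have h3 := h m (by omega) T hT
    rw [Finset.sum_const, nsmul_eq_mul]
    change al G A T * (gw (al G A) m T / al G A T) = _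
    field_simp

lemma card_le_cnb (A T : Finset V) : A.card ≤ (cnb G A T).card + ∑ t ∈ T, (cn G A t).card := by
  classical
  have h1 : A ⊆ cnb G A T ∪ T.biUnion (fun t => cn G A t) := by
    intro a ha
    by_cases h : ∀ t ∈ T, G.Adj t a
    · exact Finset.mem_union_left _ (mem_cnb.2 ⟨ha, h⟩)
    · push Not at h
      obtain ⟨t, ht, hta⟩ := h
      exact Finset.mem_union_right _ (Finset.mem_biUnion.2 ⟨t, ht, mem_cn.2 ⟨ha, hta⟩⟩)
  refine (Finset.card_le_card h1).trans ((Finset.card_union_le _ _).trans ?_)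
  exact Nat.add_le_add_left Finset.card_biUnion_le _

section clique
variable {A S : Finset V} {m : ℕ}

/-- the local structure of a clique computes the number of common neighbours -/
lemma card_cnb_eq (hS : S ∈ K G A m) {T : Finset V} (hT : T ⊆ S) :
    (cnb G A T).card =
      (S \ T).card + ((A \ S).filter (fun v => Disjoint (Dn G S v) T)).card := by
  have h1 := mem_K.1 hS
  rw [← Finset.card_union_of_disjoint]
  · congr 1
    ext a
    rw [mem_cnb, Finset.mem_union, Finset.mem_sdiff, Finset.mem_filter, Finset.mem_sdiff]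
    constructor
    · rintro ⟨haA, ha⟩
      by_cases haS : a ∈ S
      · refine Or.inl ⟨haS, fun haT => ?_⟩
        exact G.loopless.irrefl a (ha a haT)
      · refine Or.inr ⟨⟨haA, haS⟩, ?_⟩
        rw [Finset.disjoint_left]
        intro x hx hxT
        exact (mem_Dn.1 hx).2 (ha x hxT)
    · rintro (⟨haS, haT⟩ | ⟨⟨haA, haS⟩, hd⟩)
      · refine ⟨h1.1 haS, fun t ht => ?_⟩
        refine clique_adj h1.2.2 (hT ht) haS ?_
        rintro rfl
        exact haT ht
      · refine ⟨haA, fun t ht => ?_⟩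
        by_contra hcon
        exact Finset.disjoint_left.1 hd (mem_Dn.2 ⟨hT ht, hcon⟩) ht
  · rw [Finset.disjoint_left]
    intro x hx hx'
    rw [Finset.mem_filter, Finset.mem_sdiff] at hx'
    exact hx'.1.2 (Finset.mem_sdiff.1 hx).1

lemma al_eq_aD (hS : S ∈ K G A m) {T : Finset V} (hT : T ⊆ S) :
    al G A T = aD S (A \ S) (Dn G S) T := by
  unfold al aD
  rw [card_cnb_eq hS hT]

lemma gw_al_eq (hS : S ∈ K G A m) :
    gw (al G A) S.card S = gw (aD S (A \ S) (Dn G S)) S.card S :=
  gw_congr (K := S) (fun T hT => al_eq_aD hS hT) _ _ (Finset.Subset.refl _)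

/-- slots -/
lemma card_slot (hS : S ∈ K G A m) {k : V} (hk : k ∈ S) :
    ((A \ S).filter (fun v => k ∈ Dn G S v)).card + 1 = (cn G A k).card := by
  have h1 := mem_K.1 hS
  have h2 : cn G A k = insert k ((A \ S).filter (fun v => k ∈ Dn G S v)) := by
    ext a
    rw [mem_cn, Finset.mem_insert, Finset.mem_filter, Finset.mem_sdiff, mem_Dn]
    constructor
    · rintro ⟨haA, hak⟩
      by_cases haS : a ∈ S
      · left
        by_contra hne
        exact hak (clique_adj h1.2.2 hk haS (Ne.symm hne))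
      · exact Or.inr ⟨⟨haA, haS⟩, hk, hak⟩
    · rintro (rfl | ⟨⟨haA, _⟩, _, hak⟩)
      · exact ⟨h1.1 hk, G.loopless.irrefl a⟩
      · exact ⟨haA, hak⟩
  rw [h2, Finset.card_insert_of_notMem]
  rw [Finset.mem_filter, Finset.mem_sdiff]
  exact fun h => h.1.2 hk

/-- undominated vertices -/
lemma card_cnb_self (hS : S ∈ K G A m) :
    (cnb G A S).card = ((A \ S).filter (fun v => Dn G S v = ∅)).card := by
  rw [card_cnb_eq hS (Finset.Subset.refl _), Finset.sdiff_self, Finset.card_empty, zero_add]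
  congr 1
  refine Finset.filter_congr fun v _ => ?_
  constructor
  · intro h
    rw [← Finset.disjoint_self_iff_empty]
    exact h.mono_right Dn_subset
  · intro h
    rw [h]
    exact Finset.disjoint_empty_left _

/-- number of common neighbours of a clique minus a vertex -/
lemma card_cnb_erase (hS : S ∈ K G A m) {u : V} (hu : u ∈ S) :
    (cnb G A (S.erase u)).card = 1 + ((A \ S).filter (fun v => Dn G S v = ∅)).card +
      ((A \ S).filter (fun v => Dn G S v = {u})).card := by
  rw [card_cnb_eq hS (Finset.erase_subset _ _)]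
  have h1 : S \ S.erase u = {u} := by
    ext x
    rw [Finset.mem_sdiff, Finset.mem_erase, Finset.mem_singleton]
    constructor
    · rintro ⟨h, h'⟩
      by_contra hne
      exact h' ⟨hne, h⟩
    · rintro rfl
      exact ⟨hu, fun h => h.1 rfl⟩
  rw [h1, Finset.card_singleton, add_assoc, ← Finset.card_union_of_disjoint]
  · congr 2
    ext v
    rw [Finset.mem_union, Finset.mem_filter, Finset.mem_filter, Finset.mem_filter]
    constructor
    · rintro ⟨hv, hd⟩
      have h2 : Dn G S v ⊆ {u} := by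
        intro x hx
        rw [Finset.mem_singleton]
        by_contra hne
        exact Finset.disjoint_left.1 hd hx (Finset.mem_erase.2 ⟨hne, Dn_subset hx⟩)
      rcases Finset.subset_singleton_iff.1 h2 with h3 | h3
      · exact Or.inl ⟨hv, h3⟩
      · exact Or.inr ⟨hv, h3⟩
    · rintro (⟨hv, h⟩ | ⟨hv, h⟩)
      · exact ⟨hv, by rw [h]; exact Finset.disjoint_empty_left _⟩
      · refine ⟨hv, ?_⟩
        rw [h, Finset.disjoint_singleton_left]
        exact Finset.notMem_erase _ _
  · rw [Finset.disjoint_left]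
    intro x hx hx'
    rw [Finset.mem_filter] at hx hx'
    have := hx.2.symm.trans hx'.2
    exact (Finset.singleton_ne_empty u) this.symm

/-- double counting of the slots -/
lemma slot_sum (hS : S ∈ K G A m) :
    ∑ k ∈ S, ((A \ S).filter (fun v => k ∈ Dn G S v)).card +
      ((A \ S).filter (fun v => Dn G S v = ∅)).card + S.card = A.card + ovl (A \ S) (Dn G S) := by
  have h1 := mem_K.1 hS
  have h2 : ∑ k ∈ S, ((A \ S).filter (fun v => k ∈ Dn G S v)).card =
      ∑ v ∈ A \ S, (Dn G S v).card := by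
    have h3 : ∀ k ∈ S, ((A \ S).filter (fun v => k ∈ Dn G S v)).card =
        ∑ v ∈ A \ S, (if k ∈ Dn G S v then 1 else 0) := fun k _ => Finset.card_filter _ _
    rw [Finset.sum_congr rfl h3, Finset.sum_comm]
    refine Finset.sum_congr rfl fun v _ => ?_
    rw [← Finset.sum_filter, Finset.sum_const, smul_eq_mul, mul_one]
    congr 1
    ext x
    rw [Finset.mem_filter]
    exact ⟨fun h => h.2, fun h => ⟨Dn_subset h, h⟩⟩
  have h4 : ∑ v ∈ A \ S, (Dn G S v).card + ((A \ S).filter (fun v => Dn G S v = ∅)).card =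
      (A \ S).card + ovl (A \ S) (Dn G S) := by
    unfold ovl
    rw [Finset.card_filter, Finset.card_eq_sum_ones, ← Finset.sum_add_distrib,
      ← Finset.sum_add_distrib]
    refine Finset.sum_congr rfl fun v _ => ?_
    by_cases h : Dn G S v = ∅
    · rw [if_pos h, h]; simp
    · rw [if_neg h]
      have : 0 < (Dn G S v).card := Finset.card_pos.2 (Finset.nonempty_iff_ne_empty.2 h)
      omega
  have h5 := Finset.card_sdiff_add_card_eq_card h1.1
  omega

end clique

section colours
variable {β : Type*}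

open Classical in
/-- number of colours of `B` missed by no vertex of `Y` -/
def bcol (B : Finset β) (M : V → Finset β) (Y : Finset V) : ℕ :=
  (B.filter (fun y => ∀ a ∈ Y, y ∉ M a)).card

lemma bcol_anti {B : Finset β} {M : V → Finset β} {Y Y' : Finset V} (h : Y' ⊆ Y) :
    bcol B M Y ≤ bcol B M Y' := by
  classical
  unfold bcol
  refine Finset.card_le_card fun y hy => ?_
  rw [Finset.mem_filter] at hy ⊢
  exact ⟨hy.1, fun a ha => hy.2 a (h ha)⟩

lemma bcol_le {B : Finset β} {M : V → Finset β} {Y : Finset V} : bcol B M Y ≤ B.card := by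
  classical
  unfold bcol
  exact Finset.card_filter_le _ _

lemma le_bcol (B : Finset β) (M : V → Finset β) (Y : Finset V) :
    B.card ≤ bcol B M Y + ∑ a ∈ Y, (M a).card := by
  classical
  have h1 : B ⊆ B.filter (fun y => ∀ a ∈ Y, y ∉ M a) ∪ Y.biUnion M := by
    intro y hy
    by_cases h : ∀ a ∈ Y, y ∉ M a
    · exact Finset.mem_union_left _ (Finset.mem_filter.2 ⟨hy, h⟩)
    · push Not at h
      obtain ⟨a, ha, hya⟩ := h
      exact Finset.mem_union_right _ (Finset.mem_biUnion.2 ⟨a, ha, hya⟩)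
  refine (Finset.card_le_card h1).trans ((Finset.card_union_le _ _).trans ?_)
  exact Nat.add_le_add_left Finset.card_biUnion_le _

/-- if every colour is missed, then the colours missed by exactly one vertex -/
lemma bcol_erase_le {B : Finset β} {M : V → Finset β} {S : Finset V} (h0 : bcol B M S = 0) {u : V} :
    bcol B M (S.erase u) ≤ (M u).card := by
  classical
  unfold bcol at h0 ⊢
  rw [Finset.card_eq_zero, Finset.filter_eq_empty_iff] at h0
  refine Finset.card_le_card fun y hy => ?_
  rw [Finset.mem_filter] at hy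
  by_contra hcon
  refine h0 hy.1 fun a ha => ?_
  by_cases hau : a = u
  · subst hau; exact hcon
  · exact hy.2 a (Finset.mem_erase.2 ⟨hau, ha⟩)

lemma sum_bcol_erase_le {B : Finset β} {M : V → Finset β} {S : Finset V} (h0 : bcol B M S = 0) :
    ∑ u ∈ S, bcol B M (S.erase u) ≤ B.card := by
  classical
  have h0' := h0
  unfold bcol at h0 ⊢
  rw [Finset.card_eq_zero, Finset.filter_eq_empty_iff] at h0
  rw [← Finset.card_biUnion]
  · refine Finset.card_le_card fun y hy => ?_
    obtain ⟨u, _, h⟩ := Finset.mem_biUnion.1 hy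
    exact (Finset.mem_filter.1 h).1
  · intro u hu w hw huw
    rw [Function.onFun, Finset.disjoint_left]
    intro y hy hy'
    rw [Finset.mem_filter] at hy hy'
    refine h0 hy.1 fun a ha => ?_
    by_cases hau : a = u
    · rw [hau]
      exact hy'.2 u (Finset.mem_erase.2 ⟨huw, hu⟩)
    · exact hy.2 a (Finset.mem_erase.2 ⟨hau, ha⟩)

lemma two_le_sum {B : Finset β} {M : V → Finset β} {S : Finset V} (h0 : bcol B M S = 0)
    (hM : ∀ u ∈ S, M u ⊆ B) :
    2 * B.card ≤ ∑ u ∈ S, (M u).card + ∑ u ∈ S, bcol B M (S.erase u) := by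
  classical
  have h0' := h0
  unfold bcol at h0 ⊢
  rw [Finset.card_eq_zero, Finset.filter_eq_empty_iff] at h0
  have e1 : ∀ u ∈ S, (M u).card = ∑ y ∈ B, (if y ∈ M u then 1 else 0) := by
    intro u hu
    rw [← Finset.sum_filter, Finset.sum_const, smul_eq_mul, mul_one]
    congr 1
    ext y
    rw [Finset.mem_filter]
    exact ⟨fun h => ⟨hM u hu h, h⟩, fun h => h.2⟩
  have e2 : ∀ u ∈ S, (B.filter (fun y => ∀ a ∈ S.erase u, y ∉ M a)).card =
      ∑ y ∈ B, (if ∀ a ∈ S.erase u, y ∉ M a then 1 else 0) := fun u _ => Finset.card_filter _ _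
  rw [Finset.sum_congr rfl e1, Finset.sum_congr rfl e2, Finset.sum_comm, Finset.sum_comm (s := S),
    ← Finset.sum_add_distrib, mul_comm, ← smul_eq_mul, ← Finset.sum_const]
  refine Finset.sum_le_sum fun y hy => ?_
  have h1 := h0 hy
  push Not at h1
  obtain ⟨u0, hu0, hyu0⟩ := h1
  by_cases h2 : ∃ u1 ∈ S, u1 ≠ u0 ∧ y ∈ M u1
  · obtain ⟨u1, hu1, hne, hyu1⟩ := h2
    have h3 : 2 ≤ ∑ u ∈ S, (if y ∈ M u then 1 else 0) := by
      have h4 : ({u0, u1} : Finset V) ⊆ S := by
        intro x hx
        rcases Finset.mem_insert.1 hx with rfl | hx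
        · exact hu0
        · rw [Finset.mem_singleton.1 hx]; exact hu1
      have h5 : ∑ u ∈ ({u0, u1} : Finset V), (if y ∈ M u then 1 else 0) = 2 := by
        rw [Finset.sum_pair (Ne.symm hne), if_pos hyu0, if_pos hyu1]
      rw [← h5]
      exact Finset.sum_le_sum_of_subset h4
    omega
  · push Not at h2
    have h3 : 1 ≤ ∑ u ∈ S, (if y ∈ M u then 1 else 0) := by
      refine le_trans (le_of_eq ?_) (Finset.single_le_sum (f := fun u => if y ∈ M u then 1 else 0)
        (fun _ _ => Nat.zero_le _) hu0)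
      rw [if_pos hyu0]
    have h4 : 1 ≤ ∑ u ∈ S, (if ∀ a ∈ S.erase u, y ∉ M a then 1 else 0) := by
      refine le_trans (le_of_eq ?_) (Finset.single_le_sum
        (f := fun u => if ∀ a ∈ S.erase u, y ∉ M a then 1 else 0)
        (fun _ _ => Nat.zero_le _) hu0)
      rw [if_pos]
      intro a ha
      exact h2 a (Finset.mem_of_mem_erase ha) (Finset.ne_of_mem_erase ha)
    omega

end colours

end Pool.Agent.MP76b19e
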