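import Pool.Agent.Lib.MP76b19e.CoreG

/-! The local inequalities (MP_76b19e_co). -/

open Finset

noncomputable section

namespace Pool.Agent.MP76b19e

variable {V : Type*} [DecidableEq V] {G : SimpleGraph V} {β : Type*}

/-- the setting: `A` has `(r-1) q + 1` vertices, and every vertex of `A` misses exactly `q`
vertices and colours -/
structure Setting (G : SimpleGraph V) (A : Finset V) (B : Finset β) (M : V → Finset β)
    (q r : ℕ) : Prop where
  hq : 2 ≤ q
  hr : 1 ≤ r
  hA : A.card = (r - 1) * q + 1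
  hB : B.card = q
  hM : ∀ a ∈ A, M a ⊆ B
  hdeg : ∀ a ∈ A, (cn G A a).card + (M a).card = q

section
variable {A : Finset V} {B : Finset β} {M : V → Finset β} {q r : ℕ}

lemma Setting.slot (h : Setting G A B M q r) {S : Finset V} {m : ℕ} (hS : S ∈ K G A m) {k : V}
    (hk : k ∈ S) :
    ((A \ S).filter (fun v => k ∈ Dn G S v)).card + (M k).card = q - 1 := by
  have h1 := card_slot hS hk
  have h2 := h.hdeg k ((mem_K.1 hS).1 hk)
  have h3 := h.hq
  omega

/-- total waste of a clique of size `m` -/
lemma Setting.total (h : Setting G A B M q r) {S : Finset V} {m : ℕ} (hS : S ∈ K G A m) :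
    ∑ k ∈ S, (M k).card + ovl (A \ S) (Dn G S) + A.card =
      m * q + (cnb G A S).card := by
  have h1 := slot_sum hS
  have h2 : ∑ k ∈ S, ((A \ S).filter (fun v => k ∈ Dn G S v)).card + ∑ k ∈ S, (M k).card =
      m * (q - 1) := by
    rw [← Finset.sum_add_distrib, Finset.sum_congr rfl (fun k hk => h.slot hS hk),
      Finset.sum_const, smul_eq_mul, (mem_K.1 hS).2.1]
  rw [card_cnb_self hS]
  have h3 := (mem_K.1 hS).2.1
  have h4 : m * q = m * (q - 1) + m := by
    have := h.hq
    obtain ⟨t, rfl⟩ : ∃ t, q = t + 1 := ⟨q - 1, by omega⟩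
    rw [Nat.add_sub_cancel]; ring
  omega

lemma exists_root {N : ℕ} (hN : 1 ≤ N) {x : ℝ} (hx : 0 < x) : ∃ y : ℝ, 0 < y ∧ y ^ N = x :=
  ⟨x ^ ((N : ℝ)⁻¹), Real.rpow_pos_of_pos hx _, Real.rpow_inv_natCast_pow hx.le (by omega)⟩

lemma Setting.total_r (h : Setting G A B M q r) {Y : Finset V} (hY : Y ∈ K G A r) :
    ∑ k ∈ Y, (M k).card + ovl (A \ Y) (Dn G Y) + 1 = q + (cnb G A Y).card := by
  have h1 := h.total hY
  have h2 := h.hA
  have h3 : r * q = (r - 1) * q + q := by
    have := h.hr
    obtain ⟨t, rfl⟩ : ∃ t, r = t + 1 := ⟨r - 1, by omega⟩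
    rw [Nat.add_sub_cancel]; ring
  omega

lemma Setting.total_r1 (h : Setting G A B M q r) {S : Finset V} (hS : S ∈ K G A (r + 1)) :
    ∑ k ∈ S, (M k).card + ovl (A \ S) (Dn G S) + 1 = 2 * q + (cnb G A S).card := by
  have h1 := h.total hS
  have h2 := h.hA
  have h3 : (r + 1) * q = (r - 1) * q + 2 * q := by
    have := h.hr
    obtain ⟨t, rfl⟩ : ∃ t, r = t + 1 := ⟨r - 1, by omega⟩
    rw [Nat.add_sub_cancel]; ring
  omega

/-- (II) and (III) -/
theorem Setting.local23 (h : Setting G A B M q r) {Y : Finset V} (hY : Y ∈ K G A r)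
    (hb : (cnb G A Y).card = 0 ∨ 1 ≤ bcol B M Y) :
    (q : ℝ) ^ (r - 1) * gw (al G A) r Y ≤ bcol B M Y := by
  have hq := h.hq
  have hr := h.hr
  have hq0 : (0 : ℝ) < q := by
    have : 0 < q := by omega
    exact_mod_cast this
  obtain ⟨L, hL, hLq⟩ := exists_root (show 1 ≤ q - 1 by omega) hq0
  obtain ⟨H, hH, hHq⟩ := exists_root (show 1 ≤ q - 1 by omega)
    (show (0 : ℝ) < 2 * q / (q + 1) by positivity)
  have hcard := (mem_K.1 hY).2.1
  have hgw := gw_al_eq hY
  rw [hcard] at hgw
  have ht := h.total_r hY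
  set c := (cnb G A Y).card with hc
  set o := ovl (A \ Y) (Dn G Y) with ho
  set m := ∑ k ∈ Y, (M k).card with hm
  have hmain := transf (K := Y) (I := A \ Y) hq hL hH hLq hHq 0 c (Dn G Y) (fun k => (M k).card)
    (fun v _ => Dn_subset) (fun k hk => h.slot hY hk) (by rw [zero_add, hc, card_cnb_self hY])
    (by omega)
  rw [hcard, ← hgw] at hmain
  have e1 : m + o - c = q - 1 := by omega
  rw [← hm, ← ho, e1, hLq] at hmain
  have e2 : bq (q - 1) 0 (q - 1) = 1 := by simp [bq]
  rw [e2, mul_one] at hmain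
  have e3 : (q : ℝ) ^ r = (q : ℝ) ^ (r - 1) * q := by
    rw [← pow_succ]; congr 1; omega
  rw [e3] at hmain
  have h1 : (q : ℝ) ^ (r - 1) * gw (al G A) r Y ≤ H ^ (o - c) := by
    have h2 : (q : ℝ) ^ (r - 1) * gw (al G A) r Y * q ≤ H ^ (o - c) * q := by
      calc (q : ℝ) ^ (r - 1) * gw (al G A) r Y * q
          = (q : ℝ) ^ (r - 1) * q * gw (al G A) r Y := by ring
        _ ≤ (q : ℝ) * H ^ (o - c) := hmain
        _ = _ := by ring
    exact le_of_mul_le_mul_right h2 hq0
  refine h1.trans ?_
  have hb1 := le_bcol B M Y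
  rw [h.hB, ← hm] at hb1
  have hb2 : bcol B M Y ≤ B.card := bcol_le
  rw [h.hB] at hb2
  have h3 : o - c ≤ q - 1 := by omega
  have h4 := H_pow_le hq hH hHq h3
  have h5 : 1 + (o - c) ≤ bcol B M Y := by omega
  have h6 : (1 : ℝ) + ((o - c : ℕ) : ℝ) ≤ bcol B M Y := by exact_mod_cast h5
  have h7 : ((o - c : ℕ) : ℝ) / (q + 1) ≤ ((o - c : ℕ) : ℝ) := by
    apply div_le_self (Nat.cast_nonneg _)
    linarith
  linarith

/-- (I) -/
theorem Setting.local1 (h : Setting G A B M q r) {S : Finset V} (hS : S ∈ K G A (r + 1)) :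
    (q : ℝ) ^ (r - 1) * gw (al G A) (r + 1) S ≤
      1 + ∑ u ∈ S, (bcol B M (S.erase u) : ℝ) / al G A (S.erase u) := by
  have hq := h.hq
  have hr := h.hr
  have hq0 : (0 : ℝ) < q := by
    have : 0 < q := by omega
    exact_mod_cast this
  have hq1 : (1 : ℝ) ≤ q := by
    have : 1 ≤ q := by omega
    exact_mod_cast this
  by_cases hb0 : 1 ≤ bcol B M S
  · -- some colour is missed by nobody
    have h1 : (q : ℝ) ^ (r - 1) * gw (al G A) (r + 1) S =
        ∑ u ∈ S, ((q : ℝ) ^ (r - 1) * gw (al G A) r (S.erase u)) / al G A (S.erase u) := by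
      rw [gw, Finset.mul_sum]
      refine Finset.sum_congr rfl fun u _ => ?_
      rw [mul_div_assoc]
    rw [h1]
    have h2 : ∑ u ∈ S, ((q : ℝ) ^ (r - 1) * gw (al G A) r (S.erase u)) / al G A (S.erase u) ≤
        ∑ u ∈ S, (bcol B M (S.erase u) : ℝ) / al G A (S.erase u) := by
      refine Finset.sum_le_sum fun u hu => ?_
      refine div_le_div_of_nonneg_right ?_ (al_nonneg _ _)
      refine h.local23 (erase_mem_K hS hu) (Or.inr ?_)
      exact hb0.trans (bcol_anti (Finset.erase_subset _ _))
    linarith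
  · have hb0' : bcol B M S = 0 := by omega
    obtain ⟨L, hL, hLq⟩ := exists_root (show 1 ≤ q - 1 by omega) hq0
    obtain ⟨H, hH, hHq⟩ := exists_root (show 1 ≤ q - 1 by omega)
      (show (0 : ℝ) < 2 * q / (q + 1) by positivity)
    have hH1 := H_ge_one hq hH hHq
    have hL1 : 1 ≤ L := by
      have h1 := L_ge hq hL hLq
      refine le_trans ?_ h1
      rw [le_div_iff₀ hq0]
      linarith
    have hSK := mem_K.1 hS
    have hcard := hSK.2.1
    have hgw := gw_al_eq hS
    rw [hcard] at hgw
    have ht := h.total_r1 hS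
    set c := (cnb G A S).card with hc
    set o := ovl (A \ S) (Dn G S) with ho
    set m := ∑ k ∈ S, (M k).card with hm
    set e : V → ℕ := fun u => bcol B M (S.erase u) with he
    set E := ∑ u ∈ S, e u with hE
    have hEq : E ≤ q := by
      have := sum_bcol_erase_le hb0'
      rw [h.hB] at this
      exact this
    have h2q : 2 * q ≤ m + E := by
      have := two_le_sum hb0' (fun u hu => h.hM u (hSK.1 hu))
      rw [h.hB] at this
      exact this
    have heM : ∀ u, e u ≤ (M u).card := fun u => bcol_erase_le hb0'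
    have hempty : ((A \ S).filter (fun v => Dn G S v = ∅)).card = c := by
      rw [hc, card_cnb_self hS]
    have hal : ∀ u ∈ S, al G A (S.erase u) =
        1 + c + (((A \ S).filter (fun v => Dn G S v = {u})).card : ℝ) := by
      intro u hu
      unfold al
      rw [card_cnb_erase hS hu, hempty]
      push_cast
      ring
    have hsum0 : 0 ≤ ∑ u ∈ S, (bcol B M (S.erase u) : ℝ) / al G A (S.erase u) :=
      Finset.sum_nonneg fun u _ => div_nonneg (Nat.cast_nonneg _) (al_nonneg _ _)
    have e3 : (q : ℝ) ^ (r + 1) = (q : ℝ) ^ (r - 1) * (q * q) := by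
      have : r + 1 = (r - 1) + 2 := by omega
      rw [this, pow_add]; ring
    have hqq : (0 : ℝ) < (q : ℝ) * q := by positivity
    have hLsplit : ∀ a : ℕ, L ^ (2 * (q - 1) + a) = (q : ℝ) * q * L ^ a := by
      intro a
      rw [pow_add, mul_comm 2, pow_mul, hLq]; ring
    rcases Nat.lt_trichotomy c 1 with hc0 | hc1 | hc2
    · -- c = 0
      have hc0' : c = 0 := by omega
      have hE1 : 1 ≤ E := by omega
      have hoE : o ≤ E - 1 := by omega
      have hHo : H ^ o ≤ H ^ (E - 1) := pow_le_pow_right₀ hH1 hoE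
      set s : ℝ := ∑ u ∈ S, (bcol B M (S.erase u) : ℝ) / al G A (S.erase u) with hs
      -- first bound
      have hmain := gw_le (K := S) (I := A \ S) (D := Dn G S) (δ := fun k => (M k).card)
        (e := fun _ => 0) hq hL hH hLq hHq (fun v _ => Dn_subset)
        (fun k hk => by rw [add_zero]; exact h.slot hS hk) 0 (Nat.zero_le _)
      have hth : ∏ k ∈ S, th (A \ S) (Dn G S) (fun _ => 0) k = 1 := by
        refine Finset.prod_eq_one fun k _ => ?_
        unfold th
        simp
      have e4 : m + o = 2 * (q - 1) + 1 := by omega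
      rw [hth, mul_one, hcard, ← hgw, ← hm, ← ho, e4, hLsplit, pow_one] at hmain
      have e5 : bq (q - 1) 0 (2 * (q - 1) + 1) = 1 := by simp [bq]
      rw [e5, mul_one, e3] at hmain
      have hF1 : (q : ℝ) ^ (r - 1) * gw (al G A) (r + 1) S ≤ L * H ^ (E - 1) := by
        have h2 : (q : ℝ) ^ (r - 1) * gw (al G A) (r + 1) S * (q * q) ≤
            L * H ^ (E - 1) * (q * q) := by
          calc (q : ℝ) ^ (r - 1) * gw (al G A) (r + 1) S * (q * q)
              = (q : ℝ) ^ (r - 1) * (q * q) * gw (al G A) (r + 1) S := by ring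
            _ ≤ (q : ℝ) * q * L * H ^ o := hmain
            _ ≤ (q : ℝ) * q * L * H ^ (E - 1) := mul_le_mul_of_nonneg_left hHo (by positivity)
            _ = _ := by ring
        exact le_of_mul_le_mul_right h2 hqq
      -- second bound
      have hmain2 := gw_le (K := S) (I := A \ S) (D := Dn G S) (δ := fun k => (M k).card - e k)
        (e := e) hq hL hH hLq hHq (fun v _ => Dn_subset)
        (fun k hk => by
          have h1 := h.slot hS hk
          have h2 := heM k
          omega) 0 (Nat.zero_le _)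
      have hδ : ∑ k ∈ S, ((M k).card - e k) + E = m := by
        rw [hE, hm, ← Finset.sum_add_distrib]
        refine Finset.sum_congr rfl fun k _ => ?_
        have := heM k
        omega
      set P : ℝ := ∏ k ∈ S, th (A \ S) (Dn G S) e k with hP
      have hPle : P ≤ (1 + s / E) ^ E := by
        have h1 := prod_le S e (fun u => 1 / al G A (S.erase u))
          (fun u _ => div_nonneg zero_le_one (al_nonneg _ _)) hE1
        have h2 : ∑ u ∈ S, (e u : ℝ) * (1 / al G A (S.erase u)) = s := by
          rw [hs]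
          refine Finset.sum_congr rfl fun u _ => ?_
          rw [mul_one_div]
        rw [h2, ← hE] at h1
        refine le_trans (le_of_eq ?_) h1
        rw [hP]
        refine Finset.prod_congr rfl fun u hu => ?_
        unfold th
        rw [hal u hu, hc0']
        push_cast
        rw [mul_one_div]
        congr 2
        ring
      have e6 : ∑ k ∈ S, ((M k).card - e k) + o = 2 * (q - 1) + 1 - E := by omega
      rw [hcard, ← hgw, ← ho, e6] at hmain2
      have e7 : bq (q - 1) 0 (2 * (q - 1) + 1 - E) = 1 := by simp [bq]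
      rw [e7, mul_one, e3] at hmain2
      have hF2 : (q : ℝ) ^ (r - 1) * gw (al G A) (r + 1) S * L ^ (E - 1) ≤ H ^ (E - 1) * P := by
        have hP0 : 0 ≤ P := by
          rw [hP]
          exact Finset.prod_nonneg fun k _ => (th_pos _ _ _ _).le
        have h2 : (q : ℝ) ^ (r - 1) * gw (al G A) (r + 1) S * L ^ (E - 1) * (q * q) ≤
            H ^ (E - 1) * P * (q * q) := by
          calc (q : ℝ) ^ (r - 1) * gw (al G A) (r + 1) S * L ^ (E - 1) * (q * q)
              = (q : ℝ) ^ (r - 1) * (q * q) * gw (al G A) (r + 1) S * L ^ (E - 1) := by ring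
            _ ≤ L ^ (2 * (q - 1) + 1 - E) * H ^ o * P * L ^ (E - 1) :=
                mul_le_mul_of_nonneg_right hmain2 (by positivity)
            _ = (L ^ (2 * (q - 1) + 1 - E) * L ^ (E - 1)) * H ^ o * P := by ring
            _ = (q : ℝ) * q * H ^ o * P := by
                rw [← pow_add]
                have : 2 * (q - 1) + 1 - E + (E - 1) = 2 * (q - 1) + 0 := by omega
                rw [this, hLsplit, pow_zero, mul_one]
            _ ≤ (q : ℝ) * q * H ^ (E - 1) * P := by
                refine mul_le_mul_of_nonneg_right ?_ hP0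
                exact mul_le_mul_of_nonneg_left hHo (by positivity)
            _ = _ := by ring
        exact le_of_mul_le_mul_right h2 hqq
      exact fin0 hsum0 hL hL1 hH hE1 (starIneq hq hL hH hLq hHq hE1 hEq) hPle hF1 hF2
    · -- c = 1
      have hmain := gw_le (K := S) (I := A \ S) (D := Dn G S) (δ := fun k => (M k).card)
        (e := fun _ => 0) hq hL hH hLq hHq (fun v _ => Dn_subset)
        (fun k hk => by rw [add_zero]; exact h.slot hS hk) 1 (by rw [hempty]; omega)
      have hth : ∏ k ∈ S, th (A \ S) (Dn G S) (fun _ => 0) k = 1 := by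
        refine Finset.prod_eq_one fun k _ => ?_
        unfold th
        simp
      have e4 : m + o = 2 * (q - 1) + 2 := by omega
      rw [hth, mul_one, hcard, ← hgw, ← hm, ← ho, e4, hLsplit] at hmain
      have hN : ((q - 1 : ℕ) : ℝ) = q - 1 := by
        rw [Nat.cast_sub (by omega)]; simp
      have e5 : bq (q - 1) 1 (2 * (q - 1) + 2) = ((q : ℝ) - 1) / (3 * q - 1) := by
        simp only [bq, Finset.prod_range_one]
        push_cast
        rw [hN]
        congr 1 <;> ring
      rw [e5, e3] at hmain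
      have hoE : o ≤ E := by omega
      have hHo : H ^ o ≤ H ^ E := pow_le_pow_right₀ hH1 hoE
      have hX0 : 0 ≤ ((q : ℝ) - 1) / (3 * q - 1) := by
        apply div_nonneg <;> linarith
      have hF : (q : ℝ) ^ (r - 1) * gw (al G A) (r + 1) S ≤ H ^ E := by
        have h2 : (q : ℝ) ^ (r - 1) * gw (al G A) (r + 1) S * (q * q) ≤ H ^ E * (q * q) := by
          calc (q : ℝ) ^ (r - 1) * gw (al G A) (r + 1) S * (q * q)
              = (q : ℝ) ^ (r - 1) * (q * q) * gw (al G A) (r + 1) S := by ring
            _ ≤ (q : ℝ) * q * L ^ 2 * H ^ o * (((q : ℝ) - 1) / (3 * q - 1)) := hmain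
            _ = (q : ℝ) * q * H ^ o * (L ^ 2 * (((q : ℝ) - 1) / (3 * q - 1))) := by ring
            _ ≤ (q : ℝ) * q * H ^ o * 1 :=
                mul_le_mul_of_nonneg_left (num1 hq hL hLq) (by positivity)
            _ = (q : ℝ) * q * H ^ o := mul_one _
            _ ≤ (q : ℝ) * q * H ^ E := mul_le_mul_of_nonneg_left hHo (by positivity)
            _ = _ := by ring
        exact le_of_mul_le_mul_right h2 hqq
      refine hF.trans ((H_pow_le' hq hH hHq hEq).trans ?_)
      refine add_le_add_right ?_ _
      have h5 : (E : ℝ) / q = ∑ u ∈ S, (e u : ℝ) / q := by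
        rw [hE, ← Finset.sum_div]
        push_cast
        rfl
      rw [h5]
      refine Finset.sum_le_sum fun u hu => ?_
      rcases Nat.eq_zero_or_pos (e u) with h6 | h6
      · have h7 : (bcol B M (S.erase u)) = 0 := h6
        rw [h6, h7]; simp
      · have h7 : al G A (S.erase u) ≤ q := by
          rw [hal u hu]
          have h8 : ((A \ S).filter (fun v => Dn G S v = {u})).card ≤
              ((A \ S).filter (fun v => u ∈ Dn G S v)).card := by
            refine Finset.card_le_card fun v hv => ?_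
            rw [Finset.mem_filter] at hv ⊢
            exact ⟨hv.1, by rw [hv.2]; exact Finset.mem_singleton_self _⟩
          have h9 := h.slot hS hu
          have h10 := heM u
          have h11 : 1 + c + ((A \ S).filter (fun v => Dn G S v = {u})).card ≤ q := by omega
          exact_mod_cast h11
        have h8 : 0 < al G A (S.erase u) := by
          rw [hal u hu]; positivity
        exact div_le_div_of_nonneg_left (Nat.cast_nonneg _) h8 h7
    · -- c ≥ 2
      have hmain := transf (K := S) (I := A \ S) hq hL hH hLq hHq 2 (c - 2) (Dn G S)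
        (fun k => (M k).card) (fun v _ => Dn_subset) (fun k hk => h.slot hS hk)
        (by rw [hempty]; omega) (by omega)
      have e4 : m + o - (c - 2) = 2 * (q - 1) + 3 := by omega
      rw [hcard, ← hgw, ← hm, ← ho, e4, hLsplit] at hmain
      have hN : ((q - 1 : ℕ) : ℝ) = q - 1 := by
        rw [Nat.cast_sub (by omega)]; simp
      have e5 : bq (q - 1) 2 (2 * (q - 1) + 3) = 2 * ((q : ℝ) - 1) ^ 2 / (3 * q * (4 * q - 1)) := by
        simp only [bq, Finset.prod_range_succ, Finset.prod_range_zero, one_mul]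
        push_cast
        rw [hN, div_mul_div_comm]
        congr 1 <;> ring
      rw [e5, e3] at hmain
      have hoE : o - (c - 2) ≤ q + 1 := by omega
      have hHo : H ^ (o - (c - 2)) ≤ H ^ (q + 1) := pow_le_pow_right₀ hH1 hoE
      have hX0 : 0 ≤ 2 * ((q : ℝ) - 1) ^ 2 / (3 * q * (4 * q - 1)) := by
        have : 0 < 4 * (q : ℝ) - 1 := by linarith
        positivity
      have hF : (q : ℝ) ^ (r - 1) * gw (al G A) (r + 1) S ≤ 1 := by
        have h2 : (q : ℝ) ^ (r - 1) * gw (al G A) (r + 1) S * (q * q) ≤ 1 * (q * q) := by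
          calc (q : ℝ) ^ (r - 1) * gw (al G A) (r + 1) S * (q * q)
              = (q : ℝ) ^ (r - 1) * (q * q) * gw (al G A) (r + 1) S := by ring
            _ ≤ (q : ℝ) * q * L ^ 3 * H ^ (o - (c - 2)) *
                  (2 * ((q : ℝ) - 1) ^ 2 / (3 * q * (4 * q - 1))) := hmain
            _ ≤ (q : ℝ) * q * L ^ 3 * H ^ (q + 1) *
                  (2 * ((q : ℝ) - 1) ^ 2 / (3 * q * (4 * q - 1))) := by
                refine mul_le_mul_of_nonneg_right ?_ hX0
                exact mul_le_mul_of_nonneg_left hHo (by positivity)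
            _ = (q : ℝ) * q * (L ^ 3 * H ^ (q + 1) *
                  (2 * ((q : ℝ) - 1) ^ 2 / (3 * q * (4 * q - 1)))) := by ring
            _ ≤ (q : ℝ) * q * 1 :=
                mul_le_mul_of_nonneg_left (num2 hq hL hH hLq hHq) (by positivity)
            _ = _ := by ring
        exact le_of_mul_le_mul_right h2 hqq
      linarith

/-- The main inequality. -/
theorem Setting.main (h : Setting G A B M q r) :
    q ^ (r - 1) ≤ (K G A (r + 1)).card + ∑ Y ∈ K G A r, bcol B M Y := by
  have hq := h.hq
  have hr := h.hr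
  have hpos : ∀ n < r, ∀ T ∈ K G A n, 0 < al G A T := by
    intro n hn T hT
    have h1 := card_le_cnb (G := G) A T
    have h2 : ∑ t ∈ T, (cn G A t).card ≤ n * q := by
      rw [← (mem_K.1 hT).2.1, ← smul_eq_mul, ← Finset.sum_const]
      refine Finset.sum_le_sum fun t ht => ?_
      have := h.hdeg t ((mem_K.1 hT).1 ht)
      omega
    have h3 : n * q ≤ (r - 1) * q := Nat.mul_le_mul_right _ (by omega)
    have h4 := h.hA
    unfold al
    have : 0 < (cnb G A T).card := by omega
    exact_mod_cast this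
  have hsum := gw_sum (A := A) r hpos
  have key : (q : ℝ) ^ (r - 1) ≤ (K G A (r + 1)).card + ∑ Y ∈ K G A r, (bcol B M Y : ℝ) := by
    have e1 : (q : ℝ) ^ (r - 1) = ∑ Y ∈ K G A r, (q : ℝ) ^ (r - 1) * gw (al G A) r Y := by
      rw [← Finset.mul_sum, hsum, mul_one]
    rw [e1, sum_K_split A r (fun Y => (q : ℝ) ^ (r - 1) * gw (al G A) r Y),
      sum_K_split A r (fun Y => (bcol B M Y : ℝ))]
    have h1 : ∑ T ∈ (K G A r).filter (fun T => cnb G A T = ∅),
        (q : ℝ) ^ (r - 1) * gw (al G A) r T ≤
        ∑ T ∈ (K G A r).filter (fun T => cnb G A T = ∅), (bcol B M T : ℝ) := by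
      refine Finset.sum_le_sum fun T hT => ?_
      rw [Finset.mem_filter] at hT
      exact h.local23 hT.1 (Or.inl (by rw [hT.2]; rfl))
    have h2 : ∑ S ∈ K G A (r + 1), ∑ u ∈ S,
        (q : ℝ) ^ (r - 1) * gw (al G A) r (S.erase u) / al G A (S.erase u) ≤
        ∑ S ∈ K G A (r + 1), (1 + ∑ u ∈ S, (bcol B M (S.erase u) : ℝ) / al G A (S.erase u)) := by
      refine Finset.sum_le_sum fun S hS => ?_
      refine le_trans (le_of_eq ?_) (h.local1 hS)
      rw [gw, Finset.mul_sum]
      refine Finset.sum_congr rfl fun u _ => ?_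
      rw [mul_div_assoc]
    rw [Finset.sum_add_distrib] at h2
    have h3 : ∑ S ∈ K G A (r + 1), (1 : ℝ) = (K G A (r + 1)).card := by simp
    rw [h3] at h2
    linarith
  exact_mod_cast key

end

/-- The core case: `q ^ (r - 1)` cliques of size `r + 1` for the profile `(q, …, q)`. -/
theorem core (G : SimpleGraph V) (U : Finset V) (q r : ℕ) (hr : 1 ≤ r)
    (hC : C G U 0 (List.replicate r q)) : q ^ (r - 1) ≤ (K G U (r + 1)).card := by
  classical
  rcases Nat.lt_or_ge q 2 with hq | hq
  · -- small q
    have h1 := greedy _ _ hC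
    rw [List.length_replicate] at h1
    have h2 : 1 ≤ (K G U (r + 1)).card := Finset.card_pos.2 h1
    refine le_trans ?_ h2
    calc q ^ (r - 1) ≤ 1 ^ (r - 1) := Nat.pow_le_pow_left (by omega) _
      _ = 1 := one_pow _
  -- sizes
  have hW : ∀ (r a : ℕ), C G U a (List.replicate (r + 1) q) →
      a + r * q + 1 ≤ (W G U q).card ∧ a + (r + 1) * q + 1 ≤ U.card := by
    intro r
    induction r with
    | zero =>
      intro a ha
      simp only [List.replicate, C] at ha
      constructor <;> nlinarith [ha.1, ha.2]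
    | succ r ih =>
      intro a ha
      rw [List.replicate_succ] at ha
      simp only [C] at ha
      have := ih (a + q) ha.2
      constructor <;> nlinarith [this.1, this.2]
  obtain ⟨r, rfl⟩ : ∃ r', r = r' + 1 := ⟨r - 1, by omega⟩
  obtain ⟨h1, h2⟩ := hW r 0 hC
  rw [zero_add] at h1 h2
  obtain ⟨A, hAW, hA⟩ := Finset.exists_subset_card_eq h1
  have hWU : W G U q ⊆ U := fun v hv => (mem_W.1 hv).1
  obtain ⟨U', hAU', hU'U, hU'⟩ := Finset.exists_subsuperset_card_eq (hAW.trans hWU)
    (show A.card ≤ (r + 1) * q + 1 by rw [hA]; nlinarith) h2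
  set B := U' \ A with hB
  have hBcard : B.card = q := by
    have := Finset.card_sdiff_add_card_eq_card hAU'
    rw [← hB, hA, hU'] at this
    have h3 : (r + 1) * q = r * q + q := by ring
    omega
  have hdis : Disjoint A B := by
    rw [hB]; exact Finset.disjoint_sdiff
  have hle : ∀ a ∈ A, (cn G A a).card + (cn G B a).card ≤ q := by
    intro a ha
    have h3 : cn G A a ∪ cn G B a ⊆ cn G U a := by
      intro x hx
      rcases Finset.mem_union.1 hx with hx | hx
      · rw [mem_cn] at hx ⊢
        exact ⟨hU'U (hAU' hx.1), hx.2⟩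
      · rw [mem_cn] at hx ⊢
        exact ⟨hU'U (Finset.mem_sdiff.1 hx.1).1, hx.2⟩
    have h4 : Disjoint (cn G A a) (cn G B a) := by
      refine hdis.mono ?_ ?_
      · intro x hx; exact (mem_cn.1 hx).1
      · intro x hx; exact (mem_cn.1 hx).1
    rw [← Finset.card_union_of_disjoint h4]
    exact (Finset.card_le_card h3).trans (mem_W.1 (hAW ha)).2
  have hcnpos : ∀ a ∈ A, 1 ≤ (cn G A a).card := by
    intro a ha
    exact Finset.card_pos.2 ⟨a, mem_cn.2 ⟨ha, G.loopless.irrefl a⟩⟩
  have hex : ∀ a : V, ∃ Ma : Finset V, a ∈ A → cn G B a ⊆ Ma ∧ Ma ⊆ B ∧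
      (cn G A a).card + Ma.card = q := by
    intro a
    by_cases ha : a ∈ A
    · have h3 := hle a ha
      have h4 := hcnpos a ha
      obtain ⟨Ma, h5, h6, h7⟩ := Finset.exists_subsuperset_card_eq
        (s := cn G B a) (t := B) (n := q - (cn G A a).card)
        (fun x hx => (mem_cn.1 hx).1) (by omega) (by omega)
      exact ⟨Ma, fun _ => ⟨h5, h6, by omega⟩⟩
    · exact ⟨∅, fun h => absurd h ha⟩
  choose M hM using hex
  have hset : Setting G A B M q (r + 1) :=
    { hq := hq
      hr := by omega
      hA := by rw [hA, Nat.add_sub_cancel]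
      hB := hBcard
      hM := fun a ha => (hM a ha).2.1
      hdeg := fun a ha => (hM a ha).2.2 }
  refine hset.main.trans ?_
  -- injection
  have hsub : (K G A (r + 1 + 1)).card + ∑ Y ∈ K G A (r + 1), bcol B M Y ≤
      (K G U (r + 1 + 1)).card := by
    set X := (K G A (r + 1)).sigma (fun Y => B.filter (fun y => ∀ a ∈ Y, y ∉ M a)) with hX
    have hXcard : X.card = ∑ Y ∈ K G A (r + 1), bcol B M Y := by
      rw [hX, Finset.card_sigma]
      refine Finset.sum_congr rfl fun Y _ => ?_
      unfold bcol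
      congr
    have hinj : Set.InjOn (fun x : (_ : Finset V) × V => insert x.2 x.1) (X : Set _) := by
      rintro ⟨Y, y⟩ hx ⟨Y', y'⟩ hx' heq
      rw [hX, Finset.mem_coe, Finset.mem_sigma, Finset.mem_filter] at hx hx'
      simp only at hx hx' heq
      have hyA : y ∉ A := fun h => Finset.disjoint_left.1 hdis h hx.2.1
      have hyA' : y' ∉ A := fun h => Finset.disjoint_left.1 hdis h hx'.2.1
      have hYA := (mem_K.1 hx.1).1
      have hYA' := (mem_K.1 hx'.1).1
      have hyy : y = y' := by
        have h3 : y ∈ insert y' Y' := by rw [← heq]; exact Finset.mem_insert_self _ _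
        rcases Finset.mem_insert.1 h3 with h4 | h4
        · exact h4
        · exact absurd (hYA' h4) hyA
      subst hyy
      have hYY : Y = Y' := by
        have h3 : (insert y Y).erase y = (insert y Y').erase y := by rw [heq]
        rwa [Finset.erase_insert (fun h => hyA (hYA h)),
          Finset.erase_insert (fun h => hyA (hYA' h))] at h3
      subst hYY
      rfl
    rw [← hXcard, ← Finset.card_image_of_injOn hinj, ← Finset.card_union_of_disjoint]
    · refine Finset.card_le_card fun s hs => ?_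
      rcases Finset.mem_union.1 hs with hs | hs
      · exact K_mono (hAU'.trans hU'U) _ hs
      · obtain ⟨⟨Y, y⟩, hx, rfl⟩ := Finset.mem_image.1 hs
        rw [hX, Finset.mem_sigma, Finset.mem_filter] at hx
        simp only at hx ⊢
        have hYK := mem_K.1 hx.1
        have hyA : y ∉ A := fun h => Finset.disjoint_left.1 hdis h hx.2.1
        have hyU : y ∈ U := hU'U (Finset.mem_sdiff.1 hx.2.1).1
        rw [mem_K]
        refine ⟨Finset.insert_subset hyU (hYK.1.trans (hAU'.trans hU'U)), ?_, ?_⟩
        · rw [Finset.card_insert_of_notMem (fun h => hyA (hYK.1 h)), hYK.2.1]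
        · rw [Finset.coe_insert, SimpleGraph.isClique_insert]
          refine ⟨hYK.2.2, fun b hb _ => ?_⟩
          have hb' : b ∈ Y := by exact_mod_cast hb
          have hbA := hYK.1 hb'
          by_contra hcon
          refine hx.2.2 b hb' ((hM b hbA).1 (mem_cn.2 ⟨hx.2.1, ?_⟩))
          exact fun h' => hcon h'.symm
    · rw [Finset.disjoint_left]
      intro s hs hs'
      obtain ⟨⟨Y, y⟩, hx, rfl⟩ := Finset.mem_image.1 hs'
      rw [hX, Finset.mem_sigma, Finset.mem_filter] at hx
      simp only at hx hs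
      have h3 := (mem_K.1 hs).1 (Finset.mem_insert_self y Y)
      exact Finset.disjoint_left.1 hdis h3 hx.2.1
  exact hsub

end Pool.Agent.MP76b19e
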