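import Pool.Agent.Lib.MP76b19e.CoreQ

/-! The profile `(q, …, q, P)` with `q < P` (MP_76b19e_co). -/

open Finset

noncomputable section

namespace Pool.Agent.MP76b19e

variable {V : Type*} [DecidableEq V] {G : SimpleGraph V} {β : Type*}

/-- with excess `a` there are `a + 1` cliques -/
lemma excess' (ps : List ℕ) : ∀ (a : ℕ) (U : Finset V), C G U a ps →
    a + 1 ≤ (K G U (ps.length + 1)).card := by
  intro a
  induction a with
  | zero =>
    intro U h
    exact Finset.card_pos.2 (greedy ps U h)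
  | succ a ih =>
    intro U h
    obtain ⟨s, hs⟩ := greedy ps U (C_le ps (a + 1) 0 (by omega) h)
    have hs' := mem_K.1 hs
    obtain ⟨v, hv⟩ : s.Nonempty := Finset.card_pos.1 (by omega)
    have hvU : v ∈ U := hs'.1 hv
    have h2 : C G (U.erase v) a ps := by
      refine C_sub (c := 1) (Finset.erase_subset _ _) ?_ ps a h
      rw [Finset.card_erase_of_mem hvU]
      omega
    have h3 := ih (U.erase v) h2
    have h4 : s ∉ K G (U.erase v) (ps.length + 1) := by
      intro h
      have := (mem_K.1 h).1 hv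
      simp at this
    have h5 : insert s (K G (U.erase v) (ps.length + 1)) ⊆ K G U (ps.length + 1) := by
      intro x hx
      rcases Finset.mem_insert.1 hx with rfl | hx
      · exact hs
      · exact K_mono (Finset.erase_subset _ _) _ hx
    have h6 := Finset.card_le_card h5
    rw [Finset.card_insert_of_notMem h4] at h6
    omega

/-- the setting for the profile `(q, …, q, P)` -/
structure Setting2 (G : SimpleGraph V) (A : Finset V) (B : Finset β) (M : V → Finset β)
    (q r : ℕ) (E : Finset V → ℕ) : Prop where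
  hq : 2 ≤ q
  hr : 1 ≤ r
  hA : A.card = (r - 1) * q + 1
  hB : 2 * q + 1 ≤ B.card
  hM : ∀ a ∈ A, M a ⊆ B
  hdeg : ∀ a ∈ A, (cn G A a).card + (M a).card = q
  hE : ∀ Y ∈ K G A r, cnb G A Y = ∅ → 1 + ovl (A \ Y) (Dn G Y) ≤ E Y

section
variable {A : Finset V} {B : Finset β} {M : V → Finset β} {q r : ℕ} {E : Finset V → ℕ}

lemma Setting2.slot (h : Setting2 G A B M q r E) {S : Finset V} {m : ℕ} (hS : S ∈ K G A m) {k : V}
    (hk : k ∈ S) :
    ((A \ S).filter (fun v => k ∈ Dn G S v)).card + (M k).card = q - 1 := by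
  have h1 := card_slot hS hk
  have h2 := h.hdeg k ((mem_K.1 hS).1 hk)
  have h3 := h.hq
  omega

/-- total waste of a clique of size `r + j` -/
lemma Setting2.total (h : Setting2 G A B M q r E) {S : Finset V} {j : ℕ}
    (hS : S ∈ K G A (r + j)) :
    ∑ k ∈ S, (M k).card + ovl (A \ S) (Dn G S) + 1 =
      (j + 1) * q + (cnb G A S).card := by
  have h1 := slot_sum hS
  have h2 : ∑ k ∈ S, ((A \ S).filter (fun v => k ∈ Dn G S v)).card + ∑ k ∈ S, (M k).card =
      (r + j) * (q - 1) := by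
    rw [← Finset.sum_add_distrib, Finset.sum_congr rfl (fun k hk => h.slot hS hk),
      Finset.sum_const, smul_eq_mul, (mem_K.1 hS).2.1]
  rw [card_cnb_self hS]
  have h3 := (mem_K.1 hS).2.1
  have h5 := h.hA
  obtain ⟨t, ht⟩ : ∃ t, r = t + 1 := ⟨r - 1, by have := h.hr; omega⟩
  obtain ⟨p, hp⟩ : ∃ p, q = p + 1 := ⟨q - 1, by have := h.hq; omega⟩
  subst ht hp
  rw [Nat.add_sub_cancel] at h2 h5
  have e1 : (t + 1 + j) * p = t * p + p + j * p := by ring
  have e2 : (j + 1) * (p + 1) = j * p + p + j + 1 := by ring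
  have e3 : t * (p + 1) = t * p + t := by ring
  rw [e1] at h2
  rw [e3] at h5
  rw [e2]
  omega

/-- (1) -/
theorem Setting2.local1 (h : Setting2 G A B M q r E) {Y : Finset V} (hY : Y ∈ K G A r)
    (hb : cnb G A Y = ∅) : (q : ℝ) ^ (r - 1) * gw (al G A) r Y ≤ E Y := by
  have hq := h.hq
  have hr := h.hr
  have hq0 : (0 : ℝ) < q := by
    have : 0 < q := by omega
    exact_mod_cast this
  obtain ⟨L, hL, hLq⟩ := exists_root (show 1 ≤ q - 1 by omega) hq0
  obtain ⟨H, hH, hHq⟩ := exists_root (show 1 ≤ q - 1 by omega)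
    (show (0 : ℝ) < 2 * q / (q + 1) by positivity)
  have hcard := (mem_K.1 hY).2.1
  have hgw := gw_al_eq hY
  rw [hcard] at hgw
  have ht := h.total (j := 0) hY
  rw [hb, Finset.card_empty] at ht
  have hE := h.hE Y hY hb
  set o := ovl (A \ Y) (Dn G Y) with ho
  set m := ∑ k ∈ Y, (M k).card with hm
  have hmain := transf (K := Y) (I := A \ Y) hq hL hH hLq hHq 0 0 (Dn G Y) (fun k => (M k).card)
    (fun v _ => Dn_subset) (fun k hk => h.slot hY hk)
    (by rw [← card_cnb_self hY, hb]; simp) (Nat.zero_le _)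
  rw [hcard, ← hgw] at hmain
  have e1 : m + o - 0 = q - 1 := by omega
  rw [← hm, ← ho, e1, hLq, Nat.sub_zero] at hmain
  have e2 : bq (q - 1) 0 (q - 1) = 1 := by simp [bq]
  rw [e2, mul_one] at hmain
  have e3 : (q : ℝ) ^ r = (q : ℝ) ^ (r - 1) * q := by
    rw [← pow_succ]; congr 1; omega
  rw [e3] at hmain
  have h1 : (q : ℝ) ^ (r - 1) * gw (al G A) r Y ≤ H ^ o := by
    have h2 : (q : ℝ) ^ (r - 1) * gw (al G A) r Y * q ≤ H ^ o * q := by
      calc (q : ℝ) ^ (r - 1) * gw (al G A) r Y * q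
          = (q : ℝ) ^ (r - 1) * q * gw (al G A) r Y := by ring
        _ ≤ (q : ℝ) * H ^ o := hmain
        _ = _ := by ring
    exact le_of_mul_le_mul_right h2 hq0
  refine h1.trans ((H_lin hq hH hHq (by omega)).trans ?_)
  exact_mod_cast hE

/-- (2) -/
theorem Setting2.local2 (h : Setting2 G A B M q r E) {S : Finset V} (hS : S ∈ K G A (r + 1))
    (hb : cnb G A S = ∅) : (q : ℝ) ^ (r - 1) * gw (al G A) (r + 1) S ≤ bcol B M S := by
  have hq := h.hq
  have hr := h.hr
  have hq0 : (0 : ℝ) < q := by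
    have : 0 < q := by omega
    exact_mod_cast this
  obtain ⟨L, hL, hLq⟩ := exists_root (show 1 ≤ q - 1 by omega) hq0
  obtain ⟨H, hH, hHq⟩ := exists_root (show 1 ≤ q - 1 by omega)
    (show (0 : ℝ) < 2 * q / (q + 1) by positivity)
  have hcard := (mem_K.1 hS).2.1
  have hgw := gw_al_eq hS
  rw [hcard] at hgw
  have ht := h.total (j := 1) hS
  rw [hb, Finset.card_empty] at ht
  have hbb := le_bcol B M S
  have hB := h.hB
  set o := ovl (A \ S) (Dn G S) with ho
  set m := ∑ k ∈ S, (M k).card with hm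
  have hmain := transf (K := S) (I := A \ S) hq hL hH hLq hHq 0 0 (Dn G S) (fun k => (M k).card)
    (fun v _ => Dn_subset) (fun k hk => h.slot hS hk)
    (by rw [← card_cnb_self hS, hb]; simp) (Nat.zero_le _)
  rw [hcard, ← hgw] at hmain
  have e1 : m + o - 0 = 2 * (q - 1) + 1 := by omega
  have hLs : L ^ (2 * (q - 1) + 1) = (q : ℝ) ^ 2 * L := by
    rw [pow_add, mul_comm 2, pow_mul, hLq, pow_one]
  rw [← hm, ← ho, e1, Nat.sub_zero, hLs] at hmain
  have e2 : bq (q - 1) 0 (2 * (q - 1) + 1) = 1 := by simp [bq]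
  rw [e2, mul_one] at hmain
  have e3 : (q : ℝ) ^ (r + 1) = (q : ℝ) ^ (r - 1) * (q * q) := by
    have : r + 1 = (r - 1) + 2 := by omega
    rw [this, pow_add]; ring
  rw [e3] at hmain
  have h1 : (q : ℝ) ^ (r - 1) * gw (al G A) (r + 1) S ≤ L * H ^ o := by
    have h2 : (q : ℝ) ^ (r - 1) * gw (al G A) (r + 1) S * (q * q) ≤ L * H ^ o * (q * q) := by
      calc (q : ℝ) ^ (r - 1) * gw (al G A) (r + 1) S * (q * q)
          = (q : ℝ) ^ (r - 1) * (q * q) * gw (al G A) (r + 1) S := by ring
        _ ≤ (q : ℝ) ^ 2 * L * H ^ o := hmain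
        _ = _ := by ring
    exact le_of_mul_le_mul_right h2 (by positivity)
  refine h1.trans ((LH_lin hq hH hLq hHq (by omega)).trans ?_)
  have h2 : 2 + o ≤ bcol B M S := by omega
  exact_mod_cast h2

/-- (2') -/
theorem Setting2.local2' (h : Setting2 G A B M q r E) {S : Finset V} (hS : S ∈ K G A (r + 1))
    (hc : 1 ≤ (cnb G A S).card) (hb : 1 ≤ bcol B M S) :
    (q : ℝ) ^ (r - 1) * gw (al G A) (r + 1) S ≤ bcol B M S := by
  have hq := h.hq
  have hr := h.hr
  have hq0 : (0 : ℝ) < q := by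
    have : 0 < q := by omega
    exact_mod_cast this
  have hq1 : (1 : ℝ) ≤ q := by
    have : 1 ≤ q := by omega
    exact_mod_cast this
  obtain ⟨L, hL, hLq⟩ := exists_root (show 1 ≤ q - 1 by omega) hq0
  obtain ⟨H, hH, hHq⟩ := exists_root (show 1 ≤ q - 1 by omega)
    (show (0 : ℝ) < 2 * q / (q + 1) by positivity)
  have hcard := (mem_K.1 hS).2.1
  have hgw := gw_al_eq hS
  rw [hcard] at hgw
  have ht := h.total (j := 1) hS
  have hbb := le_bcol B M S
  have hB := h.hB
  have hcc := card_cnb_self hS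
  set c := (cnb G A S).card with hcdef
  set o := ovl (A \ S) (Dn G S) with ho
  set m := ∑ k ∈ S, (M k).card with hm
  have hmain := transf (K := S) (I := A \ S) hq hL hH hLq hHq 1 (c - 1) (Dn G S)
    (fun k => (M k).card)
    (fun v _ => Dn_subset) (fun k hk => h.slot hS hk)
    (by rw [← hcc]; omega) (by omega)
  rw [hcard, ← hgw] at hmain
  have e1 : m + o - (c - 1) = 2 * (q - 1) + 2 := by omega
  have hLs : L ^ (2 * (q - 1) + 2) = (q : ℝ) ^ 2 * L ^ 2 := by
    rw [pow_add, mul_comm 2, pow_mul, hLq]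
  rw [← hm, ← ho, e1, hLs] at hmain
  have hN : ((q - 1 : ℕ) : ℝ) = q - 1 := by
    rw [Nat.cast_sub (by omega)]; simp
  have e2 : bq (q - 1) 1 (2 * (q - 1) + 2) = ((q : ℝ) - 1) / (3 * q - 1) := by
    simp only [bq, Finset.prod_range_one]
    push_cast
    rw [hN]
    congr 1 <;> ring
  have e3 : (q : ℝ) ^ (r + 1) = (q : ℝ) ^ (r - 1) * (q * q) := by
    have : r + 1 = (r - 1) + 2 := by omega
    rw [this, pow_add]; ring
  rw [e2, e3] at hmain
  set j := o - (c - 1) with hj
  have h1 : (q : ℝ) ^ (r - 1) * gw (al G A) (r + 1) S ≤ H ^ j := by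
    have h2 : (q : ℝ) ^ (r - 1) * gw (al G A) (r + 1) S * (q * q) ≤ H ^ j * (q * q) := by
      calc (q : ℝ) ^ (r - 1) * gw (al G A) (r + 1) S * (q * q)
          = (q : ℝ) ^ (r - 1) * (q * q) * gw (al G A) (r + 1) S := by ring
        _ ≤ (q : ℝ) ^ 2 * L ^ 2 * H ^ j * (((q : ℝ) - 1) / (3 * q - 1)) := hmain
        _ = (q : ℝ) ^ 2 * H ^ j * (L ^ 2 * (((q : ℝ) - 1) / (3 * q - 1))) := by ring
        _ ≤ (q : ℝ) ^ 2 * H ^ j * 1 :=
            mul_le_mul_of_nonneg_left (num1 hq hL hLq) (by positivity)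
        _ = _ := by ring
    exact le_of_mul_le_mul_right h2 (by positivity)
  refine h1.trans ((H_lin hq hH hHq (by omega)).trans ?_)
  have h2 : 1 + j ≤ bcol B M S := by omega
  exact_mod_cast h2

/-- (3) -/
theorem Setting2.local3 (h : Setting2 G A B M q r E) {S : Finset V} (hS : S ∈ K G A (r + 2)) :
    (q : ℝ) ^ (r - 1) * gw (al G A) (r + 2) S ≤
      1 + ∑ u ∈ S, (bcol B M (S.erase u) : ℝ) / al G A (S.erase u) := by
  have hq := h.hq
  have hr := h.hr
  have hq2 : (2 : ℝ) ≤ q := by exact_mod_cast hq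
  have hq0 : (0 : ℝ) < q := by linarith
  have hq1 : (0 : ℝ) < (q : ℝ) - 1 := by linarith
  by_cases hb0 : 1 ≤ bcol B M S
  · have h1 : (q : ℝ) ^ (r - 1) * gw (al G A) (r + 2) S =
        ∑ u ∈ S, ((q : ℝ) ^ (r - 1) * gw (al G A) (r + 1) (S.erase u)) / al G A (S.erase u) := by
      rw [gw, Finset.mul_sum]
      refine Finset.sum_congr rfl fun u _ => ?_
      rw [mul_div_assoc]
    rw [h1]
    have h2 : ∑ u ∈ S, ((q : ℝ) ^ (r - 1) * gw (al G A) (r + 1) (S.erase u)) /
        al G A (S.erase u) ≤ ∑ u ∈ S, (bcol B M (S.erase u) : ℝ) / al G A (S.erase u) := by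
      refine Finset.sum_le_sum fun u hu => ?_
      refine div_le_div_of_nonneg_right ?_ (al_nonneg _ _)
      refine h.local2' (erase_mem_K hS hu) ?_ ?_
      · rw [card_cnb_erase hS hu]; omega
      · exact hb0.trans (bcol_anti (Finset.erase_subset _ _))
    linarith
  · have hb0' : bcol B M S = 0 := by omega
    obtain ⟨L, hL, hLq⟩ := exists_root (show 1 ≤ q - 1 by omega) hq0
    obtain ⟨H, hH, hHq⟩ := exists_root (show 1 ≤ q - 1 by omega)
      (show (0 : ℝ) < 2 * q / (q + 1) by positivity)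
    have hH1 := H_ge_one hq hH hHq
    have hSK := mem_K.1 hS
    have hcard := hSK.2.1
    have hgw := gw_al_eq hS
    rw [hcard] at hgw
    have ht := h.total (j := 2) hS
    have hB := h.hB
    have hcc := card_cnb_self hS
    set c := (cnb G A S).card with hc
    set o := ovl (A \ S) (Dn G S) with ho
    set m := ∑ k ∈ S, (M k).card with hm
    set e : V → ℕ := fun u => bcol B M (S.erase u) with he
    set E' := ∑ u ∈ S, e u with hE
    have hEq : E' ≤ B.card := sum_bcol_erase_le hb0'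
    have h2q : 2 * B.card ≤ m + E' := two_le_sum hb0' (fun u hu => h.hM u (hSK.1 hu))
    have heM : ∀ u, e u ≤ (M u).card := fun u => bcol_erase_le hb0'
    have hal : ∀ u ∈ S, al G A (S.erase u) =
        1 + c + (((A \ S).filter (fun v => Dn G S v = {u})).card : ℝ) := by
      intro u hu
      unfold al
      rw [card_cnb_erase hS hu, ← hcc]
      push_cast
      ring
    have hmu : ∀ u ∈ S, ((A \ S).filter (fun v => Dn G S v = {u})).card + e u ≤ q - 1 := by
      intro u hu
      have h8 : ((A \ S).filter (fun v => Dn G S v = {u})).card ≤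
          ((A \ S).filter (fun v => u ∈ Dn G S v)).card := by
        refine Finset.card_le_card fun v hv => ?_
        rw [Finset.mem_filter] at hv ⊢
        exact ⟨hv.1, by rw [hv.2]; exact Finset.mem_singleton_self _⟩
      have h9 := h.slot hS hu
      have h10 := heM u
      omega
    have hsum0 : 0 ≤ ∑ u ∈ S, (bcol B M (S.erase u) : ℝ) / al G A (S.erase u) :=
      Finset.sum_nonneg fun u _ => div_nonneg (Nat.cast_nonneg _) (al_nonneg _ _)
    -- lower bound for the sum
    have hlow : ∀ x : ℝ, 0 < x → (q : ℝ) - 1 + c ≤ x →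
        (E' : ℝ) / x ≤ ∑ u ∈ S, (bcol B M (S.erase u) : ℝ) / al G A (S.erase u) := by
      intro x hx hxq
      have h5 : (E' : ℝ) / x = ∑ u ∈ S, (e u : ℝ) / x := by
        rw [hE, ← Finset.sum_div]
        push_cast
        rfl
      rw [h5]
      refine Finset.sum_le_sum fun u hu => ?_
      rcases Nat.eq_zero_or_pos (e u) with h6 | h6
      · have h7 : (bcol B M (S.erase u)) = 0 := h6
        rw [h6, h7]; simp
      · have h7 : al G A (S.erase u) ≤ x := by
          rw [hal u hu]
          have h10 := hmu u hu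
          have h11 : ((A \ S).filter (fun v => Dn G S v = {u})).card + 2 ≤ q := by omega
          have h12 : (((A \ S).filter (fun v => Dn G S v = {u})).card : ℝ) + 2 ≤ q := by
            exact_mod_cast h11
          linarith
        have h8 : 0 < al G A (S.erase u) := by
          rw [hal u hu]; positivity
        exact div_le_div_of_nonneg_left (Nat.cast_nonneg _) h8 h7
    have e3 : (q : ℝ) ^ (r + 2) = (q : ℝ) ^ (r - 1) * q ^ 3 := by
      have : r + 2 = (r - 1) + 3 := by omega
      rw [this, pow_add]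
    have hN : ((q - 1 : ℕ) : ℝ) = q - 1 := by
      rw [Nat.cast_sub (by omega)]; simp
    have hq3 : (0 : ℝ) < (q : ℝ) ^ 3 := by positivity
    have hLsplit : ∀ a : ℕ, L ^ (3 * (q - 1) + a) = (q : ℝ) ^ 3 * L ^ a := by
      intro a
      rw [pow_add, mul_comm 3, pow_mul, hLq]
    have hth : ∏ k ∈ S, th (A \ S) (Dn G S) (fun _ => 0) k = 1 := by
      refine Finset.prod_eq_one fun k _ => ?_
      unfold th
      simp
    have ho0 : (0 : ℝ) ≤ o := Nat.cast_nonneg _
    rcases Nat.lt_trichotomy c 1 with hc0 | hc1 | hc2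
    · -- c = 0
      have hc0' : c = 0 := by omega
      have hmain := gw_le (K := S) (I := A \ S) (D := Dn G S) (δ := fun k => (M k).card)
        (e := fun _ => 0) hq hL hH hLq hHq (fun v _ => Dn_subset)
        (fun k hk => by rw [add_zero]; exact h.slot hS hk) 0 (Nat.zero_le _)
      have e4 : m + o = 3 * (q - 1) + 2 := by omega
      rw [hth, mul_one, hcard, ← hgw, ← hm, ← ho, e4, hLsplit] at hmain
      have e5 : bq (q - 1) 0 (3 * (q - 1) + 2) = 1 := by simp [bq]
      rw [e5, mul_one, e3] at hmain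
      have ho2 : o + 2 ≤ q := by omega
      have hoR : (o : ℝ) + 2 ≤ q := by exact_mod_cast ho2
      have hEo : q + 3 + o ≤ E' := by omega
      have hEoR : (q : ℝ) + 3 + o ≤ E' := by exact_mod_cast hEo
      have hHo := H_pow_le hq hH hHq (show o ≤ q - 1 by omega)
      have hF : (q : ℝ) ^ (r - 1) * gw (al G A) (r + 2) S ≤ L ^ 2 * H ^ o := by
        have h2 : (q : ℝ) ^ (r - 1) * gw (al G A) (r + 2) S * q ^ 3 ≤
            L ^ 2 * H ^ o * q ^ 3 := by
          calc (q : ℝ) ^ (r - 1) * gw (al G A) (r + 2) S * q ^ 3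
              = (q : ℝ) ^ (r - 1) * q ^ 3 * gw (al G A) (r + 2) S := by ring
            _ ≤ (q : ℝ) ^ 3 * L ^ 2 * H ^ o := hmain
            _ = _ := by ring
        exact le_of_mul_le_mul_right h2 hq3
      have hlow' := hlow (q - 1) hq1 (by rw [hc0']; simp)
      have h5 : ((q : ℝ) + 3 + o) / (q - 1) ≤ (E' : ℝ) / (q - 1) :=
        div_le_div_of_nonneg_right hEoR hq1.le
      have h2q1 : 0 < 2 * (q : ℝ) - 1 := by linarith
      have h6 : L ^ 2 * H ^ o ≤
          3 * q * (q + 1) / ((q - 1) * (2 * q - 1)) * (1 + (o : ℝ) / (q + 1)) :=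
        mul_le_mul (numA hq hL hLq) hHo (by positivity) (by positivity)
      have h7 : 3 * (q : ℝ) * (q + 1) / ((q - 1) * (2 * q - 1)) * (1 + (o : ℝ) / (q + 1)) ≤
          1 + ((q : ℝ) + 3 + o) / (q - 1) := by
        have h8 : 3 * (q : ℝ) * (q + 1) / ((q - 1) * (2 * q - 1)) * (1 + (o : ℝ) / (q + 1)) =
            (3 * q * (q + 1 + o)) / ((q - 1) * (2 * q - 1)) := by
          field_simp
        have h9 : 1 + ((q : ℝ) + 3 + o) / (q - 1) =
            ((2 * q + 2 + o) * (2 * q - 1)) / ((q - 1) * (2 * q - 1)) := by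
          rw [mul_div_mul_right _ _ h2q1.ne', eq_div_iff hq1.ne', add_mul,
            div_mul_cancel₀ _ hq1.ne']
          ring
        rw [h8, h9]
        refine div_le_div_of_nonneg_right ?_ (by positivity)
        nlinarith [mul_nonneg (sub_nonneg.2 hoR) (show (0 : ℝ) ≤ q + 1 by linarith)]
      linarith
    · -- c = 1
      have hmain := gw_le (K := S) (I := A \ S) (D := Dn G S) (δ := fun k => (M k).card)
        (e := fun _ => 0) hq hL hH hLq hHq (fun v _ => Dn_subset)
        (fun k hk => by rw [add_zero]; exact h.slot hS hk) 1 (by rw [← hcc]; omega)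
      have e4 : m + o = 3 * (q - 1) + 3 := by omega
      rw [hth, mul_one, hcard, ← hgw, ← hm, ← ho, e4, hLsplit] at hmain
      have e5 : bq (q - 1) 1 (3 * (q - 1) + 3) = ((q : ℝ) - 1) / (4 * q - 1) := by
        simp only [bq, Finset.prod_range_one]
        push_cast
        rw [hN]
        congr 1 <;> ring
      rw [e5, e3] at hmain
      have ho2 : o + 1 ≤ q := by omega
      have hoR : (o : ℝ) + 1 ≤ q := by exact_mod_cast ho2
      have hEo : q + 2 + o ≤ E' := by omega
      have hEoR : (q : ℝ) + 2 + o ≤ E' := by exact_mod_cast hEo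
      have hHo := H_pow_le hq hH hHq (show o ≤ q - 1 by omega)
      have h4q1 : 0 < 4 * (q : ℝ) - 1 := by linarith
      have hF : (q : ℝ) ^ (r - 1) * gw (al G A) (r + 2) S ≤ 3 / 2 * (1 + (o : ℝ) / (q + 1)) := by
        have h2 : (q : ℝ) ^ (r - 1) * gw (al G A) (r + 2) S * q ^ 3 ≤
            3 / 2 * (1 + (o : ℝ) / (q + 1)) * q ^ 3 := by
          calc (q : ℝ) ^ (r - 1) * gw (al G A) (r + 2) S * q ^ 3
              = (q : ℝ) ^ (r - 1) * q ^ 3 * gw (al G A) (r + 2) S := by ring
            _ ≤ (q : ℝ) ^ 3 * L ^ 3 * H ^ o * (((q : ℝ) - 1) / (4 * q - 1)) := hmain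
            _ = (L ^ 3 * (((q : ℝ) - 1) / (4 * q - 1))) * H ^ o * q ^ 3 := by ring
            _ ≤ 3 / 2 * (1 + (o : ℝ) / (q + 1)) * q ^ 3 := by
                refine mul_le_mul_of_nonneg_right ?_ hq3.le
                exact mul_le_mul (numB hq hL hLq) hHo (by positivity) (by norm_num)
        exact le_of_mul_le_mul_right h2 hq3
      have hlow' := hlow q hq0 (by rw [hc1]; push_cast; linarith)
      have h5 : ((q : ℝ) + 2 + o) / q ≤ (E' : ℝ) / q :=
        div_le_div_of_nonneg_right hEoR hq0.le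
      have h6 : 3 / 2 * (1 + (o : ℝ) / (q + 1)) ≤ 1 + ((q : ℝ) + 2 + o) / q := by
        have h7 : (o : ℝ) / (q + 1) ≤ o / q := by
          apply div_le_div_of_nonneg_left ho0 hq0
          linarith
        have h8 : (o : ℝ) / (q + 1) ≤ 1 := by
          rw [div_le_one (by linarith)]
          linarith
        have h9 : ((q : ℝ) + 2 + o) / q = 1 + 2 / q + o / q := by field_simp
        have h10 : 0 ≤ 2 / (q : ℝ) := by positivity
        rw [h9]
        linarith
      linarith
    · -- c ≥ 2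
      have hmain := transf (K := S) (I := A \ S) hq hL hH hLq hHq 2 (c - 2) (Dn G S)
        (fun k => (M k).card) (fun v _ => Dn_subset) (fun k hk => h.slot hS hk)
        (by rw [← hcc]; omega) (by omega)
      have e4 : m + o - (c - 2) = 3 * (q - 1) + 4 := by omega
      rw [hcard, ← hgw, ← hm, ← ho, e4, hLsplit] at hmain
      have e5 : bq (q - 1) 2 (3 * (q - 1) + 4) =
          (((q : ℝ) - 1) ^ 2 / (q * (5 * q - 1))) / 2 := by
        simp only [bq, Finset.prod_range_succ, Finset.prod_range_zero, one_mul]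
        push_cast
        rw [hN]
        have h5q1 : 0 < 5 * (q : ℝ) - 1 := by linarith
        have e6 : (0 + 1) * ((q : ℝ) - 1) + (3 * ((q : ℝ) - 1) + 4) = 4 * q := by ring
        have e7 : (1 + 1) * ((q : ℝ) - 1) + (3 * ((q : ℝ) - 1) + 4) = 5 * q - 1 := by ring
        have e8 : ((q : ℝ) - 1) + (3 * ((q : ℝ) - 1) + 4) = 4 * q := by ring
        have e9 : 2 * ((q : ℝ) - 1) + (3 * ((q : ℝ) - 1) + 4) = 5 * q - 1 := by ring
        norm_num
        first
          | rw [e8, e9]
            field_simp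
            ring
          | rw [e6, e7]
            field_simp
            ring
      rw [e5, e3] at hmain
      have hoE : o - (c - 2) ≤ q := by omega
      have hHo : H ^ (o - (c - 2)) ≤ 2 := by
        have h1 := pow_le_pow_right₀ hH1 hoE
        have h2 := H_pow_le' hq hH hHq (le_refl q)
        rw [div_self hq0.ne'] at h2
        linarith
      have h5q1 : 0 < 5 * (q : ℝ) - 1 := by linarith
      have hX0 : 0 ≤ ((q : ℝ) - 1) ^ 2 / (q * (5 * q - 1)) := by positivity
      have hF : (q : ℝ) ^ (r - 1) * gw (al G A) (r + 2) S ≤ 1 := by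
        have h2 : (q : ℝ) ^ (r - 1) * gw (al G A) (r + 2) S * q ^ 3 ≤ 1 * q ^ 3 := by
          calc (q : ℝ) ^ (r - 1) * gw (al G A) (r + 2) S * q ^ 3
              = (q : ℝ) ^ (r - 1) * q ^ 3 * gw (al G A) (r + 2) S := by ring
            _ ≤ (q : ℝ) ^ 3 * L ^ 4 * H ^ (o - (c - 2)) *
                  ((((q : ℝ) - 1) ^ 2 / (q * (5 * q - 1))) / 2) := hmain
            _ ≤ (q : ℝ) ^ 3 * L ^ 4 * 2 * ((((q : ℝ) - 1) ^ 2 / (q * (5 * q - 1))) / 2) := by
                refine mul_le_mul_of_nonneg_right ?_ (by positivity)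
                exact mul_le_mul_of_nonneg_left hHo (by positivity)
            _ = q ^ 3 * (L ^ 4 * (((q : ℝ) - 1) ^ 2 / (q * (5 * q - 1)))) := by ring
            _ ≤ q ^ 3 * 1 :=
                mul_le_mul_of_nonneg_left (numC hq hL hLq) (by positivity)
            _ = _ := by ring
        exact le_of_mul_le_mul_right h2 hq3
      linarith

/-- The main inequality. -/
theorem Setting2.main (h : Setting2 G A B M q r E) :
    q ^ (r - 1) ≤ (K G A (r + 2)).card + ∑ S ∈ K G A (r + 1), bcol B M S + ∑ Y ∈ K G A r, E Y := by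
  have hq := h.hq
  have hr := h.hr
  have hpos : ∀ n < r, ∀ T ∈ K G A n, 0 < al G A T := by
    intro n hn T hT
    have h1 := card_le_cnb (G := G) A T
    have h2 : ∑ t ∈ T, (cn G A t).card ≤ n * q := by
      rw [← (mem_K.1 hT).2.1, ← smul_eq_mul, ← Finset.sum_const]
      refine Finset.sum_le_sum fun t ht => ?_
      have := h.hdeg t ((mem_K.1 hT).1 ht)
      omega
    have h3 : n * q ≤ (r - 1) * q := Nat.mul_le_mul_right _ (by omega)
    have h4 := h.hA
    unfold al
    have : 0 < (cnb G A T).card := by omega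
    exact_mod_cast this
  have hsum := gw_sum (A := A) r hpos
  have hgw0 : ∀ n S, 0 ≤ gw (al G A) n S := gw_nonneg (al_nonneg A)
  have key : (q : ℝ) ^ (r - 1) ≤ (K G A (r + 2)).card + ∑ S ∈ K G A (r + 1), (bcol B M S : ℝ) +
      ∑ Y ∈ K G A r, (E Y : ℝ) := by
    have e1 : (q : ℝ) ^ (r - 1) = ∑ Y ∈ K G A r, (q : ℝ) ^ (r - 1) * gw (al G A) r Y := by
      rw [← Finset.mul_sum, hsum, mul_one]
    have hstep : ∀ m, ∑ S ∈ K G A (m + 1), ∑ u ∈ S,
        (q : ℝ) ^ (r - 1) * gw (al G A) m (S.erase u) / al G A (S.erase u) =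
        ∑ S ∈ K G A (m + 1), (q : ℝ) ^ (r - 1) * gw (al G A) (m + 1) S := by
      intro m
      refine Finset.sum_congr rfl fun S _ => ?_
      rw [gw, Finset.mul_sum]
      refine Finset.sum_congr rfl fun u _ => ?_
      rw [mul_div_assoc]
    rw [e1, sum_K_split A r (fun Y => (q : ℝ) ^ (r - 1) * gw (al G A) r Y), hstep r,
      sum_K_split A (r + 1) (fun Y => (q : ℝ) ^ (r - 1) * gw (al G A) (r + 1) Y), hstep (r + 1),
      sum_K_split A (r + 1) (fun Y => (bcol B M Y : ℝ))]
    have h0 : ∑ T ∈ (K G A r).filter (fun T => cnb G A T = ∅),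
        (q : ℝ) ^ (r - 1) * gw (al G A) r T ≤ ∑ Y ∈ K G A r, (E Y : ℝ) := by
      refine (Finset.sum_le_sum fun T hT => ?_).trans
        (Finset.sum_le_sum_of_subset_of_nonneg (Finset.filter_subset _ _)
          fun Y _ _ => Nat.cast_nonneg _)
      rw [Finset.mem_filter] at hT
      exact h.local1 hT.1 hT.2
    have h1 : ∑ T ∈ (K G A (r + 1)).filter (fun T => cnb G A T = ∅),
        (q : ℝ) ^ (r - 1) * gw (al G A) (r + 1) T ≤
        ∑ T ∈ (K G A (r + 1)).filter (fun T => cnb G A T = ∅), (bcol B M T : ℝ) := by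
      refine Finset.sum_le_sum fun T hT => ?_
      rw [Finset.mem_filter] at hT
      exact h.local2 hT.1 hT.2
    have h2 : ∑ S ∈ K G A (r + 1 + 1), (q : ℝ) ^ (r - 1) * gw (al G A) (r + 1 + 1) S ≤
        ∑ S ∈ K G A (r + 1 + 1),
          (1 + ∑ u ∈ S, (bcol B M (S.erase u) : ℝ) / al G A (S.erase u)) :=
      Finset.sum_le_sum fun S hS => h.local3 hS
    rw [Finset.sum_add_distrib] at h2
    have h3 : ∑ S ∈ K G A (r + 1 + 1), (1 : ℝ) = (K G A (r + 2)).card := by simp
    rw [h3] at h2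
    linarith
  exact_mod_cast key

end

end Pool.Agent.MP76b19e
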