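import Pool.Agent.Lib.MP76b19e.CoreN

/-! The profile `(q, …, q, P)`: connection with graphs (MP_76b19e_co). -/

open Finset

noncomputable section

namespace Pool.Agent.MP76b19e

variable {V : Type*} [DecidableEq V] {G : SimpleGraph V}

/-- cliques with exactly `m` vertices in `A` -/
lemma fam {A B U : Finset V} (hAU : A ⊆ U) (hBU : B ⊆ U) (hdis : Disjoint A B) (m j : ℕ)
    (X : Finset V → Finset V) (hX : ∀ Y, X Y ⊆ B)
    (hadj : ∀ Y, Y ⊆ A → ∀ a ∈ Y, ∀ y ∈ X Y, G.Adj a y) :
    ∑ Y ∈ K G A m, (K G (X Y) j).card ≤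
      ((K G U (m + j)).filter (fun s => (s ∩ A).card = m)).card := by
  classical
  have hinter : ∀ Y Z : Finset V, Y ⊆ A → Z ⊆ B → (Y ∪ Z) ∩ A = Y := by
    intro Y Z hY hZ
    ext x
    rw [Finset.mem_inter, Finset.mem_union]
    constructor
    · rintro ⟨h1 | h1, h2⟩
      · exact h1
      · exact absurd h2 (fun h => Finset.disjoint_left.1 hdis h (hZ h1))
    · intro h
      exact ⟨Or.inl h, hY h⟩
  have hinter' : ∀ Y Z : Finset V, Y ⊆ A → Z ⊆ B → (Y ∪ Z) ∩ B = Z := by
    intro Y Z hY hZ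
    ext x
    rw [Finset.mem_inter, Finset.mem_union]
    constructor
    · rintro ⟨h1 | h1, h2⟩
      · exact absurd h2 (fun h => Finset.disjoint_left.1 hdis (hY h1) h)
      · exact h1
    · intro h
      exact ⟨Or.inr h, hZ h⟩
  rw [← Finset.card_sigma]
  refine Finset.card_le_card_of_injOn (fun x => x.1 ∪ x.2) ?_ ?_
  · rintro ⟨Y, Z⟩ hx
    rw [Finset.mem_coe, Finset.mem_sigma] at hx
    simp only at hx
    have h1 := mem_K.1 hx.1
    have h2 := mem_K.1 hx.2
    have hZB : Z ⊆ B := h2.1.trans (hX Y)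
    have hd : Disjoint Y Z := hdis.mono h1.1 hZB
    rw [Finset.mem_coe, Finset.mem_filter]
    refine ⟨mem_K.2 ⟨Finset.union_subset (h1.1.trans hAU) (hZB.trans hBU), ?_, ?_⟩, ?_⟩
    · rw [Finset.card_union_of_disjoint hd, h1.2.1, h2.2.1]
    · intro a ha b hb hab
      rw [Finset.mem_coe, Finset.mem_union] at ha hb
      rcases ha with ha | ha <;> rcases hb with hb | hb
      · exact h1.2.2 ha hb hab
      · exact hadj Y h1.1 a ha b (h2.1 hb)
      · exact (hadj Y h1.1 b hb a (h2.1 ha)).symm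
      · exact h2.2.2 ha hb hab
    · simp only
      rw [hinter Y Z h1.1 hZB, h1.2.1]
  · rintro ⟨Y, Z⟩ hx ⟨Y', Z'⟩ hx' heq
    rw [Finset.mem_coe, Finset.mem_sigma] at hx hx'
    simp only at hx hx' heq
    have h1 := (mem_K.1 hx.1).1
    have h2 := (mem_K.1 hx.2).1.trans (hX Y)
    have h1' := (mem_K.1 hx'.1).1
    have h2' := (mem_K.1 hx'.2).1.trans (hX Y')
    have hY : Y = Y' := by
      rw [← hinter Y Z h1 h2, heq, hinter Y' Z' h1' h2']
    have hZ : Z = Z' := by
      rw [← hinter' Y Z h1 h2, heq, hinter' Y' Z' h1' h2']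
    subst hY hZ
    rfl

lemma K_zero (U : Finset V) : (K G U 0).card = 1 := by
  have : K G U 0 = {∅} := by
    ext T
    rw [mem_K, Finset.mem_singleton]
    constructor
    · rintro ⟨_, h, _⟩
      exact Finset.card_eq_zero.1 h
    · rintro rfl
      simp
  rw [this, Finset.card_singleton]

lemma K_one (U : Finset V) : (K G U 1).card = U.card := by
  have : K G U 1 = U.image (fun x => ({x} : Finset V)) := by
    ext T
    rw [mem_K, Finset.mem_image]
    constructor
    · rintro ⟨h1, h, _⟩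
      obtain ⟨x, rfl⟩ := Finset.card_eq_one.1 h
      exact ⟨x, h1 (Finset.mem_singleton_self _), rfl⟩
    · rintro ⟨x, hx, rfl⟩
      exact ⟨by simpa using hx, by simp, by simp⟩
  rw [this, Finset.card_image_of_injective _ Finset.singleton_injective]

/-- The profile `(q, …, q, P)` with `q < P`. -/
theorem core2 (G : SimpleGraph V) (U : Finset V) (q P r : ℕ) (hr : 1 ≤ r) (hqP : q < P)
    (hC : C G U 0 (List.replicate r q ++ [P])) : q ^ (r - 1) ≤ (K G U (r + 2)).card := by
  classical
  rcases Nat.lt_or_ge q 2 with hq | hq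
  · -- small q
    have h1 := greedy _ _ hC
    rw [List.length_append, List.length_replicate, List.length_singleton] at h1
    have h2 : 1 ≤ (K G U (r + 2)).card := Finset.card_pos.2 h1
    refine le_trans ?_ h2
    calc q ^ (r - 1) ≤ 1 ^ (r - 1) := Nat.pow_le_pow_left (by omega) _
      _ = 1 := one_pow _
  -- sizes
  have hW : ∀ (r a : ℕ), C G U a (List.replicate (r + 1) q ++ [P]) →
      a + r * q + 1 ≤ (W G U q).card ∧ a + (r + 1) * q + 1 ≤ (W G U P).card ∧
        a + (r + 1) * q + P + 1 ≤ U.card := by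
    intro r
    induction r with
    | zero =>
      intro a ha
      simp only [List.replicate, List.cons_append, List.nil_append, C] at ha
      refine ⟨?_, ?_, ?_⟩ <;> nlinarith [ha.1, ha.2.1, ha.2.2]
    | succ r ih =>
      intro a ha
      rw [List.replicate_succ, List.cons_append] at ha
      simp only [C] at ha
      have := ih (a + q) ha.2
      refine ⟨?_, ?_, ?_⟩ <;> nlinarith [this.1, this.2.1, this.2.2]
  obtain ⟨r, rfl⟩ : ∃ r', r = r' + 1 := ⟨r - 1, by omega⟩
  obtain ⟨h1, h2, h3⟩ := hW r 0 hC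
  rw [zero_add] at h1 h2 h3
  obtain ⟨A, hAW, hA⟩ := Finset.exists_subset_card_eq h1
  have hWP : W G U q ⊆ W G U P := by
    intro v hv
    rw [mem_W] at hv ⊢
    exact ⟨hv.1, by omega⟩
  have hWU : W G U P ⊆ U := fun v hv => (mem_W.1 hv).1
  obtain ⟨C0, hAC, hCW, hC0⟩ := Finset.exists_subsuperset_card_eq (hAW.trans hWP)
    (show A.card ≤ (r + 1) * q + 1 by rw [hA]; nlinarith) h2
  obtain ⟨U', hCU', hU'U, hU'⟩ := Finset.exists_subsuperset_card_eq (hCW.trans hWU)
    (show C0.card ≤ (r + 1) * q + P + 1 by rw [hC0]; omega) h3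
  have hAU' : A ⊆ U' := hAC.trans hCU'
  set B := U' \ A with hB
  have hBU' : B ⊆ U' := Finset.sdiff_subset
  have hBcard : B.card = q + P := by
    have := Finset.card_sdiff_add_card_eq_card hAU'
    rw [← hB, hA, hU'] at this
    have h3 : (r + 1) * q = r * q + q := by ring
    omega
  have hdis : Disjoint A B := by
    rw [hB]; exact Finset.disjoint_sdiff
  have hle : ∀ a ∈ A, (cn G A a).card + (cn G B a).card ≤ q := by
    intro a ha
    have h3 : cn G A a ∪ cn G B a ⊆ cn G U a := by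
      intro x hx
      rcases Finset.mem_union.1 hx with hx | hx
      · rw [mem_cn] at hx ⊢
        exact ⟨hU'U (hAU' hx.1), hx.2⟩
      · rw [mem_cn] at hx ⊢
        exact ⟨hU'U (hBU' hx.1), hx.2⟩
    have h4 : Disjoint (cn G A a) (cn G B a) := by
      refine hdis.mono ?_ ?_
      · intro x hx; exact (mem_cn.1 hx).1
      · intro x hx; exact (mem_cn.1 hx).1
    rw [← Finset.card_union_of_disjoint h4]
    exact (Finset.card_le_card h3).trans (mem_W.1 (hAW ha)).2
  have hcnpos : ∀ a ∈ A, 1 ≤ (cn G A a).card := by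
    intro a ha
    exact Finset.card_pos.2 ⟨a, mem_cn.2 ⟨ha, G.loopless.irrefl a⟩⟩
  have hex : ∀ a : V, ∃ Ma : Finset V, a ∈ A → cn G B a ⊆ Ma ∧ Ma ⊆ B ∧
      (cn G A a).card + Ma.card = q := by
    intro a
    by_cases ha : a ∈ A
    · have h3 := hle a ha
      have h4 := hcnpos a ha
      obtain ⟨Ma, h5, h6, h7⟩ := Finset.exists_subsuperset_card_eq
        (s := cn G B a) (t := B) (n := q - (cn G A a).card)
        (fun x hx => (mem_cn.1 hx).1) (by omega) (by omega)
      exact ⟨Ma, fun _ => ⟨h5, h6, by omega⟩⟩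
    · exact ⟨∅, fun h => absurd h ha⟩
  choose M hM using hex
  set X : Finset V → Finset V := fun Y => B.filter (fun y => ∀ a ∈ Y, y ∉ M a) with hX
  have hXB : ∀ Y, X Y ⊆ B := fun Y => Finset.filter_subset _ _
  have hXadj : ∀ Y, Y ⊆ A → ∀ a ∈ Y, ∀ y ∈ X Y, G.Adj a y := by
    intro Y hY a ha y hy
    rw [hX, Finset.mem_filter] at hy
    by_contra hcon
    exact hy.2 a ha ((hM a (hY ha)).1 (mem_cn.2 ⟨hy.1, hcon⟩))
  have hXcard : ∀ Y, (X Y).card = bcol B M Y := by
    intro Y
    simp only [hX]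
    unfold bcol
    congr
  have hset0 : ∀ Y ∈ K G A (r + 1), cnb G A Y = ∅ →
      1 + ovl (A \ Y) (Dn G Y) ≤ (K G (X Y) 2).card := by
    intro Y hY hcnb
    have hY' := mem_K.1 hY
    -- total waste
    have hs : ∑ k ∈ Y, (M k).card + ovl (A \ Y) (Dn G Y) + 1 = q := by
      have g1 := slot_sum hY
      have g2 : ∑ k ∈ Y, ((A \ Y).filter (fun v => k ∈ Dn G Y v)).card +
          ∑ k ∈ Y, (M k).card = (r + 1) * (q - 1) := by
        rw [← Finset.sum_add_distrib, ← hY'.2.1, ← smul_eq_mul, ← Finset.sum_const]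
        refine Finset.sum_congr rfl fun k hk => ?_
        have g3 := card_slot hY hk
        have g4 := (hM k (hY'.1 hk)).2.2
        omega
      have g5 := card_cnb_self hY
      rw [hcnb, Finset.card_empty] at g5
      rw [← g5, hY'.2.1, hA] at g1
      obtain ⟨p, hp⟩ : ∃ p, q = p + 1 := ⟨q - 1, by omega⟩
      subst hp
      rw [Nat.add_sub_cancel] at g2
      have e1 : (r + 1) * p = r * p + p := by ring
      have e2 : r * (p + 1) = r * p + r := by ring
      rw [e1] at g2
      rw [e2] at g1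
      omega
    set o := ovl (A \ Y) (Dn G Y) with ho
    have hXY : B.card ≤ (X Y).card + ∑ k ∈ Y, (M k).card := by
      rw [hXcard]; exact le_bcol B M Y
    have hCX : C G (X Y) o [P] := by
      simp only [C]
      refine ⟨?_, by omega⟩
      -- vertices of C0 \ A in X Y
      have g1 : (C0 \ A) \ Y.biUnion M ⊆ W G (X Y) P := by
        intro y hy
        rw [Finset.mem_sdiff, Finset.mem_sdiff] at hy
        have hyB : y ∈ B := Finset.mem_sdiff.2 ⟨hCU' hy.1.1, hy.1.2⟩
        rw [mem_W]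
        refine ⟨?_, ?_⟩
        · rw [hX, Finset.mem_filter]
          refine ⟨hyB, fun a ha hya => hy.2 (Finset.mem_biUnion.2 ⟨a, ha, hya⟩)⟩
        · have g2 := (mem_W.1 (hCW hy.1.1)).2
          refine (Finset.card_le_card (cn_mono ?_ y)).trans g2
          exact ((hXB Y).trans hBU').trans hU'U
      have g2 := Finset.card_le_card g1
      have g3 := Finset.le_card_sdiff (Y.biUnion M) (C0 \ A)
      have g4 : (Y.biUnion M).card ≤ ∑ k ∈ Y, (M k).card := Finset.card_biUnion_le
      have g5 := Finset.card_sdiff_add_card_eq_card hAC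
      rw [hA, hC0] at g5
      have e3 : (r + 1) * q = r * q + q := by ring
      omega
    have h9 : o + 1 ≤ (K G (X Y) 2).card := excess' [P] o (X Y) hCX
    omega
  have hset : Setting2 G A B M q (r + 1) (fun Y => (K G (X Y) 2).card) :=
    { hq := hq
      hr := by omega
      hA := by rw [hA, Nat.add_sub_cancel]
      hB := by rw [hBcard]; omega
      hM := fun a ha => (hM a ha).2.1
      hdeg := fun a ha => (hM a ha).2.2
      hE := hset0 }
  refine hset.main.trans ?_
  have hAU : A ⊆ U := hAU'.trans hU'U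
  have hBU : B ⊆ U := hBU'.trans hU'U
  have f2 := fam (G := G) hAU hBU hdis (r + 1) 2 X hXB hXadj
  have f1 := fam (G := G) hAU hBU hdis (r + 1 + 1) 1 X hXB hXadj
  have f0 := fam (G := G) hAU hBU hdis (r + 1 + 2) 0 X hXB hXadj
  have g0 : ∑ Y ∈ K G A (r + 1 + 2), (K G (X Y) 0).card = (K G A (r + 1 + 2)).card := by
    rw [Finset.card_eq_sum_ones]
    exact Finset.sum_congr rfl fun Y _ => K_zero _
  have g1 : ∑ Y ∈ K G A (r + 1 + 1), (K G (X Y) 1).card =
      ∑ Y ∈ K G A (r + 1 + 1), bcol B M Y :=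
    Finset.sum_congr rfl fun Y _ => by rw [K_one, hXcard]
  rw [g0] at f0
  rw [g1] at f1
  have e1 : r + 1 + 1 + 1 = r + 1 + 2 := by ring
  rw [e1] at f1
  rw [add_zero] at f0
  set Kf := K G U (r + 1 + 2) with hKf
  have hd1 : Disjoint (Kf.filter (fun s => (s ∩ A).card = r + 1))
      (Kf.filter (fun s => (s ∩ A).card = r + 1 + 1)) := by
    rw [Finset.disjoint_left]
    intro s hs hs'
    rw [Finset.mem_filter] at hs hs'
    omega
  have hd2 : Disjoint (Kf.filter (fun s => (s ∩ A).card = r + 1) ∪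
      Kf.filter (fun s => (s ∩ A).card = r + 1 + 1))
      (Kf.filter (fun s => (s ∩ A).card = r + 1 + 2)) := by
    rw [Finset.disjoint_left]
    intro s hs hs'
    rw [Finset.mem_union, Finset.mem_filter, Finset.mem_filter] at hs
    rw [Finset.mem_filter] at hs'
    omega
  have hfin : (Kf.filter (fun s => (s ∩ A).card = r + 1) ∪
      Kf.filter (fun s => (s ∩ A).card = r + 1 + 1) ∪
      Kf.filter (fun s => (s ∩ A).card = r + 1 + 2)).card ≤ Kf.card := by
    refine Finset.card_le_card ?_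
    refine Finset.union_subset (Finset.union_subset ?_ ?_) ?_ <;> exact Finset.filter_subset _ _
  rw [Finset.card_union_of_disjoint hd2, Finset.card_union_of_disjoint hd1] at hfin
  change (K G A (r + 1 + 2)).card + ∑ S ∈ K G A (r + 1 + 1), bcol B M S +
    ∑ Y ∈ K G A (r + 1), (K G (X Y) 2).card ≤ Kf.card
  omega

end Pool.Agent.MP76b19e
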