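import Mathlib

/-! Greedy weights and supersolutions (MP_76b19e_co). -/

open Finset

noncomputable section

namespace Pool.Agent.MP76b19e

variable {V : Type*} [DecidableEq V]

/-- Greedy weights: the probability that a greedy process, choosing uniformly among `α T`
possibilities after `T` has been chosen, produces the set `S` of size `n`. -/
def gw (α : Finset V → ℝ) : ℕ → Finset V → ℝ
  | 0, _ => 1
  | n + 1, S => ∑ u ∈ S, gw α n (S.erase u) / α (S.erase u)

lemma gw_nonneg {α : Finset V → ℝ} (hα : ∀ T, 0 ≤ α T) : ∀ n S, 0 ≤ gw α n S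
  | 0, _ => zero_le_one
  | n + 1, S => Finset.sum_nonneg fun u _ => div_nonneg (gw_nonneg hα n _) (hα _)

lemma sum_powersetCard_erase (K : Finset V) (n : ℕ) (f : Finset V → V → ℝ) :
    ∑ T ∈ K.powersetCard (n + 1), ∑ u ∈ T, f (T.erase u) u =
      ∑ T ∈ K.powersetCard n, ∑ k ∈ K \ T, f T k := by
  rw [Finset.sum_sigma', Finset.sum_sigma']
  refine Finset.sum_bij' (fun x _ => ⟨x.1.erase x.2, x.2⟩) (fun x _ => ⟨insert x.2 x.1, x.2⟩)
    ?_ ?_ ?_ ?_ ?_
  · rintro ⟨T, u⟩ h
    simp only [Finset.mem_sigma, Finset.mem_powersetCard, Finset.mem_sdiff] at h ⊢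
    refine ⟨⟨(Finset.erase_subset _ _).trans h.1.1, ?_⟩, h.1.1 h.2, Finset.notMem_erase _ _⟩
    rw [Finset.card_erase_of_mem h.2, h.1.2]
    rfl
  · rintro ⟨T, k⟩ h
    simp only [Finset.mem_sigma, Finset.mem_powersetCard, Finset.mem_sdiff] at h ⊢
    refine ⟨⟨Finset.insert_subset h.2.1 h.1.1, ?_⟩, Finset.mem_insert_self _ _⟩
    rw [Finset.card_insert_of_notMem h.2.2, h.1.2]
  · rintro ⟨T, u⟩ h
    simp only [Finset.mem_sigma] at h
    simp only
    rw [Finset.insert_erase h.2]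
  · rintro ⟨T, k⟩ h
    simp only [Finset.mem_sigma, Finset.mem_sdiff] at h
    simp only
    rw [Finset.erase_insert h.2.2]
  · rintro ⟨T, u⟩ _
    rfl

/-- A supersolution bounds the greedy weights. -/
lemma super {α Φ : Finset V → ℝ} {K : Finset V} (hα : ∀ T, T ⊆ K → T ≠ K → 0 < α T)
    (h0 : ∀ n S, 0 ≤ gw α n S)
    (hΦ : ∀ T, T ⊆ K → T ≠ K → ∑ k ∈ K \ T, Φ (insert k T) ≤ α T * Φ T) :
    ∀ n, n ≤ K.card → ∑ T ∈ K.powersetCard n, gw α n T * Φ T ≤ Φ ∅ := by
  intro n
  induction n with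
  | zero =>
    intro _
    rw [Finset.powersetCard_zero, Finset.sum_singleton]
    simp [gw]
  | succ n ih =>
    intro hn
    refine le_trans ?_ (ih (by omega))
    have h1 : ∑ T ∈ K.powersetCard (n + 1), gw α (n + 1) T * Φ T =
        ∑ T ∈ K.powersetCard (n + 1), ∑ u ∈ T,
          gw α n (T.erase u) / α (T.erase u) * Φ (insert u (T.erase u)) := by
      refine Finset.sum_congr rfl fun T _ => ?_
      rw [gw, Finset.sum_mul]
      refine Finset.sum_congr rfl fun u hu => ?_
      rw [Finset.insert_erase hu]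
    rw [h1, sum_powersetCard_erase K n (fun T u => gw α n T / α T * Φ (insert u T))]
    refine Finset.sum_le_sum fun T hT => ?_
    rw [Finset.mem_powersetCard] at hT
    have hne : T ≠ K := by
      rintro rfl
      omega
    have h2 := hα T hT.1 hne
    rw [← Finset.mul_sum, div_mul_eq_mul_div, div_le_iff₀ h2, mul_assoc, mul_comm (Φ T)]
    exact mul_le_mul_of_nonneg_left (hΦ T hT.1 hne) (h0 n T)

lemma super' {α Φ : Finset V → ℝ} {K : Finset V} (hα : ∀ T, T ⊆ K → T ≠ K → 0 < α T)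
    (h0 : ∀ n S, 0 ≤ gw α n S)
    (hΦ : ∀ T, T ⊆ K → T ≠ K → ∑ k ∈ K \ T, Φ (insert k T) ≤ α T * Φ T) :
    gw α K.card K * Φ K ≤ Φ ∅ := by
  have h := super hα h0 hΦ K.card le_rfl
  rwa [Finset.powersetCard_self, Finset.sum_singleton] at h

lemma gw_anti {α α' : Finset V → ℝ} {K : Finset V} (h0 : ∀ n S, 0 ≤ gw α' n S)
    (hα : ∀ T, T ⊆ K → T ≠ K → 0 < α' T ∧ α' T ≤ α T) :
    ∀ n S, S ⊆ K → S.card = n → gw α n S ≤ gw α' n S
  | 0, _, _, _ => le_rfl
  | n + 1, S, hS, hc => by
    rw [gw, gw]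
    refine Finset.sum_le_sum fun u hu => ?_
    have hsub : S.erase u ⊆ K := (Finset.erase_subset _ _).trans hS
    have hcard : (S.erase u).card = n := by
      rw [Finset.card_erase_of_mem hu, hc]
      rfl
    have hne : S.erase u ≠ K := by
      intro h
      have := hS hu
      rw [← h] at this
      exact Finset.notMem_erase _ _ this
    obtain ⟨h1, h2⟩ := hα _ hsub hne
    have h3 := gw_anti h0 hα n (S.erase u) hsub hcard
    calc gw α n (S.erase u) / α (S.erase u)
        ≤ gw α' n (S.erase u) / α (S.erase u) :=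
          div_le_div_of_nonneg_right h3 (h1.le.trans h2)
      _ ≤ gw α' n (S.erase u) / α' (S.erase u) :=
          div_le_div_of_nonneg_left (h0 _ _) h1 h2

/-- `gw` only depends on the values of `α` on subsets -/
lemma gw_congr {α α' : Finset V → ℝ} {K : Finset V} (hα : ∀ T, T ⊆ K → α T = α' T) :
    ∀ n S, S ⊆ K → gw α n S = gw α' n S
  | 0, _, _ => rfl
  | n + 1, S, hS => by
    rw [gw, gw]
    refine Finset.sum_congr rfl fun u _ => ?_
    have hsub : S.erase u ⊆ K := (Finset.erase_subset _ _).trans hS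
    rw [gw_congr hα n _ hsub, hα _ hsub]

end Pool.Agent.MP76b19e
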