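import Pool.Agent.Lib.MP76b19e.CoreL

/-! Numerical inequalities for the profile `(q, …, q, P)` with `q < P` (MP_76b19e_co). -/

open Finset

noncomputable section

namespace Pool.Agent.MP76b19e

section
variable {q : ℕ} {L H : ℝ}

lemma L_le_two (hq : 2 ≤ q) (hLq : L ^ (q - 1) = q) : L ≤ 2 := by
  refine le_of_pow_le_pow_left₀ (n := q - 1) (by omega) (by norm_num) ?_
  rw [hLq]
  have h1 := one_add_mul_le_pow (a := (1 : ℝ)) (by norm_num) (q - 1)
  have h2 : ((q - 1 : ℕ) : ℝ) = q - 1 := by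
    rw [Nat.cast_sub (by omega)]; simp
  rw [h2] at h1
  norm_num at h1
  linarith

/-- `H ^ j ≤ 1 + j` for `j ≤ 2 q` -/
lemma H_lin (hq : 2 ≤ q) (hH : 0 < H) (hHq : H ^ (q - 1) = 2 * q / (q + 1)) {j : ℕ}
    (hj : j ≤ 2 * q) : H ^ j ≤ 1 + j := by
  have hq2 : (2 : ℝ) ≤ q := by exact_mod_cast hq
  have hq0 : (0 : ℝ) < q := by linarith
  rcases Nat.lt_or_ge j q with h | h
  · refine (H_pow_le' hq hH hHq h.le).trans ?_
    have : (j : ℝ) / q ≤ j := by
      apply div_le_self (Nat.cast_nonneg _)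
      linarith
    linarith
  · have h1 := H_pow_le' hq hH hHq (le_refl q)
    have h2 := H_pow_le' hq hH hHq (show j - q ≤ q by omega)
    rw [div_self hq0.ne'] at h1
    have h3 : H ^ j = H ^ q * H ^ (j - q) := by
      rw [← pow_add]; congr 1; omega
    have h4 : H ^ j ≤ (1 + 1) * (1 + ((j - q : ℕ) : ℝ) / q) := by
      rw [h3]
      exact mul_le_mul h1 h2 (by positivity) (by norm_num)
    refine h4.trans ?_
    have h5 : ((j - q : ℕ) : ℝ) = j - q := by
      rw [Nat.cast_sub h]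
    have hjq : (q : ℝ) ≤ j := by exact_mod_cast h
    rw [h5]
    have h6 : (1 + 1) * (1 + ((j : ℝ) - q) / q) = 2 * j / q := by field_simp; ring
    rw [h6, div_le_iff₀ hq0]
    nlinarith

/-- `L H ^ o ≤ 2 + o` for `o ≤ 2 q - 1` -/
lemma LH_lin (hq : 2 ≤ q) (hH : 0 < H) (hLq : L ^ (q - 1) = q)
    (hHq : H ^ (q - 1) = 2 * q / (q + 1)) {o : ℕ}
    (ho : o ≤ 2 * q - 1) : L * H ^ o ≤ 2 + o := by
  have hq2 : (2 : ℝ) ≤ q := by exact_mod_cast hq
  have hq0 : (0 : ℝ) < q := by linarith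
  have hL2 := L_le_two hq hLq
  have hHo : 0 < H ^ o := by positivity
  refine (mul_le_mul_of_nonneg_right hL2 hHo.le).trans ?_
  have ho0 : (0 : ℝ) ≤ o := Nat.cast_nonneg _
  rcases Nat.lt_or_ge o q with h | h
  · have h1 := H_pow_le hq hH hHq (show o ≤ q - 1 by omega)
    have h2 : (o : ℝ) / (q + 1) ≤ o / 2 := by
      apply div_le_div_of_nonneg_left ho0 (by norm_num)
      linarith
    linarith
  · rcases Nat.lt_or_ge o (2 * q - 1) with h' | h'
    · have h1 := H_pow_le hq hH hHq (show o - (q - 1) ≤ q - 1 by omega)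
      have h2 : H ^ o = H ^ (q - 1) * H ^ (o - (q - 1)) := by
        rw [← pow_add]; congr 1; omega
      have h3 : ((o - (q - 1) : ℕ) : ℝ) = o - q + 1 := by
        have : o - (q - 1) + q = o + 1 := by omega
        have h4 : ((o - (q - 1) : ℕ) : ℝ) + q = o + 1 := by exact_mod_cast this
        linarith
      rw [h2, hHq]
      rw [h3] at h1
      have h4 : 2 * (2 * (q : ℝ) / (q + 1) * H ^ (o - (q - 1))) ≤
          2 * (2 * (q : ℝ) / (q + 1) * (1 + ((o : ℝ) - q + 1) / (q + 1))) := by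
        have : 0 ≤ 2 * (q : ℝ) / (q + 1) := by positivity
        have := mul_le_mul_of_nonneg_left h1 this
        linarith
      refine h4.trans ?_
      have h5 : 2 * (2 * (q : ℝ) / (q + 1) * (1 + ((o : ℝ) - q + 1) / (q + 1))) =
          (4 * q) * (o + 2) / ((q + 1) * (q + 1)) := by field_simp; ring
      rw [h5, div_le_iff₀ (by positivity)]
      nlinarith [sq_nonneg ((q : ℝ) - 1)]
    · have ho' : o = (q - 1) + (q - 1) + 1 := by omega
      have h1 := H_pow_le hq hH hHq (show 1 ≤ q - 1 by omega)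
      rw [pow_one] at h1
      have hor : (o : ℝ) = 2 * q - 1 := by
        have : o + 1 = 2 * q := by omega
        have h4 : (o : ℝ) + 1 = 2 * q := by exact_mod_cast this
        linarith
      rw [ho', pow_add, pow_add, hHq, pow_one, ← ho', hor]
      have h4 : 2 * (2 * (q : ℝ) / (q + 1) * (2 * (q : ℝ) / (q + 1)) * H) ≤
          2 * (2 * (q : ℝ) / (q + 1) * (2 * (q : ℝ) / (q + 1)) * (1 + ((1 : ℕ) : ℝ) / (q + 1))) := by
        have : 0 ≤ 2 * (q : ℝ) / (q + 1) * (2 * (q : ℝ) / (q + 1)) := by positivity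
        have := mul_le_mul_of_nonneg_left h1 this
        linarith
      refine h4.trans ?_
      have h5 : 2 * (2 * (q : ℝ) / (q + 1) * (2 * (q : ℝ) / (q + 1)) *
          (1 + ((1 : ℕ) : ℝ) / (q + 1))) = 8 * q ^ 2 * (q + 2) / (q + 1) ^ 3 := by
        push_cast
        field_simp
        ring
      rw [h5, div_le_iff₀ (by positivity)]
      have h6 : 0 ≤ ((q : ℝ) - 2) := by linarith
      nlinarith [mul_nonneg h6 (mul_nonneg hq0.le (mul_nonneg hq0.le hq0.le)),
        mul_nonneg h6 (mul_nonneg hq0.le hq0.le), mul_nonneg h6 hq0.le, mul_nonneg h6 h6]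

/-- case `c = 0` -/
lemma numA (hq : 2 ≤ q) (hL : 0 < L) (hLq : L ^ (q - 1) = q) :
    L ^ 2 ≤ 3 * q * (q + 1) / ((q - 1) * (2 * q - 1)) := by
  have hq2 : (2 : ℝ) ≤ q := by exact_mod_cast hq
  have hq1 : 0 < (q : ℝ) - 1 := by linarith
  have h2q : 0 < 2 * (q : ℝ) - 1 := by linarith
  have hR : 0 ≤ 3 * (q : ℝ) * (q + 1) / ((q - 1) * (2 * q - 1)) := by positivity
  refine le_of_pow_le_pow_left₀ (n := q - 1) (by omega) hR ?_
  rw [← pow_mul, mul_comm 2, pow_mul, hLq]
  rcases Nat.lt_or_ge q 15 with h | h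
  · interval_cases q <;> norm_num
  · have h1 : (3 : ℝ) / 2 ≤ 3 * (q : ℝ) * (q + 1) / ((q - 1) * (2 * q - 1)) := by
      rw [div_le_div_iff₀ (by norm_num) (by positivity)]
      nlinarith
    have h2 := pow_le_pow_left₀ (by norm_num) h1 (q - 1)
    refine le_trans ?_ h2
    have : ∀ m : ℕ, ((m : ℝ) + 15) ^ 2 ≤ (3 / 2) ^ (m + 14) := by
      intro m
      induction m with
      | zero => norm_num
      | succ m ih =>
        have e : m + 1 + 14 = (m + 14) + 1 := by ring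
        rw [e, pow_succ (3 / 2 : ℝ)]
        push_cast
        have hm : (0 : ℝ) ≤ m := Nat.cast_nonneg _
        have h5 : ((m : ℝ) + 1 + 15) ^ 2 ≤ 3 / 2 * ((m : ℝ) + 15) ^ 2 := by
          nlinarith [mul_nonneg hm hm]
        nlinarith
    have h5 := this (q - 15)
    have h6 : ((q - 15 : ℕ) : ℝ) = q - 15 := by
      rw [Nat.cast_sub h]; simp
    have h7 : q - 15 + 14 = q - 1 := by omega
    rw [h6, h7] at h5
    calc (q : ℝ) ^ 2 = ((q : ℝ) - 15 + 15) ^ 2 := by ring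
      _ ≤ _ := h5

/-- case `c = 1` -/
lemma numB (hq : 2 ≤ q) (hL : 0 < L) (hLq : L ^ (q - 1) = q) :
    L ^ 3 * (((q : ℝ) - 1) / (4 * q - 1)) ≤ 3 / 2 := by
  have hq2 : (2 : ℝ) ≤ q := by exact_mod_cast hq
  have hq1 : 0 < (q : ℝ) - 1 := by linarith
  have h4q : 0 < 4 * (q : ℝ) - 1 := by linarith
  have hX : 0 < ((q : ℝ) - 1) / (4 * q - 1) := by positivity
  refine le_of_pow_le_pow_left₀ (n := q - 1) (by omega) (by norm_num) ?_
  rw [mul_pow, ← pow_mul, mul_comm 3, pow_mul, hLq]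
  rcases Nat.lt_or_ge q 4 with h | h
  · interval_cases q <;> norm_num
  · have h1 : ((q : ℝ) - 1) / (4 * q - 1) ≤ 1 / 4 := by
      rw [div_le_div_iff₀ h4q (by norm_num)]
      nlinarith
    have h2 := pow_le_pow_left₀ hX.le h1 (q - 1)
    have h3 : (q : ℝ) ^ 3 ≤ 6 ^ (q - 1) := by
      have : ∀ m : ℕ, ((m : ℝ) + 4) ^ 3 ≤ 6 ^ (m + 3) := by
        intro m
        induction m with
        | zero => norm_num
        | succ m ih =>
          have e : m + 1 + 3 = (m + 3) + 1 := by ring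
          rw [e, pow_succ (6 : ℝ)]
          push_cast
          have hm : (0 : ℝ) ≤ m := Nat.cast_nonneg _
          have h5 : ((m : ℝ) + 1 + 4) ^ 3 ≤ 6 * ((m : ℝ) + 4) ^ 3 := by
            nlinarith [mul_nonneg hm hm, mul_nonneg (mul_nonneg hm hm) hm]
          nlinarith
      have h5 := this (q - 4)
      have h6 : ((q - 4 : ℕ) : ℝ) = q - 4 := by
        rw [Nat.cast_sub h]; simp
      have h7 : q - 4 + 3 = q - 1 := by omega
      rw [h6, h7] at h5
      calc (q : ℝ) ^ 3 = ((q : ℝ) - 4 + 4) ^ 3 := by ring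
        _ ≤ _ := h5
    calc (q : ℝ) ^ 3 * (((q : ℝ) - 1) / (4 * q - 1)) ^ (q - 1)
        ≤ 6 ^ (q - 1) * (1 / 4) ^ (q - 1) :=
          mul_le_mul h3 h2 (by positivity) (by positivity)
      _ = (3 / 2) ^ (q - 1) := by rw [← mul_pow]; norm_num

/-- case `c ≥ 2` -/
lemma numC (hq : 2 ≤ q) (hL : 0 < L) (hLq : L ^ (q - 1) = q) :
    L ^ 4 * (((q : ℝ) - 1) ^ 2 / (q * (5 * q - 1))) ≤ 1 := by
  have hq2 : (2 : ℝ) ≤ q := by exact_mod_cast hq
  have hq1 : 0 < (q : ℝ) - 1 := by linarith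
  have hq0 : 0 < (q : ℝ) := by linarith
  have h5q : 0 < 5 * (q : ℝ) - 1 := by linarith
  have hX : 0 < ((q : ℝ) - 1) ^ 2 / (q * (5 * q - 1)) := by positivity
  refine le_of_pow_le_pow_left₀ (n := q - 1) (by omega) (by norm_num) ?_
  rw [mul_pow, ← pow_mul, mul_comm 4, pow_mul, hLq, one_pow]
  rcases Nat.lt_or_ge q 6 with h | h
  · interval_cases q <;> norm_num
  · have h1 : ((q : ℝ) - 1) ^ 2 / (q * (5 * q - 1)) ≤ 1 / 5 := by
      rw [div_le_div_iff₀ (by positivity) (by norm_num)]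
      nlinarith
    have h2 := pow_le_pow_left₀ hX.le h1 (q - 1)
    have h3 : (q : ℝ) ^ 4 ≤ 5 ^ (q - 1) := by
      have : ∀ m : ℕ, ((m : ℝ) + 6) ^ 4 ≤ 5 ^ (m + 5) := by
        intro m
        induction m with
        | zero => norm_num
        | succ m ih =>
          have e : m + 1 + 5 = (m + 5) + 1 := by ring
          rw [e, pow_succ (5 : ℝ)]
          push_cast
          have hm : (0 : ℝ) ≤ m := Nat.cast_nonneg _
          have h5 : ((m : ℝ) + 1 + 6) ^ 4 ≤ 5 * ((m : ℝ) + 6) ^ 4 := by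
            nlinarith [mul_nonneg hm hm, mul_nonneg (mul_nonneg hm hm) hm,
              mul_nonneg (mul_nonneg hm hm) (mul_nonneg hm hm)]
          nlinarith
      have h5 := this (q - 6)
      have h6 : ((q - 6 : ℕ) : ℝ) = q - 6 := by
        rw [Nat.cast_sub h]; simp
      have h7 : q - 6 + 5 = q - 1 := by omega
      rw [h6, h7] at h5
      calc (q : ℝ) ^ 4 = ((q : ℝ) - 6 + 6) ^ 4 := by ring
        _ ≤ _ := h5
    calc (q : ℝ) ^ 4 * (((q : ℝ) - 1) ^ 2 / (q * (5 * q - 1))) ^ (q - 1)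
        ≤ 5 ^ (q - 1) * (1 / 5) ^ (q - 1) :=
          mul_le_mul h3 h2 (by positivity) (by positivity)
      _ = 1 := by rw [← mul_pow]; norm_num

end

end Pool.Agent.MP76b19e
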