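import Mathlib

/-! Real inequalities used for the local inequalities (MP_76b19e_co). -/

open Finset

noncomputable section

namespace Pool.Agent.MP76b19e

/-- Bernoulli in the form `(1 - N/A)^d ≤ (1 - d/A)^N` for `d ≤ N`. -/
lemma ber {N d : ℕ} {A : ℝ} (hN : 1 ≤ N) (hd : d ≤ N) (hA : (N : ℝ) ≤ A) :
    ((A - N) / A) ^ d ≤ ((A - d) / A) ^ N := by
  have hN0 : (0 : ℝ) < N := by exact_mod_cast hN
  have hA0 : 0 < A := lt_of_lt_of_le hN0 hA
  have hdN : (d : ℝ) ≤ N := by exact_mod_cast hd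
  have h1 : (A - N) / A = 1 + (-(N / A)) := by field_simp; ring
  have hs : (-1 : ℝ) ≤ -(N / A) := by
    rw [neg_le_neg_iff, div_le_one hA0]
    exact hA
  have h2 := rpow_one_add_le_one_add_mul_self hs (p := (d : ℝ) / N) (by positivity)
    (by rw [div_le_one hN0]; exact hdN)
  have h3 : 1 + (d : ℝ) / N * -(N / A) = (A - d) / A := by field_simp; ring
  rw [h3, ← h1] at h2
  have h0 : 0 ≤ (A - N) / A := div_nonneg (by linarith) hA0.le
  have h4 := pow_le_pow_left₀ (Real.rpow_nonneg h0 _) h2 N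
  rwa [← Real.rpow_natCast (((A - N) / A) ^ ((d : ℝ) / N)) N, ← Real.rpow_mul h0,
    div_mul_cancel₀ _ hN0.ne', Real.rpow_natCast] at h4

/-- `bq N c a = ∏_{i=1}^c iN / (iN + a)` -/
def bq (N c : ℕ) (a : ℕ) : ℝ := ∏ i ∈ range c, (((i : ℝ) + 1) * N / (((i : ℝ) + 1) * N + a))

lemma bq_pos {N : ℕ} (hN : 1 ≤ N) (c a : ℕ) : 0 < bq N c a := by
  have hN0 : (0 : ℝ) < N := by exact_mod_cast hN
  unfold bq
  refine Finset.prod_pos fun i _ => ?_
  positivity

lemma bq_zero_right {N : ℕ} (hN : 1 ≤ N) (c : ℕ) : bq N c 0 = 1 := by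
  have hN0 : (0 : ℝ) < N := by exact_mod_cast hN
  unfold bq
  refine Finset.prod_eq_one fun i _ => ?_
  rw [Nat.cast_zero, add_zero, div_self]
  positivity

lemma bq_step {N : ℕ} (hN : 1 ≤ N) {a d : ℕ} (hd : d ≤ N) (hda : d ≤ a) (ha : 1 ≤ a) :
    ∀ c : ℕ, (bq N c (a - d)) ^ N ≤ (bq N c a) ^ N * ((c * N + a) / a : ℝ) ^ d
  | 0 => by
    have ha0 : (0 : ℝ) < a := by exact_mod_cast ha
    simp [bq, div_self ha0.ne']
  | c + 1 => by
    have hN0 : (0 : ℝ) < N := by exact_mod_cast hN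
    have ha0 : (0 : ℝ) < a := by exact_mod_cast ha
    have ih := bq_step hN hd hda ha c
    have e1 : bq N (c + 1) (a - d) =
        bq N c (a - d) * (((c : ℝ) + 1) * N / (((c : ℝ) + 1) * N + ((a - d : ℕ) : ℝ))) := by
      rw [bq, Finset.prod_range_succ]; rfl
    have e2 : bq N (c + 1) a =
        bq N c a * (((c : ℝ) + 1) * N / (((c : ℝ) + 1) * N + a)) := by
      rw [bq, Finset.prod_range_succ]; rfl
    rw [e1, e2, mul_pow, mul_pow]
    set A : ℝ := ((c : ℝ) + 1) * N + a with hA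
    have hdN : (d : ℝ) ≤ N := by exact_mod_cast hd
    have hda' : (d : ℝ) ≤ a := by exact_mod_cast hda
    have hc0 : (0 : ℝ) ≤ c := Nat.cast_nonneg c
    have hcN : 0 ≤ (c : ℝ) * N := by positivity
    have hAN : (N : ℝ) ≤ A := by rw [hA]; nlinarith
    have hAN' : 0 < A - N := by rw [hA]; nlinarith
    have hA0 : 0 < A := by linarith
    have hAd : 0 < A - d := by linarith
    have e3 : ((c : ℝ) + 1) * N + ((a - d : ℕ) : ℝ) = A - d := by
      rw [Nat.cast_sub hda, hA]; ring
    have e4 : (c : ℝ) * N + a = A - N := by rw [hA]; ring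
    have e5 : (((c + 1 : ℕ) : ℝ) * N + a) = A := by rw [hA]; push_cast; ring
    rw [e3, e5]
    rw [e4] at ih
    have hb := ber hN hd hAN
    have hM : 0 < ((c : ℝ) + 1) * N := by positivity
    -- factor inequality
    have hf : (((c : ℝ) + 1) * N / (A - d)) ^ N ≤
        (((c : ℝ) + 1) * N / A) ^ N * (A / (A - N)) ^ d := by
      have h1 : (((c : ℝ) + 1) * N / A) ^ N * (A / (A - N)) ^ d =
          (((c : ℝ) + 1) * N / (A - d)) ^ N * (((A - d) / A) ^ N * (A / (A - N)) ^ d) := by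
        rw [← mul_assoc, ← mul_pow]
        congr 2
        field_simp
      rw [h1]
      have h2 : 1 ≤ ((A - d) / A) ^ N * (A / (A - N)) ^ d := by
        calc (1 : ℝ) = ((A - N) / A) ^ d * (A / (A - N)) ^ d := by
              rw [← mul_pow]
              have : (A - N) / A * (A / (A - N)) = 1 := by field_simp
              rw [this, one_pow]
          _ ≤ _ := by
              refine mul_le_mul_of_nonneg_right hb ?_
              positivity
      calc (((c : ℝ) + 1) * N / (A - d)) ^ N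
          = (((c : ℝ) + 1) * N / (A - d)) ^ N * 1 := by rw [mul_one]
        _ ≤ _ := mul_le_mul_of_nonneg_left h2 (by positivity)
    calc bq N c (a - d) ^ N * (((c : ℝ) + 1) * N / (A - d)) ^ N
        ≤ (bq N c a ^ N * ((A - N) / a) ^ d) *
            ((((c : ℝ) + 1) * N / A) ^ N * (A / (A - N)) ^ d) := by
          refine mul_le_mul ih hf (by positivity) ?_
          have := (bq_pos hN c a).le
          positivity
      _ = bq N c a ^ N * (((c : ℝ) + 1) * N / A) ^ N * (((A - N) / a) ^ d * (A / (A - N)) ^ d) := by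
          ring
      _ = bq N c a ^ N * (((c : ℝ) + 1) * N / A) ^ N * (A / a) ^ d := by
          have h9 : (A - N) / a * (A / (A - N)) = A / a := by field_simp
          rw [← mul_pow ((A - (N : ℝ)) / a), h9]

/-- weights of vertices dominated by `t` elements -/
lemma zt {q : ℕ} (hq : 1 ≤ q) : ∀ t : ℕ, 1 ≤ t →
    (q : ℝ) ≤ (1 + ((q : ℝ) - 1) / t) * (2 * q / (q + 1)) ^ (t - 1) := by
  have hq1 : (1 : ℝ) ≤ q := by exact_mod_cast hq
  intro t ht
  induction t, ht using Nat.le_induction with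
  | base => simp
  | succ t ht ih =>
    refine ih.trans ?_
    have ht1 : (1 : ℝ) ≤ t := by exact_mod_cast ht
    have h1 : t + 1 - 1 = (t - 1) + 1 := by omega
    rw [h1, pow_succ, mul_comm ((2 * (q : ℝ) / (q + 1)) ^ (t - 1)), ← mul_assoc]
    refine mul_le_mul_of_nonneg_right ?_ (by positivity)
    push_cast
    have hq0 : (0 : ℝ) < q + 1 := by linarith
    have ht0 : (0 : ℝ) < t := by linarith
    have e1 : 1 + ((q : ℝ) - 1) / t = (t + q - 1) / t := by field_simp; ring
    have e2 : (1 + ((q : ℝ) - 1) / (t + 1)) * (2 * q / (q + 1)) =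
        ((t + q) * (2 * q)) / ((t + 1) * (q + 1)) := by field_simp; ring
    rw [e1, e2, div_le_div_iff₀ ht0 (by positivity)]
    nlinarith [mul_nonneg (sub_nonneg.2 ht1) (mul_nonneg (sub_nonneg.2 hq1) (by linarith : (0:ℝ) ≤ q + 1)),
      mul_nonneg (sub_nonneg.2 ht1) (mul_nonneg ht0.le (sub_nonneg.2 hq1))]

/-- arithmetic-geometric mean inequality for three groups -/
lemma amgm {V : Type*} (S : Finset V) (z : V → ℝ) (y w M : ℝ) (d e N : ℕ) (hz : ∀ v ∈ S, 0 ≤ z v)
    (hy : 0 ≤ y) (hw : 0 ≤ w) (hM : 0 < M) (hN : S.card + d + e = N)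
    (hs : ∑ v ∈ S, z v + d * y + e * w ≤ N * M) :
    (∏ v ∈ S, z v) * y ^ d * w ^ e ≤ M ^ N := by
  have key : ∀ x : ℝ, x ≤ M * Real.exp (x / M - 1) := by
    intro x
    have h1 := Real.add_one_le_exp (x / M - 1)
    have h2 : x / M ≤ Real.exp (x / M - 1) := by linarith
    calc x = M * (x / M) := by field_simp
      _ ≤ _ := mul_le_mul_of_nonneg_left h2 hM.le
  have h1 : ∏ v ∈ S, z v ≤ M ^ S.card * Real.exp (∑ v ∈ S, (z v / M - 1)) := by
    rw [Real.exp_sum, ← Finset.prod_const, ← Finset.prod_mul_distrib]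
    exact Finset.prod_le_prod hz fun v _ => key _
  have h2 : y ^ d ≤ M ^ d * Real.exp (d * (y / M - 1)) := by
    rw [Real.exp_nat_mul, ← mul_pow]
    exact pow_le_pow_left₀ hy (key y) d
  have h3 : w ^ e ≤ M ^ e * Real.exp (e * (w / M - 1)) := by
    rw [Real.exp_nat_mul, ← mul_pow]
    exact pow_le_pow_left₀ hw (key w) e
  have h0 : 0 ≤ ∏ v ∈ S, z v := Finset.prod_nonneg hz
  calc (∏ v ∈ S, z v) * y ^ d * w ^ e
      ≤ (M ^ S.card * Real.exp (∑ v ∈ S, (z v / M - 1))) * (M ^ d * Real.exp (d * (y / M - 1))) *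
          (M ^ e * Real.exp (e * (w / M - 1))) := by
        refine mul_le_mul (mul_le_mul h1 h2 (by positivity) (by positivity)) h3 (by positivity)
          (by positivity)
    _ = M ^ N * Real.exp (∑ v ∈ S, (z v / M - 1) + d * (y / M - 1) + e * (w / M - 1)) := by
        rw [Real.exp_add, Real.exp_add, ← hN, pow_add, pow_add]
        ring
    _ ≤ M ^ N * 1 := by
        refine mul_le_mul_of_nonneg_left ?_ (by positivity)
        rw [Real.exp_le_one_iff, Finset.sum_sub_distrib]
        have e1 : ∑ v ∈ S, z v / M = (∑ v ∈ S, z v) / M := by rw [Finset.sum_div]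
        have e2 : ∑ v ∈ S, (1 : ℝ) = S.card := by simp
        have e3 : (N : ℝ) = S.card + d + e := by rw [← hN]; push_cast; ring
        have h4 : (∑ v ∈ S, z v + d * y + e * w) / M ≤ N := by
          rw [div_le_iff₀ hM]
          exact hs
        have h5 : (∑ v ∈ S, z v + d * y + e * w) / M =
            (∑ v ∈ S, z v) / M + d * (y / M) + e * (w / M) := by ring
        rw [e1, e2]
        rw [h5, e3] at h4
        linarith
    _ = M ^ N := mul_one _

end Pool.Agent.MP76b19e
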