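import Pool.Agent.Lib.MP76b19e.CoreP
import Pool.Agent.Lib.MP76b19e.CoreR

/-! The supersolution for the greedy weights of a local structure (MP_76b19e_co).

A local structure: a finite set `K` (the clique), a finite set `I` (the other vertices), for
`v ∈ I` the set `D v ⊆ K` of non-neighbours of `v` in `K`, and for `k ∈ K` numbers `δ k`, `e k`
of further missed colours, such that `#{v : k ∈ D v} + δ k + e k = N = q - 1`. -/

open Finset

noncomputable section

namespace Pool.Agent.MP76b19e

variable {V : Type*} [DecidableEq V]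

/-- number of possible choices after `T` has been chosen -/
def aD (K I : Finset V) (D : V → Finset V) (T : Finset V) : ℝ :=
  (((K \ T).card + (I.filter (fun v => Disjoint (D v) T)).card : ℕ) : ℝ)

lemma aD_nonneg (K I : Finset V) (D : V → Finset V) (T : Finset V) : 0 ≤ aD K I D T :=
  Nat.cast_nonneg _

lemma aD_pos {K I : Finset V} {D : V → Finset V} {T : Finset V} (hT : T ⊆ K) (hne : T ≠ K) :
    0 < aD K I D T := by
  unfold aD
  have : 0 < (K \ T).card := by
    rw [Finset.card_pos, Finset.sdiff_nonempty]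
    intro h
    exact hne (Finset.Subset.antisymm hT h)
  exact_mod_cast Nat.add_pos_left this _

/-- waste -/
def waste (K I : Finset V) (D : V → Finset V) (δ : V → ℕ) (T : Finset V) : ℕ :=
  ∑ k ∈ K \ T, δ k +
    ∑ v ∈ I, (if Disjoint (D v) T then (D v).card - 1 else (D v \ T).card)

/-- number of dead slots of `k` -/
def dead (I : Finset V) (D : V → Finset V) (δ : V → ℕ) (T : Finset V) (k : V) : ℕ :=
  δ k + (I.filter (fun v => k ∈ D v ∧ ¬ Disjoint (D v) T)).card

/-- the correction factor in exact mode -/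
def th (I : Finset V) (D : V → Finset V) (e : V → ℕ) (k : V) : ℝ :=
  1 + (e k : ℝ) / (1 + (I.filter (fun v => D v = {k})).card)

/-- the potential without the factor for undominated vertices -/
def Gp (K I : Finset V) (D : V → Finset V) (δ e : V → ℕ) (q : ℕ) (L H : ℝ) (T : Finset V) : ℝ :=
  (∏ k ∈ K \ T, ((q : ℝ)⁻¹ * L ^ (δ k) * th I D e k)) *
    ∏ v ∈ I, (if Disjoint (D v) T then (L * H) ^ ((D v).card - 1) else L ^ ((D v \ T).card))

/-- slot product -/
def Pk (I : Finset V) (D : V → Finset V) (δ : V → ℕ) (L H : ℝ) (T : Finset V) (k : V) : ℝ :=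
  L ^ (δ k) * ∏ v ∈ I.filter (fun v => k ∈ D v),
    (if Disjoint (D v) T then H ^ ((D v).card - 1) else L)

lemma th_pos (I : Finset V) (D : V → Finset V) (e : V → ℕ) (k : V) : 0 < th I D e k := by
  unfold th
  positivity

section
variable {K I : Finset V} {D : V → Finset V} {δ e : V → ℕ} {q : ℕ} {L H : ℝ} {T : Finset V} {k : V}

lemma Gp_pos (hq : 0 < q) (hL : 0 < L) (hH : 0 < H) : 0 < Gp K I D δ e q L H T := by
  unfold Gp
  have hq' : (0 : ℝ) < q := by exact_mod_cast hq
  refine mul_pos (Finset.prod_pos fun k _ => ?_) (Finset.prod_pos fun v _ => ?_)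
  · have := th_pos I D e k
    positivity
  · split_ifs <;> positivity

lemma Pk_pos (hL : 0 < L) (hH : 0 < H) : 0 < Pk I D δ L H T k := by
  unfold Pk
  refine mul_pos (by positivity) (Finset.prod_pos fun v _ => ?_)
  split_ifs <;> positivity

lemma disjoint_insert_iff {S : Finset V} : Disjoint S (insert k T) ↔ k ∉ S ∧ Disjoint S T := by
  rw [Finset.disjoint_insert_right]

lemma Gp_insert (hk : k ∈ K \ T) :
    Gp K I D δ e q L H T =
      Gp K I D δ e q L H (insert k T) * ((q : ℝ)⁻¹ * th I D e k * Pk I D δ L H T k) := by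
  unfold Gp Pk
  have h1 : K \ insert k T = (K \ T).erase k := by
    ext x; simp only [Finset.mem_sdiff, Finset.mem_insert, Finset.mem_erase]; tauto
  have h2 : ∏ x ∈ K \ T, ((q : ℝ)⁻¹ * L ^ (δ x) * th I D e x) =
      ((q : ℝ)⁻¹ * L ^ (δ k) * th I D e k) *
        ∏ x ∈ (K \ T).erase k, ((q : ℝ)⁻¹ * L ^ (δ x) * th I D e x) :=
    (Finset.mul_prod_erase _ _ hk).symm
  have h3 : ∏ v ∈ I, (if Disjoint (D v) T then (L * H) ^ ((D v).card - 1)
        else L ^ ((D v \ T).card)) =
      (∏ v ∈ I, (if Disjoint (D v) (insert k T) then (L * H) ^ ((D v).card - 1)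
        else L ^ ((D v \ insert k T).card))) *
      ∏ v ∈ I.filter (fun v => k ∈ D v), (if Disjoint (D v) T then H ^ ((D v).card - 1) else L) := by
    rw [Finset.prod_filter, ← Finset.prod_mul_distrib]
    refine Finset.prod_congr rfl fun v _ => ?_
    have hkT : k ∉ T := (Finset.mem_sdiff.1 hk).2
    by_cases hkv : k ∈ D v
    · have hnd : ¬ Disjoint (D v) (insert k T) := by
        rw [disjoint_insert_iff]
        exact fun h => h.1 hkv
      rw [if_neg hnd, if_pos hkv]
      have h4 : D v \ insert k T = (D v \ T).erase k := by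
        ext x; simp only [Finset.mem_sdiff, Finset.mem_insert, Finset.mem_erase]; tauto
      have h5 : k ∈ D v \ T := Finset.mem_sdiff.2 ⟨hkv, hkT⟩
      have h6 : 0 < (D v \ T).card := Finset.card_pos.2 ⟨k, h5⟩
      rw [h4, Finset.card_erase_of_mem h5]
      by_cases hd : Disjoint (D v) T
      · rw [if_pos hd, if_pos hd, Finset.sdiff_eq_self_of_disjoint hd, mul_pow]
      · rw [if_neg hd, if_neg hd, ← pow_succ]
        congr 1
        omega
    · have h4 : D v \ insert k T = D v \ T := by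
        ext x; simp only [Finset.mem_sdiff, Finset.mem_insert]
        constructor
        · rintro ⟨h, h'⟩; exact ⟨h, fun hx => h' (Or.inr hx)⟩
        · rintro ⟨h, h'⟩
          refine ⟨h, ?_⟩
          rintro (rfl | hx)
          · exact hkv h
          · exact h' hx
      have h5 : Disjoint (D v) (insert k T) ↔ Disjoint (D v) T := by
        rw [disjoint_insert_iff]; tauto
      rw [if_neg hkv, mul_one, h4]
      simp only [h5]
  rw [h2, h3, h1]
  ring

lemma waste_insert (hk : k ∈ K \ T) :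
    waste K I D δ T = waste K I D δ (insert k T) + dead I D δ T k := by
  unfold waste dead
  have h1 : K \ insert k T = (K \ T).erase k := by
    ext x; simp only [Finset.mem_sdiff, Finset.mem_insert, Finset.mem_erase]; tauto
  have h2 : ∑ x ∈ K \ T, δ x = δ k + ∑ x ∈ (K \ T).erase k, δ x :=
    (Finset.add_sum_erase _ _ hk).symm
  have h3 : ∑ v ∈ I, (if Disjoint (D v) T then (D v).card - 1 else (D v \ T).card) =
      (∑ v ∈ I, (if Disjoint (D v) (insert k T) then (D v).card - 1
        else (D v \ insert k T).card)) +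
      (I.filter (fun v => k ∈ D v ∧ ¬ Disjoint (D v) T)).card := by
    rw [Finset.card_filter, ← Finset.sum_add_distrib]
    refine Finset.sum_congr rfl fun v _ => ?_
    have hkT : k ∉ T := (Finset.mem_sdiff.1 hk).2
    by_cases hkv : k ∈ D v
    · have hnd : ¬ Disjoint (D v) (insert k T) := by
        rw [disjoint_insert_iff]
        exact fun h => h.1 hkv
      rw [if_neg hnd]
      have h4 : D v \ insert k T = (D v \ T).erase k := by
        ext x; simp only [Finset.mem_sdiff, Finset.mem_insert, Finset.mem_erase]; tauto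
      have h5 : k ∈ D v \ T := Finset.mem_sdiff.2 ⟨hkv, hkT⟩
      have h6 : 0 < (D v \ T).card := Finset.card_pos.2 ⟨k, h5⟩
      rw [h4, Finset.card_erase_of_mem h5]
      by_cases hd : Disjoint (D v) T
      · rw [if_pos hd, if_neg (by tauto), Finset.sdiff_eq_self_of_disjoint hd, add_zero]
      · rw [if_neg hd, if_pos ⟨hkv, hd⟩]
        omega
    · have h4 : D v \ insert k T = D v \ T := by
        ext x; simp only [Finset.mem_sdiff, Finset.mem_insert]
        constructor
        · rintro ⟨h, h'⟩; exact ⟨h, fun hx => h' (Or.inr hx)⟩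
        · rintro ⟨h, h'⟩
          refine ⟨h, ?_⟩
          rintro (rfl | hx)
          · exact hkv h
          · exact h' hx
      have h5 : Disjoint (D v) (insert k T) ↔ Disjoint (D v) T := by
        rw [disjoint_insert_iff]; tauto
      rw [if_neg (show ¬ (k ∈ D v ∧ ¬ Disjoint (D v) T) by tauto), add_zero, h4]
      simp only [h5]
  rw [h2, h3, h1]
  ring

/-- local gain -/
def gain (I : Finset V) (D : V → Finset V) (T : Finset V) (k : V) : ℝ :=
  ∑ v ∈ I.filter (fun v => k ∈ D v ∧ Disjoint (D v) T), (1 / ((D v).card : ℝ))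

lemma gain_nonneg : 0 ≤ gain I D T k := Finset.sum_nonneg fun _ _ => by positivity

/-- single slots of an unchosen element -/
lemma single_le_gain (hkT : k ∉ T) :
    ((I.filter (fun v => D v = {k})).card : ℝ) ≤ gain I D T k := by
  unfold gain
  have h1 : ((I.filter (fun v => D v = {k})).card : ℝ) =
      ∑ v ∈ I.filter (fun v => D v = {k}), (1 / ((D v).card : ℝ)) := by
    rw [Finset.card_eq_sum_ones]
    push_cast
    refine Finset.sum_congr rfl fun v hv => ?_
    rw [(Finset.mem_filter.1 hv).2]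
    simp
  rw [h1]
  refine Finset.sum_le_sum_of_subset_of_nonneg ?_ fun _ _ _ => by positivity
  intro v hv
  rw [Finset.mem_filter] at hv ⊢
  refine ⟨hv.1, ?_, ?_⟩
  · rw [hv.2]; simp
  · rw [hv.2, Finset.disjoint_singleton_left]
    exact hkT

/-- the inequality for one element -/
lemma slot_ineq (hq : 2 ≤ q) (hL : 0 < L) (hH : 0 < H) (hLq : L ^ (q - 1) = q)
    (hHq : H ^ (q - 1) = 2 * q / (q + 1)) (hk : k ∈ K \ T)
    (hslot : (I.filter (fun v => k ∈ D v)).card + δ k + e k = q - 1) (c : ℕ) :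
    (q : ℝ) * bq (q - 1) c (waste K I D δ (insert k T)) ≤
      (1 + e k + gain I D T k + c * (dead I D δ T k : ℝ) / (waste K I D δ T : ℝ)) *
        Pk I D δ L H T k * bq (q - 1) c (waste K I D δ T) := by
  classical
  set N := q - 1 with hN
  have hN1 : 1 ≤ N := by omega
  have hqN : (q : ℝ) = N + 1 := by
    have : q = N + 1 := by omega
    rw [this]; push_cast; ring
  have hN0 : (0 : ℝ) < N := by exact_mod_cast hN1
  have hq0 : (0 : ℝ) < q := by rw [hqN]; linarith
  have hq1 : (1 : ℝ) ≤ q := by rw [hqN]; linarith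
  set a := waste K I D δ T with ha
  set d := dead I D δ T k with hd
  have hwi := waste_insert (I := I) (D := D) (δ := δ) hk
  have hw : waste K I D δ (insert k T) = a - d := by omega
  have hda : d ≤ a := by omega
  have hg := gain_nonneg (I := I) (D := D) (T := T) (k := k)
  set g := gain I D T k with hgdef
  set M : ℝ := 1 + e k + g + c * (d : ℝ) / (a : ℝ) with hM
  have hcd : 0 ≤ c * (d : ℝ) / (a : ℝ) := by positivity
  have hM0 : 0 < M := by positivity
  have hP := Pk_pos (I := I) (D := D) (δ := δ) (T := T) (k := k) hL hH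
  have hb0 := bq_pos hN1 c a
  have hb1 := bq_pos hN1 c (a - d)
  rw [hw]
  -- the alive slots
  set Sa := I.filter (fun v => k ∈ D v ∧ Disjoint (D v) T) with hSa
  set Sd := I.filter (fun v => k ∈ D v ∧ ¬ Disjoint (D v) T) with hSd
  have hsplit : (I.filter (fun v => k ∈ D v)).card = Sa.card + Sd.card := by
    rw [← Finset.card_filter_add_card_filter_not (s := I.filter (fun v => k ∈ D v))
      (fun v => Disjoint (D v) T), Finset.filter_filter, Finset.filter_filter]
  have hdd : d = δ k + Sd.card := rfl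
  have hslots : Sa.card + d + e k = N := by omega
  have hdN : d ≤ N := by omega
  set zd : ℝ := (c * N + a) / a with hzd
  have hcardpos : ∀ v ∈ Sa, (1 : ℝ) ≤ ((D v).card : ℝ) := by
    intro v hv
    have := (Finset.mem_filter.1 hv).2.1
    exact_mod_cast Finset.card_pos.2 ⟨k, this⟩
  -- rho
  have hrho : (bq N c (a - d)) ^ N ≤ (bq N c a) ^ N * zd ^ d := by
    rcases Nat.eq_zero_or_pos d with h0 | h0
    · rw [h0, Nat.sub_zero, pow_zero, mul_one]
    · exact bq_step hN1 hdN hda (by omega) c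
  have hzd0 : 0 ≤ zd := by rw [hzd]; positivity
  -- AM-GM
  have hdz : (d : ℝ) * zd = d + N * (c * (d : ℝ) / a) := by
    rcases Nat.eq_zero_or_pos d with h0 | h0
    · rw [h0]; simp
    · have ha0 : (0 : ℝ) < a := by
        have : 0 < a := by omega
        exact_mod_cast this
      rw [hzd]; field_simp
      ring
  have hsum : ∑ v ∈ Sa, (1 + ((q : ℝ) - 1) / ((D v).card : ℝ)) + d * zd + e k * q ≤ N * M := by
    rw [Finset.sum_add_distrib, hdz]
    have e1 : ∑ v ∈ Sa, (1 : ℝ) = Sa.card := by simp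
    have e2 : ∑ v ∈ Sa, (((q : ℝ) - 1) / ((D v).card : ℝ)) = N * g := by
      rw [hgdef, gain, Finset.mul_sum]
      refine Finset.sum_congr rfl fun v _ => ?_
      rw [hqN]; ring
    have e3 : (N : ℝ) = Sa.card + d + e k := by rw [← hslots]; push_cast; ring
    rw [e1, e2, hM]
    have e4 : (N : ℝ) * (1 + e k + g + c * (d : ℝ) / a) =
        N + N * e k + N * g + N * (c * (d : ℝ) / a) := by ring
    rw [e4, hqN]
    nlinarith [e3]
  have ham := amgm Sa (fun v => 1 + ((q : ℝ) - 1) / ((D v).card : ℝ)) zd q M d (e k) N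
    (fun v hv => by
      have := hcardpos v hv
      have h2 : 0 ≤ ((q : ℝ) - 1) / ((D v).card : ℝ) := div_nonneg (by linarith) (by linarith)
      linarith) hzd0 hq0.le hM0 hslots hsum
  -- P^N
  have hPN : (Pk I D δ L H T k) ^ N = q ^ d * ∏ v ∈ Sa, (2 * (q : ℝ) / (q + 1)) ^ ((D v).card - 1) := by
    unfold Pk
    have h1 : ∏ v ∈ I.filter (fun v => k ∈ D v),
        (if Disjoint (D v) T then H ^ ((D v).card - 1) else L) =
        (∏ v ∈ Sa, H ^ ((D v).card - 1)) * ∏ v ∈ Sd, L := by
      rw [← Finset.prod_filter_mul_prod_filter_not (I.filter (fun v => k ∈ D v))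
        (fun v => Disjoint (D v) T), Finset.filter_filter, Finset.filter_filter]
      congr 1
      · refine Finset.prod_congr rfl fun v hv => ?_
        rw [if_pos (Finset.mem_filter.1 hv).2.2]
      · refine Finset.prod_congr rfl fun v hv => ?_
        rw [if_neg (Finset.mem_filter.1 hv).2.2]
    rw [h1, Finset.prod_const, mul_pow, mul_pow, ← pow_mul, mul_comm (δ k), pow_mul, hLq,
      ← Finset.prod_pow, ← pow_mul, mul_comm Sd.card, pow_mul, hLq, hdd, pow_add]
    have h2 : ∏ v ∈ Sa, (H ^ ((D v).card - 1)) ^ N =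
        ∏ v ∈ Sa, (2 * (q : ℝ) / (q + 1)) ^ ((D v).card - 1) := by
      refine Finset.prod_congr rfl fun v _ => ?_
      rw [← pow_mul, mul_comm, pow_mul, hHq]
    rw [h2]
    ring
  have hprod : (q : ℝ) ^ Sa.card ≤ (∏ v ∈ Sa, (1 + ((q : ℝ) - 1) / ((D v).card : ℝ))) *
      ∏ v ∈ Sa, (2 * (q : ℝ) / (q + 1)) ^ ((D v).card - 1) := by
    rw [← Finset.prod_mul_distrib, ← Finset.prod_const]
    refine Finset.prod_le_prod (fun _ _ => hq0.le) fun v hv => ?_
    have := (Finset.mem_filter.1 hv).2.1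
    exact zt (by omega) _ (Finset.card_pos.2 ⟨k, this⟩)
  -- combine
  have hR : 0 ≤ M * Pk I D δ L H T k * bq N c a := by positivity
  refine le_of_pow_le_pow_left₀ (n := N) (by omega) hR ?_
  rw [mul_pow, mul_pow, mul_pow, hPN]
  have hqa : (q : ℝ) ^ N = q ^ Sa.card * q ^ d * q ^ (e k) := by
    rw [← pow_add, ← pow_add, hslots]
  have h2 : 0 ≤ ∏ v ∈ Sa, (2 * (q : ℝ) / (q + 1)) ^ ((D v).card - 1) :=
    Finset.prod_nonneg fun v _ => by positivity
  calc (q : ℝ) ^ N * bq N c (a - d) ^ N
      ≤ (q : ℝ) ^ N * ((bq N c a) ^ N * zd ^ d) :=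
        mul_le_mul_of_nonneg_left hrho (by positivity)
    _ = (q ^ Sa.card) * (zd ^ d * q ^ (e k) * q ^ d * (bq N c a) ^ N) := by rw [hqa]; ring
    _ ≤ ((∏ v ∈ Sa, (1 + ((q : ℝ) - 1) / ((D v).card : ℝ))) *
          ∏ v ∈ Sa, (2 * (q : ℝ) / (q + 1)) ^ ((D v).card - 1)) *
          (zd ^ d * q ^ (e k) * q ^ d * (bq N c a) ^ N) :=
        mul_le_mul_of_nonneg_right hprod (by positivity)
    _ = ((∏ v ∈ Sa, (1 + ((q : ℝ) - 1) / ((D v).card : ℝ))) * zd ^ d * q ^ (e k)) *
          (q ^ d * ∏ v ∈ Sa, (2 * (q : ℝ) / (q + 1)) ^ ((D v).card - 1)) * (bq N c a) ^ N := by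
        ring
    _ ≤ M ^ N * (q ^ d * ∏ v ∈ Sa, (2 * (q : ℝ) / (q + 1)) ^ ((D v).card - 1)) *
          (bq N c a) ^ N := by
        refine mul_le_mul_of_nonneg_right (mul_le_mul_of_nonneg_right ham ?_) (by positivity)
        positivity

/-- the potential -/
def Phi (K I : Finset V) (D : V → Finset V) (δ e : V → ℕ) (q : ℕ) (L H : ℝ) (c : ℕ)
    (T : Finset V) : ℝ :=
  Gp K I D δ e q L H T * bq (q - 1) c (waste K I D δ T)

lemma sum_gain (hD : ∀ v ∈ I, D v ⊆ K) :
    ∑ k ∈ K \ T, gain I D T k =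
      ((I.filter (fun v => Disjoint (D v) T ∧ (D v).Nonempty)).card : ℝ) := by
  classical
  unfold gain
  have h1 : ∑ k ∈ K \ T, ∑ v ∈ I.filter (fun v => k ∈ D v ∧ Disjoint (D v) T),
      (1 / ((D v).card : ℝ)) =
      ∑ k ∈ K \ T, ∑ v ∈ I, (if k ∈ D v ∧ Disjoint (D v) T then (1 / ((D v).card : ℝ)) else 0) := by
    refine Finset.sum_congr rfl fun k _ => ?_
    rw [Finset.sum_filter]
  rw [h1, Finset.sum_comm, Finset.card_filter]
  push_cast
  refine Finset.sum_congr rfl fun v hv => ?_
  by_cases hd : Disjoint (D v) T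
  · by_cases hne : (D v).Nonempty
    · rw [if_pos ⟨hd, hne⟩]
      have h2 : ∑ k ∈ K \ T, (if k ∈ D v ∧ Disjoint (D v) T then (1 / ((D v).card : ℝ)) else 0) =
          ∑ k ∈ D v, (1 / ((D v).card : ℝ)) := by
        rw [← Finset.sum_filter]
        refine Finset.sum_congr ?_ fun _ _ => rfl
        ext x
        simp only [Finset.mem_filter, Finset.mem_sdiff]
        constructor
        · rintro ⟨_, h, _⟩; exact h
        · intro hx
          exact ⟨⟨hD v hv hx, fun hxT => Finset.disjoint_left.1 hd hx hxT⟩, hx, hd⟩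
      rw [h2, Finset.sum_const, nsmul_eq_mul]
      have h3 : (0 : ℝ) < (D v).card := by exact_mod_cast Finset.card_pos.2 hne
      field_simp
    · rw [if_neg (fun h => hne h.2)]
      rw [Finset.not_nonempty_iff_eq_empty] at hne
      refine Finset.sum_eq_zero fun k _ => ?_
      rw [if_neg]
      rw [hne]; simp
  · rw [if_neg (fun h => hd h.1)]
    refine Finset.sum_eq_zero fun k _ => ?_
    rw [if_neg (fun h => hd h.2)]

lemma sum_dead_le (hD : ∀ v ∈ I, D v ⊆ K) :
    ∑ k ∈ K \ T, dead I D δ T k ≤ waste K I D δ T := by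
  classical
  unfold dead waste
  rw [Finset.sum_add_distrib]
  refine Nat.add_le_add_left ?_ _
  have h1 : ∑ k ∈ K \ T, (I.filter (fun v => k ∈ D v ∧ ¬ Disjoint (D v) T)).card =
      ∑ k ∈ K \ T, ∑ v ∈ I, (if k ∈ D v ∧ ¬ Disjoint (D v) T then 1 else 0) := by
    refine Finset.sum_congr rfl fun k _ => ?_
    rw [Finset.card_filter]
  rw [h1, Finset.sum_comm]
  refine Finset.sum_le_sum fun v hv => ?_
  by_cases hd : Disjoint (D v) T
  · rw [if_pos hd]
    refine le_trans (le_of_eq ?_) (Nat.zero_le _)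
    refine Finset.sum_eq_zero fun k _ => ?_
    rw [if_neg (fun h => h.2 hd)]
  · rw [if_neg hd, ← Finset.sum_filter, Finset.sum_const, smul_eq_mul, mul_one]
    refine Finset.card_le_card fun x hx => ?_
    simp only [Finset.mem_filter, Finset.mem_sdiff] at hx ⊢
    exact ⟨hx.2.1, hx.1.2⟩

/-- the potential is a supersolution -/
lemma Phi_super (hq : 2 ≤ q) (hL : 0 < L) (hH : 0 < H) (hLq : L ^ (q - 1) = q)
    (hHq : H ^ (q - 1) = 2 * q / (q + 1)) (hD : ∀ v ∈ I, D v ⊆ K)
    (hslot : ∀ k ∈ K, (I.filter (fun v => k ∈ D v)).card + δ k + e k = q - 1) (c : ℕ)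
    (hc : c ≤ (I.filter (fun v => D v = ∅)).card) :
    ∑ k ∈ K \ T, Phi K I D δ e q L H c (insert k T) ≤
      aD K I D T * Phi K I D δ e q L H c T := by
  classical
  have hq0 : (0 : ℝ) < q := by
    have : 0 < q := by omega
    exact_mod_cast this
  have hG := Gp_pos (K := K) (I := I) (D := D) (δ := δ) (e := e) (T := T) (by omega : 0 < q) hL hH
  have hb := bq_pos (by omega : 1 ≤ q - 1) c (waste K I D δ T)
  set a := waste K I D δ T with ha
  -- each term
  have hterm : ∀ k ∈ K \ T, Phi K I D δ e q L H c (insert k T) ≤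
      (1 + gain I D T k + c * (dead I D δ T k : ℝ) / (a : ℝ)) * Phi K I D δ e q L H c T := by
    intro k hk
    have hk' := Finset.mem_sdiff.1 hk
    have h1 := slot_ineq (K := K) hq hL hH hLq hHq hk (hslot k hk'.1) c
    have h2 := Gp_insert (I := I) (D := D) (δ := δ) (e := e) (q := q) (L := L) (H := H) hk
    have hth := th_pos I D e k
    have hP := Pk_pos (I := I) (D := D) (δ := δ) (T := T) (k := k) hL hH
    have hGi := Gp_pos (K := K) (I := I) (D := D) (δ := δ) (e := e) (T := insert k T)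
      (by omega : 0 < q) hL hH
    have hg := gain_nonneg (I := I) (D := D) (T := T) (k := k)
    have hs := single_le_gain (I := I) (D := D) hk'.2
    rw [← ha] at h1
    set g := gain I D T k
    set w : ℝ := c * (dead I D δ T k : ℝ) / (a : ℝ) with hw
    have hw0 : 0 ≤ w := by positivity
    set m : ℝ := ((I.filter (fun v => D v = {k})).card : ℝ) with hm
    have hm0 : 0 ≤ m := Nat.cast_nonneg _
    have h3 : 1 + (e k : ℝ) + g + w ≤ th I D e k * (1 + g + w) := by
      unfold th
      rw [← hm]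
      have h4 : 1 + m ≤ 1 + g + w := by linarith
      have h5 : (e k : ℝ) ≤ (e k : ℝ) / (1 + m) * (1 + g + w) := by
        calc (e k : ℝ) = (e k : ℝ) / (1 + m) * (1 + m) := by field_simp
          _ ≤ _ := mul_le_mul_of_nonneg_left h4 (by positivity)
      nlinarith
    unfold Phi
    rw [h2]
    calc Gp K I D δ e q L H (insert k T) * bq (q - 1) c (waste K I D δ (insert k T))
        = Gp K I D δ e q L H (insert k T) * (q : ℝ)⁻¹ *
            ((q : ℝ) * bq (q - 1) c (waste K I D δ (insert k T))) := by field_simp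
      _ ≤ Gp K I D δ e q L H (insert k T) * (q : ℝ)⁻¹ *
            ((1 + (e k : ℝ) + g + w) * Pk I D δ L H T k * bq (q - 1) c a) :=
          mul_le_mul_of_nonneg_left h1 (by positivity)
      _ ≤ Gp K I D δ e q L H (insert k T) * (q : ℝ)⁻¹ *
            ((th I D e k * (1 + g + w)) * Pk I D δ L H T k * bq (q - 1) c a) := by
          refine mul_le_mul_of_nonneg_left ?_ (by positivity)
          refine mul_le_mul_of_nonneg_right ?_ hb.le
          exact mul_le_mul_of_nonneg_right h3 hP.le
      _ = _ := by ring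
  refine (Finset.sum_le_sum hterm).trans ?_
  rw [← Finset.sum_mul]
  refine mul_le_mul_of_nonneg_right ?_ (by unfold Phi; positivity)
  rw [Finset.sum_add_distrib, Finset.sum_add_distrib, sum_gain hD]
  have e1 : ∑ k ∈ K \ T, (1 : ℝ) = ((K \ T).card : ℝ) := by simp
  have e2 : ∑ k ∈ K \ T, (c * (dead I D δ T k : ℝ) / (a : ℝ)) ≤ c := by
    rw [← Finset.sum_div, ← Finset.mul_sum]
    have h1 := sum_dead_le (δ := δ) (T := T) hD
    have h2 : ∑ k ∈ K \ T, (dead I D δ T k : ℝ) ≤ (a : ℝ) := by exact_mod_cast h1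
    rcases Nat.eq_zero_or_pos a with h0 | h0
    · rw [h0]; simp
    · have ha0 : (0 : ℝ) < a := by exact_mod_cast h0
      rw [div_le_iff₀ ha0]
      exact mul_le_mul_of_nonneg_left h2 (Nat.cast_nonneg _)
  have e3 : (I.filter (fun v => Disjoint (D v) T)).card =
      (I.filter (fun v => Disjoint (D v) T ∧ (D v).Nonempty)).card +
      (I.filter (fun v => D v = ∅)).card := by
    rw [← Finset.card_filter_add_card_filter_not (s := I.filter (fun v => Disjoint (D v) T))
      (fun v => (D v).Nonempty), Finset.filter_filter, Finset.filter_filter]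
    congr 2
    ext v
    simp only [Finset.mem_filter, Finset.not_nonempty_iff_eq_empty]
    constructor
    · rintro ⟨h1, _, h2⟩; exact ⟨h1, h2⟩
    · rintro ⟨h1, h2⟩
      refine ⟨h1, ?_, h2⟩
      rw [h2]; simp
  unfold aD
  rw [e3]
  push_cast
  have hc' : (c : ℝ) ≤ ((I.filter (fun v => D v = ∅)).card : ℝ) := by exact_mod_cast hc
  linarith

lemma Phi_self (hq : 2 ≤ q) (hD : ∀ v ∈ I, D v ⊆ K) (c : ℕ) :
    Phi K I D δ e q L H c K = 1 := by
  unfold Phi Gp
  have h1 : waste K I D δ K = 0 := by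
    unfold waste
    rw [Finset.sdiff_self, Finset.sum_empty, zero_add]
    refine Finset.sum_eq_zero fun v hv => ?_
    have h2 : D v \ K = ∅ := Finset.sdiff_eq_empty_iff_subset.2 (hD v hv)
    rw [h2, Finset.card_empty]
    split_ifs with h
    · have h3 : D v = ∅ := by
        rw [← Finset.disjoint_self_iff_empty]
        exact h.mono_right (hD v hv)
      rw [h3]; simp
    · rfl
  rw [h1, bq_zero_right (by omega), mul_one, Finset.sdiff_self, Finset.prod_empty, one_mul]
  refine Finset.prod_eq_one fun v hv => ?_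
  have h2 : D v \ K = ∅ := Finset.sdiff_eq_empty_iff_subset.2 (hD v hv)
  rw [h2, Finset.card_empty, pow_zero]
  split_ifs with h
  · have h3 : D v = ∅ := by
      rw [← Finset.disjoint_self_iff_empty]
      exact h.mono_right (hD v hv)
    rw [h3]; simp
  · rfl

/-- overlap -/
def ovl (I : Finset V) (D : V → Finset V) : ℕ := ∑ v ∈ I, ((D v).card - 1)

lemma waste_empty : waste K I D δ ∅ = ∑ k ∈ K, δ k + ovl I D := by
  unfold waste ovl
  simp

lemma Gp_empty : Gp K I D δ e q L H ∅ =
    ((q : ℝ)⁻¹) ^ K.card * L ^ (∑ k ∈ K, δ k + ovl I D) * H ^ (ovl I D) *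
      ∏ k ∈ K, th I D e k := by
  unfold Gp ovl
  simp only [Finset.sdiff_empty, Finset.disjoint_empty_right, if_true]
  rw [Finset.prod_mul_distrib, Finset.prod_mul_distrib, Finset.prod_const, Finset.prod_pow_eq_pow_sum,
    Finset.prod_pow_eq_pow_sum, mul_pow, pow_add]
  ring

/-- Main bound for the greedy weights of a local structure. -/
theorem gw_le (hq : 2 ≤ q) (hL : 0 < L) (hH : 0 < H) (hLq : L ^ (q - 1) = q)
    (hHq : H ^ (q - 1) = 2 * q / (q + 1)) (hD : ∀ v ∈ I, D v ⊆ K)
    (hslot : ∀ k ∈ K, (I.filter (fun v => k ∈ D v)).card + δ k + e k = q - 1) (c : ℕ)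
    (hc : c ≤ (I.filter (fun v => D v = ∅)).card) :
    (q : ℝ) ^ K.card * gw (aD K I D) K.card K ≤
      L ^ (∑ k ∈ K, δ k + ovl I D) * H ^ (ovl I D) * (∏ k ∈ K, th I D e k) *
        bq (q - 1) c (∑ k ∈ K, δ k + ovl I D) := by
  have hq0 : (0 : ℝ) < q := by
    have : 0 < q := by omega
    exact_mod_cast this
  have h := super' (α := aD K I D) (Φ := Phi K I D δ e q L H c) (K := K)
    (fun T hT hne => aD_pos hT hne) (gw_nonneg (aD_nonneg K I D))
    (fun T _ _ => Phi_super hq hL hH hLq hHq hD hslot c hc)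
  rw [Phi_self hq hD, mul_one] at h
  unfold Phi at h
  rw [Gp_empty, waste_empty] at h
  calc (q : ℝ) ^ K.card * gw (aD K I D) K.card K
      ≤ (q : ℝ) ^ K.card * (((q : ℝ)⁻¹) ^ K.card * L ^ (∑ k ∈ K, δ k + ovl I D) *
          H ^ (ovl I D) * (∏ k ∈ K, th I D e k) *
          bq (q - 1) c (∑ k ∈ K, δ k + ovl I D)) :=
        mul_le_mul_of_nonneg_left h (by positivity)
    _ = ((q : ℝ) ^ K.card * ((q : ℝ)⁻¹) ^ K.card) * (L ^ (∑ k ∈ K, δ k + ovl I D) *
          H ^ (ovl I D) * (∏ k ∈ K, th I D e k) *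
          bq (q - 1) c (∑ k ∈ K, δ k + ovl I D)) := by ring
    _ = _ := by
        rw [← mul_pow, mul_inv_cancel₀ hq0.ne', one_pow, one_mul]

end

end Pool.Agent.MP76b19e
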