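import Pool.Agent.Lib.MP76b19e.Three

/-! Degree majorization by r-partite graphs (MP_76b19e_co). -/

open Finset

noncomputable section

namespace Pool.Agent.MP76b19e

/-- The degree of the vertex `v`. -/
def deg {n : ℕ} (G : SimpleGraph (Fin n)) (v : Fin n) : ℕ := (G.neighborSet v).ncard

/-- `G` is degree-majorized by `H`: if `σ`, `τ` list the vertices of `G`, `H` by nonincreasing
degree, then the `i`-th degree of `G` is at most the `i`-th degree of `H`. -/
def DegreeMajorized {n : ℕ} (G H : SimpleGraph (Fin n)) : Prop :=
  ∃ σ τ : Equiv.Perm (Fin n), Antitone (fun i => deg G (σ i)) ∧ Antitone (fun i => deg H (τ i)) ∧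
    ∀ i, deg G (σ i) ≤ deg H (τ i)

/-- No `r`-partite graph on `n` vertices degree-majorizes `G`. -/
def NonMajorizable (r : ℕ) {n : ℕ} (G : SimpleGraph (Fin n)) : Prop :=
  ∀ H : SimpleGraph (Fin n), H.Colorable r → ¬ DegreeMajorized G H

/-- The number of cliques with `m` vertices. -/
def cliqueCount {n : ℕ} (G : SimpleGraph (Fin n)) (m : ℕ) : ℕ :=
  {s : Finset (Fin n) | G.IsNClique m s}.ncard

/-- The set of all numbers `c_{r+1}(G)`, where `G` has `n` vertices, maximum degree `k` and is
non-majorizable for `r`. -/
def counts (n k r : ℕ) : Set ℕ :=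
  {c | ∃ G : SimpleGraph (Fin n), IsGreatest (Set.range (deg G)) k ∧ NonMajorizable r G ∧
    cliqueCount G (r + 1) = c}

section
variable {n : ℕ}

lemma deg_eq (G : SimpleGraph (Fin n)) (v : Fin n) : deg G v = (nb G univ v).card := by
  classical
  unfold deg
  rw [← Set.ncard_coe_finset]
  congr 1
  ext u
  simp [mem_nb]

lemma deg_add (G : SimpleGraph (Fin n)) (v : Fin n) : deg G v + (cn G univ v).card = n := by
  rw [deg_eq, add_comm, cn_card_add_nb_card]
  simp

lemma cliqueCount_eq (G : SimpleGraph (Fin n)) (m : ℕ) : cliqueCount G m = (K G univ m).card := by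
  classical
  unfold cliqueCount
  rw [← Set.ncard_coe_finset]
  congr 1
  ext s
  simp [mem_K, SimpleGraph.isNClique_iff, and_comm]

lemma maj_of_thresholds {G H : SimpleGraph (Fin n)}
    (h : ∀ c, (W G univ c).card ≤ (W H univ c).card) : DegreeMajorized G H := by
  classical
  set σ := Tuple.sort (fun v => (cn G univ v).card) with hσ
  set τ := Tuple.sort (fun v => (cn H univ v).card) with hτ
  have hσm : Monotone ((fun v => (cn G univ v).card) ∘ σ) := Tuple.monotone_sort _
  have hτm : Monotone ((fun v => (cn H univ v).card) ∘ τ) := Tuple.monotone_sort _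
  refine ⟨σ, τ, ?_, ?_, ?_⟩
  · intro i j hij
    have h1 := hσm hij
    have h2 := deg_add G (σ i)
    have h3 := deg_add G (σ j)
    simp only [Function.comp] at h1
    change deg G (σ j) ≤ deg G (σ i)
    omega
  · intro i j hij
    have h1 := hτm hij
    have h2 := deg_add H (τ i)
    have h3 := deg_add H (τ j)
    simp only [Function.comp] at h1
    change deg H (τ j) ≤ deg H (τ i)
    omega
  · intro i
    set c := (cn G univ (σ i)).card with hc
    suffices hs : (cn H univ (τ i)).card ≤ c by
      have h2 := deg_add G (σ i)
      have h3 := deg_add H (τ i)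
      omega
    have h1 : (i : ℕ) + 1 ≤ (W G univ c).card := by
      have h2 : (Finset.Iic i).image σ ⊆ W G univ c := by
        intro v hv
        obtain ⟨j, hj, rfl⟩ := Finset.mem_image.1 hv
        refine mem_W.2 ⟨Finset.mem_univ _, ?_⟩
        exact hσm (Finset.mem_Iic.1 hj)
      have h3 := Finset.card_le_card h2
      rw [Finset.card_image_of_injective _ σ.injective, Fin.card_Iic] at h3
      exact h3
    have h2 := h1.trans (h c)
    by_contra hcon
    push Not at hcon
    have h3 : W H univ c ⊆ (Finset.Iio i).image τ := by
      intro v hv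
      refine Finset.mem_image.2 ⟨τ.symm v, ?_, by simp⟩
      rw [Finset.mem_Iio]
      by_contra hge
      push Not at hge
      have h4 := hτm hge
      simp only [Function.comp, Equiv.apply_symm_apply] at h4
      have h5 := (mem_W.1 hv).2
      omega
    have h4 := Finset.card_le_card h3
    rw [Finset.card_image_of_injective _ τ.injective, Fin.card_Iio] at h4
    omega

lemma thresholds_of_maj {G H : SimpleGraph (Fin n)} (h : DegreeMajorized G H) (c : ℕ) :
    (W G univ c).card ≤ (W H univ c).card := by
  classical
  obtain ⟨σ, τ, -, -, h3⟩ := h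
  refine Finset.card_le_card_of_injOn (fun v => τ (σ.symm v)) ?_ ?_
  · intro v hv
    have hv' := (mem_W.1 hv).2
    refine mem_W.2 ⟨Finset.mem_univ _, ?_⟩
    have h4 := h3 (σ.symm v)
    rw [Equiv.apply_symm_apply] at h4
    have h5 := deg_add G v
    have h6 := deg_add H (τ (σ.symm v))
    simp only
    omega
  · intro a _ b _ hab
    simpa using hab

lemma C_sum {V : Type*} {G : SimpleGraph V} {U : Finset V} : ∀ (ps : List ℕ) (a : ℕ),
    C G U a ps → a + ps.sum + 1 ≤ U.card := by
  intro ps
  induction ps with
  | nil => intro a h; simp only [C] at h; simpa using h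
  | cons p ps ih =>
    intro a h
    simp only [C] at h
    have := ih _ h.2
    rw [List.sum_cons]
    omega

/-- the cluster condition implies non-majorizability -/
lemma cert {G : SimpleGraph (Fin n)} {r : ℕ} (ps : List ℕ) (hlen : ps.length = r)
    (hC : C G univ 0 ps) : NonMajorizable r G := by
  classical
  rintro H ⟨f⟩ hmaj
  have hth := thresholds_of_maj hmaj
  have key : ∀ (ps : List ℕ) (a : ℕ) (D : Finset (Fin r)),
      (univ.filter (fun v => f v ∈ D)).card ≤ a → r ≤ D.card + ps.length →
      C G univ a ps → False := by
    intro ps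
    induction ps with
    | nil =>
      intro a D hD hr h
      simp only [C] at h
      have hDu : D = univ := by
        rw [← Finset.card_eq_iff_eq_univ]
        have := Finset.card_le_univ D
        simp only [Fintype.card_fin, List.length_nil, add_zero] at this hr ⊢
        omega
      subst hDu
      simp at hD h
      omega
    | cons p ps ih =>
      intro a D hD hr h
      simp only [C] at h
      have h1 := h.1.trans (hth p)
      obtain ⟨v, hv, hvD⟩ : ∃ v ∈ W H univ p, f v ∉ D := by
        by_contra hcon
        push Not at hcon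
        have h2 : W H univ p ⊆ univ.filter (fun v => f v ∈ D) := by
          intro v hv
          exact Finset.mem_filter.2 ⟨Finset.mem_univ _, hcon v hv⟩
        have := Finset.card_le_card h2
        omega
      refine ih (a + p) (insert (f v) D) ?_ ?_ h.2
      · have h2 : univ.filter (fun u => f u ∈ insert (f v) D) ⊆
            univ.filter (fun u => f u ∈ D) ∪ cn H univ v := by
          intro u hu
          rw [Finset.mem_filter, Finset.mem_insert] at hu
          rcases hu.2 with hu | hu
          · refine Finset.mem_union_right _ (mem_cn.2 ⟨Finset.mem_univ _, fun hadj => ?_⟩)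
            exact f.valid hadj hu.symm
          · exact Finset.mem_union_left _ (Finset.mem_filter.2 ⟨Finset.mem_univ _, hu⟩)
        have h3 := (Finset.card_le_card h2).trans (Finset.card_union_le _ _)
        have h4 := (mem_W.1 hv).2
        omega
      · rw [Finset.card_insert_of_notMem hvD]
        rw [List.length_cons] at hr
        omega
  refine key ps 0 ∅ (by simp) (by simp [hlen]) hC

/-- greedy value -/
def P (G : SimpleGraph (Fin n)) (a : ℕ) : ℕ :=
  sInf {c | a < (W G univ c).card}

/-- greedy list -/
def lst (G : SimpleGraph (Fin n)) : ℕ → ℕ → List ℕ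
  | _, 0 => []
  | a, (m + 1) => P G a :: lst G (a + P G a) m

lemma W_full (G : SimpleGraph (Fin n)) : (W G univ n).card = n := by
  have : W G univ n = univ := by
    ext v
    rw [mem_W]
    refine ⟨fun _ => Finset.mem_univ _, fun _ => ⟨Finset.mem_univ _, ?_⟩⟩
    have := Finset.card_le_univ (cn G univ v)
    simpa using this
  rw [this]
  simp

lemma P_spec (G : SimpleGraph (Fin n)) {a : ℕ} (ha : a < n) : a < (W G univ (P G a)).card :=
  Nat.sInf_mem (s := {c | a < (W G univ c).card}) ⟨n, by
    change a < (W G univ n).card
    rw [W_full]; exact ha⟩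

lemma P_le (G : SimpleGraph (Fin n)) {a c : ℕ} (h : a < (W G univ c).card) : P G a ≤ c :=
  Nat.sInf_le h

lemma P_mono (G : SimpleGraph (Fin n)) {a b : ℕ} (hab : a ≤ b) (hb : b < n) : P G a ≤ P G b :=
  P_le G (lt_of_le_of_lt hab (P_spec G hb))

lemma lst_length (G : SimpleGraph (Fin n)) : ∀ (m a : ℕ), (lst G a m).length = m := by
  intro m
  induction m with
  | zero => intro a; rfl
  | succ m ih => intro a; simp [lst, ih]

lemma le_iter (G : SimpleGraph (Fin n)) (m a : ℕ) : a ≤ (fun a => a + P G a)^[m] a := by
  induction m generalizing a with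
  | zero => simp
  | succ m ih =>
    rw [Function.iterate_succ_apply]
    have := ih (a + P G a)
    omega

lemma lst_C (G : SimpleGraph (Fin n)) : ∀ (m a : ℕ), (fun a => a + P G a)^[m] a < n →
    C G univ a (lst G a m) := by
  intro m
  induction m with
  | zero => intro a h; simp only [lst, C]; simpa using h
  | succ m ih =>
    intro a h
    rw [Function.iterate_succ_apply] at h
    simp only [lst, C]
    refine ⟨?_, ih _ h⟩
    have h1 := le_iter G m (a + P G a)
    exact P_spec G (by omega)

lemma lst_mem (G : SimpleGraph (Fin n)) : ∀ (m a : ℕ), (fun a => a + P G a)^[m] a < n →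
    ∀ x ∈ lst G a m, ∀ b ≤ a, P G b ≤ x := by
  intro m
  induction m with
  | zero => intro a _ x hx; simp [lst] at hx
  | succ m ih =>
    intro a h x hx b hb
    have h1 := le_iter G (m + 1) a
    rw [Function.iterate_succ_apply] at h
    simp only [lst, List.mem_cons] at hx
    rcases hx with rfl | hx
    · exact P_mono G hb (by rw [Function.iterate_succ_apply] at h1; omega)
    · exact ih _ h x hx b (by omega)

lemma lst_sorted (G : SimpleGraph (Fin n)) : ∀ (m a : ℕ), (fun a => a + P G a)^[m] a < n →
    (lst G a m).Pairwise (· ≤ ·) := by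
  intro m
  induction m with
  | zero => intro a _; simp [lst]
  | succ m ih =>
    intro a h
    rw [Function.iterate_succ_apply] at h
    simp only [lst, List.pairwise_cons]
    exact ⟨fun x hx => lst_mem G m _ h x hx a (by omega), ih _ h⟩

open Classical in
/-- the block of a vertex -/
def col (G : SimpleGraph (Fin n)) (v : ℕ) : ℕ :=
  sInf {i | v < (fun a => a + P G a)^[i + 1] 0}

lemma extraction {G : SimpleGraph (Fin n)} {r : ℕ} (hr : 1 ≤ r) (hG : NonMajorizable r G) :
    (fun a => a + P G a)^[r] 0 < n := by
  classical
  by_contra hcon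
  push Not at hcon
  set f := (fun a => a + P G a) with hf
  have hne : ∀ v : ℕ, v < n → v < f^[r - 1 + 1] 0 := by
    intro v hv
    have : r - 1 + 1 = r := by omega
    rw [this]
    omega
  have hcol : ∀ v : ℕ, v < n → v < f^[col G v + 1] 0 := by
    intro v hv
    exact Nat.sInf_mem (s := {i | v < f^[i + 1] 0}) ⟨r - 1, hne v hv⟩
  have hcolr : ∀ v : ℕ, v < n → col G v < r := by
    intro v hv
    have : col G v ≤ r - 1 := Nat.sInf_le (hne v hv)
    omega
  have hcolge : ∀ v : ℕ, f^[col G v] 0 ≤ v := by
    intro v
    rcases Nat.eq_zero_or_pos (col G v) with h0 | hpos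
    · rw [h0]; simp
    · by_contra hlt
      push Not at hlt
      have h1 : col G v - 1 ∈ {i | v < f^[i + 1] 0} := by
        change v < f^[col G v - 1 + 1] 0
        rw [Nat.sub_add_cancel hpos]
        exact hlt
      have h2 : col G v ≤ col G v - 1 := Nat.sInf_le h1
      omega
  let H : SimpleGraph (Fin n) :=
    { Adj := fun u v => col G u ≠ col G v
      symm := ⟨fun u v h => h.symm⟩
      loopless := ⟨fun u h => h rfl⟩ }
  have hHadj : ∀ u v : Fin n, H.Adj u v ↔ col G u ≠ col G v := fun u v => Iff.rfl
  refine hG H ?_ (maj_of_thresholds ?_)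
  · refine ⟨SimpleGraph.Coloring.mk (fun v : Fin n => (⟨col G v, hcolr v v.2⟩ : Fin r)) ?_⟩
    intro u v huv h
    exact huv (by simpa using h)
  · intro c
    have hcn : ∀ v : Fin n, (cn H univ v).card ≤ P G (f^[col G v] 0) := by
      intro v
      set a := f^[col G v] 0 with ha
      have h1 : (cn H univ v).card ≤ (Finset.Ico a (a + P G a)).card := by
        refine Finset.card_le_card_of_injOn (fun u : Fin n => (u : ℕ)) ?_ ?_
        · intro u hu
          have hu' := (mem_cn.1 hu).2
          rw [hHadj] at hu'
          push Not at hu'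
          rw [Finset.mem_coe, Finset.mem_Ico]
          refine ⟨?_, ?_⟩
          · rw [ha, hu']
            exact hcolge u
          · have h2 := hcol u u.2
            rw [← hu', Function.iterate_succ_apply'] at h2
            exact h2
        · intro u _ w _ h
          exact Fin.ext h
      rw [Nat.card_Ico] at h1
      omega
    have hle : (W G univ c).card ≤ n := by
      have := Finset.card_le_univ (W G univ c)
      simpa using this
    have h1 : (univ.filter (fun v : Fin n => (v : ℕ) < (W G univ c).card)).card =
        (W G univ c).card := by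
      have : (univ.filter (fun v : Fin n => (v : ℕ) < (W G univ c).card)).card =
          (Finset.range (W G univ c).card).card := by
        refine Finset.card_bij (fun v _ => (v : ℕ)) ?_ ?_ ?_
        · intro v hv
          simpa using hv
        · intro u _ w _ h
          exact Fin.ext h
        · intro b hb
          rw [Finset.mem_range] at hb
          exact ⟨⟨b, by omega⟩, by simpa using hb, rfl⟩
      rw [this, Finset.card_range]
    rw [← h1]
    apply Finset.card_le_card
    intro v hv
    rw [Finset.mem_filter] at hv
    refine mem_W.2 ⟨Finset.mem_univ _, (hcn v).trans (P_le G ?_)⟩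
    exact lt_of_le_of_lt (hcolge v) hv.2

end

end Pool.Agent.MP76b19e
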