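import Pool.Agent.Lib.MP76b19e.Strict

/-! The lower bound for lists with one equality (MP_76b19e_co). -/

open Finset

noncomputable section

namespace Pool.Agent.MP76b19e

section
variable {V : Type*} {G : SimpleGraph V}

lemma self_mem_cn {U : Finset V} {v : V} (hv : v ∈ U) : v ∈ cn G U v :=
  mem_cn.2 ⟨hv, G.loopless.irrefl v⟩

lemma cn_card_lt {U U' : Finset V} (h : U' ⊆ U) {v w : V} (hw : w ∈ cn G U v) (hw' : w ∉ U') :
    (cn G U' v).card + 1 ≤ (cn G U v).card := by
  apply Finset.card_lt_card
  refine ⟨cn_mono h v, fun hsub => hw' ?_⟩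
  exact (mem_cn.1 (hsub hw)).1

lemma singleton_mem_K {U : Finset V} {v : V} (hv : v ∈ U) : ({v} : Finset V) ∈ K G U 1 :=
  mem_K.2 ⟨by simpa using hv, by simp, by simp⟩

lemma pair_mem_K [DecidableEq V] {U : Finset V} {a b : V} (ha : a ∈ U) (hb : b ∈ U)
    (hab : G.Adj a b) : ({b, a} : Finset V) ∈ K G U 2 := by
  refine insert_clique (singleton_mem_K ha) hb ?_
  intro t ht
  rw [Finset.mem_singleton.1 ht]
  exact hab

lemma triple_mem_K [DecidableEq V] {U : Finset V} {a b c : V} (ha : a ∈ U) (hb : b ∈ U)
    (hc : c ∈ U) (hab : G.Adj a b) (hac : G.Adj a c) (hbc : G.Adj b c) :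
    ({c, b, a} : Finset V) ∈ K G U 3 := by
  refine insert_clique (pair_mem_K ha hb hab) hc ?_
  intro t ht
  rcases Finset.mem_insert.1 ht with rfl | ht
  · exact hbc
  · rw [Finset.mem_singleton.1 ht]
    exact hac

/-- the set of common neighbours of a triple -/
lemma comN_triple [DecidableEq V] {U : Finset V} {a b c : V} :
    U.card ≤ (comN G U {c, b, a}).card + (cn G U a ∪ (cn G U b ∪ cn G U c)).card := by
  have h : U ⊆ comN G U {c, b, a} ∪ (cn G U a ∪ (cn G U b ∪ cn G U c)) := by
    intro u hu
    by_cases h : G.Adj a u ∧ G.Adj b u ∧ G.Adj c u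
    · refine Finset.mem_union_left _ (mem_comN.2 ⟨hu, ?_⟩)
      intro t ht
      simp only [Finset.mem_insert, Finset.mem_singleton] at ht
      rcases ht with rfl | rfl | rfl
      · exact h.2.2
      · exact h.2.1
      · exact h.1
    · refine Finset.mem_union_right _ ?_
      simp only [Finset.mem_union, mem_cn]
      tauto
  exact (Finset.card_le_card h).trans (Finset.card_union_le _ _)

lemma special3 [DecidableEq V] {Q P : ℕ} (hQP : Q < P) {U A : Finset V} (hA : A ⊆ W G U Q)
    (hAc : A.card = Q + 1)
    (hfail : ∀ x ∈ A, ∀ y ∈ U, y ∉ A → ∃ z ∈ A, G.Adj x z ∧ G.Adj y z)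
    (hWP : 2 * Q + 1 ≤ (W G U P).card) (hU : 2 * Q + P + 1 ≤ U.card) :
    Q ≤ (K G U 4).card := by
  have hAU : A ⊆ U := fun a ha => (mem_W.1 (hA ha)).1
  have hAQ : ∀ a ∈ A, (cn G U a).card ≤ Q := fun a ha => (mem_W.1 (hA ha)).2
  by_cases hbad : ∃ x ∈ A, ∀ x' ∈ A, x' ≠ x → G.Adj x x'
  · obtain ⟨x, hx, hxA⟩ := hbad
    have hsub : nb G U x ⊆ U := nb_subset
    have hcard := card_nb_of_W (hA hx)
    have h := lemG (nb G U x) {∅} 0 0 Q P [] (by simpa using hQP) Q G (A.erase x)
      (by rw [Finset.card_erase_of_mem hx, hAc]; omega) ?_ ?_ ?_ ?_ ?_ ?_ ?_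
    · have h2 := K_split (G := G) (hAU hx) 3
      have h3 := Finset.card_filter_le (K G (nb G U x) (0 + 1 + (([] : List ℕ).length + 1) + 1))
        (fun s => ∃ T ∈ ({∅} : Finset (Finset V)), T ⊆ s)
      simp only [List.length_nil] at h3 h
      norm_num at h3 h h2
      omega
    · intro a ha
      rw [Finset.mem_erase] at ha
      exact mem_nb.2 ⟨hAU ha.2, hxA a ha.2 ha.1⟩
    · intro T hT
      rw [Finset.mem_singleton.1 hT]
      exact mem_K.2 ⟨by simp, by simp, by simp⟩
    · intro T hT
      rw [Finset.mem_singleton.1 hT]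
      have : comN G (nb G U x) ∅ = nb G U x := by
        ext u
        rw [mem_comN]
        simp
      rw [this]
      simp
    · intro T hT
      rw [Finset.mem_singleton.1 hT]
      simp
    · intro y hy
      exact (Finset.card_le_card (cn_mono hsub y)).trans (hAQ y (Finset.mem_erase.1 hy).2)
    · intro y _
      exact ⟨∅, by simp, by simp⟩
    · simp only [C]
      have := W_card_sub (G := G) (p := P) hsub hcard
      omega
  · push Not at hbad
    set B : Finset V := W G U P \ A with hB
    have hBc : Q ≤ B.card := by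
      have := Finset.le_card_sdiff A (W G U P)
      rw [hB]
      omega
    set KK : Finset (Finset V) := (K G U 4).filter (fun s => 2 ≤ (s ∩ A).card) with hKK
    have hBA : Disjoint B A := Finset.sdiff_disjoint
    have hup : ∀ s ∈ KK, (B.filter (fun y => y ∈ s)).card ≤ 2 := by
      intro s hs
      rw [hKK, Finset.mem_filter] at hs
      have h1 := (mem_K.1 hs.1).2.1
      have h2 : B.filter (fun y => y ∈ s) ⊆ s \ (s ∩ A) := by
        intro u hu
        rw [Finset.mem_filter] at hu
        rw [Finset.mem_sdiff, Finset.mem_inter]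
        exact ⟨hu.2, fun h => Finset.disjoint_left.1 hBA hu.1 h.2⟩
      have h3 := Finset.card_le_card h2
      have h4 := Finset.card_sdiff_add_card_eq_card (Finset.inter_subset_left : s ∩ A ⊆ s)
      omega
    have hlow : ∀ y ∈ B, 2 ≤ (KK.filter (fun s => y ∈ s)).card := by
      intro y hy
      have hyW : y ∈ W G U P := (Finset.mem_sdiff.1 hy).1
      have hyA : y ∉ A := (Finset.mem_sdiff.1 hy).2
      have hyU : y ∈ U := (mem_W.1 hyW).1
      have hyP : (cn G U y).card ≤ P := (mem_W.1 hyW).2
      obtain ⟨x, hx⟩ : A.Nonempty := Finset.card_pos.1 (by omega)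
      obtain ⟨z1, hz1, hxz1, hyz1⟩ := hfail x hx y hyU hyA
      obtain ⟨z2, hz2, hz12, hyz2⟩ := hfail z1 hz1 y hyU hyA
      -- building members of KK
      have hbuild : ∀ a ∈ A, ∀ b ∈ A, G.Adj a b → G.Adj y a → G.Adj y b →
          ∀ w ∈ comN G U {y, b, a}, insert w ({y, b, a} : Finset V) ∈ KK := by
        intro a ha b hb hab hya hyb w hw
        have h3 : ({y, b, a} : Finset V) ∈ K G U 3 :=
          triple_mem_K (hAU ha) (hAU hb) hyU hab hya.symm hyb.symm
        rw [hKK, Finset.mem_filter]
        refine ⟨insert_clique h3 (mem_comN.1 hw).1 (mem_comN.1 hw).2, ?_⟩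
        have hsub : ({b, a} : Finset V) ⊆ insert w ({y, b, a} : Finset V) ∩ A := by
          intro u hu
          simp only [Finset.mem_insert, Finset.mem_singleton] at hu
          rw [Finset.mem_inter]
          rcases hu with rfl | rfl
          · exact ⟨by simp, hb⟩
          · exact ⟨by simp, ha⟩
        calc 2 = ({b, a} : Finset V).card := (Finset.card_pair hab.ne').symm
          _ ≤ _ := Finset.card_le_card hsub
      have hnotin : ∀ a b w : V, w ∈ comN G U {y, b, a} → w ∉ ({y, b, a} : Finset V) := by
        intro a b w hw h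
        exact G.loopless.irrefl w ((mem_comN.1 hw).2 w h)
      have hU3 := comN_triple (G := G) (U := U) (a := z1) (b := z2) (c := y)
      have hq1 := hAQ z1 hz1
      have hq2 := hAQ z2 hz2
      have hun2 := Finset.card_union_le (cn G U z2) (cn G U y)
      have hun := Finset.card_union_add_card_inter (cn G U z1) (cn G U z2 ∪ cn G U y)
      suffices hsuff : ∃ s ∈ KK, ∃ s' ∈ KK, y ∈ s ∧ y ∈ s' ∧ s ≠ s' by
        obtain ⟨s, hs, s', hs', hys, hys', hne⟩ := hsuff
        have : ({s, s'} : Finset (Finset V)) ⊆ KK.filter (fun s => y ∈ s) := by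
          intro t ht
          simp only [Finset.mem_insert, Finset.mem_singleton] at ht
          rw [Finset.mem_filter]
          rcases ht with rfl | rfl
          · exact ⟨hs, hys⟩
          · exact ⟨hs', hys'⟩
        calc 2 = ({s, s'} : Finset (Finset V)).card := (Finset.card_pair hne).symm
          _ ≤ _ := Finset.card_le_card this
      obtain ⟨w, hw⟩ : (comN G U {y, z2, z1}).Nonempty := Finset.card_pos.1 (by omega)
      by_cases htwo : 2 ≤ (comN G U {y, z2, z1}).card
      · obtain ⟨w', hw', hww'⟩ := Finset.exists_mem_ne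
          (show 1 < (comN G U {y, z2, z1}).card by omega) w
        refine ⟨_, hbuild z1 hz1 z2 hz2 hz12 hyz1 hyz2 w hw, _,
          hbuild z1 hz1 z2 hz2 hz12 hyz1 hyz2 w' hw', by simp, by simp, ?_⟩
        intro heq
        have h1 : w' ∈ insert w ({y, z2, z1} : Finset V) := by
          rw [heq]; exact Finset.mem_insert_self _ _
        rcases Finset.mem_insert.1 h1 with h1 | h1
        · exact hww' h1
        · exact hnotin _ _ _ hw' h1
      · obtain ⟨x', hx', hx'z1, hnadj⟩ := hbad z1 hz1
        have hx'cn : x' ∈ cn G U z1 := mem_cn.2 ⟨hAU hx', hnadj⟩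
        have hx'not : x' ∉ cn G U z2 ∪ cn G U y := by
          intro h
          have : 0 < (cn G U z1 ∩ (cn G U z2 ∪ cn G U y)).card :=
            Finset.card_pos.2 ⟨x', Finset.mem_inter.2 ⟨hx'cn, h⟩⟩
          omega
        have hx'z2 : G.Adj z2 x' := by
          by_contra h
          exact hx'not (Finset.mem_union_left _ (mem_cn.2 ⟨hAU hx', h⟩))
        have hx'y : G.Adj y x' := by
          by_contra h
          exact hx'not (Finset.mem_union_right _ (mem_cn.2 ⟨hAU hx', h⟩))
        have hU3' := comN_triple (G := G) (U := U) (a := z2) (b := x') (c := y)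
        have hq3 := hAQ x' hx'
        have hun2' := Finset.card_union_le (cn G U x') (cn G U y)
        have hun' := Finset.card_union_le (cn G U z2) (cn G U x' ∪ cn G U y)
        obtain ⟨w', hw'⟩ : (comN G U {y, x', z2}).Nonempty := Finset.card_pos.1 (by omega)
        refine ⟨_, hbuild z1 hz1 z2 hz2 hz12 hyz1 hyz2 w hw, _,
          hbuild z2 hz2 x' hx' hx'z2 hyz2 hx'y w' hw', by simp, by simp, ?_⟩
        intro heq
        have h1 : x' ∈ insert w ({y, z2, z1} : Finset V) := by
          rw [heq]; simp
        simp only [Finset.mem_insert, Finset.mem_singleton] at h1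
        rcases h1 with h1 | h1 | h1 | h1
        · apply hnadj
          rw [h1]
          exact (mem_comN.1 hw).2 z1 (by simp)
        · exact hyA (h1 ▸ hx')
        · exact hnadj (h1 ▸ hz12)
        · exact hx'z1 h1
    have hdc : ∑ y ∈ B, (KK.filter (fun s => y ∈ s)).card =
        ∑ s ∈ KK, (B.filter (fun y => y ∈ s)).card :=
      Finset.sum_card_bipartiteAbove_eq_sum_card_bipartiteBelow (fun y s => y ∈ s)
    have h1 : B.card * 2 ≤ ∑ y ∈ B, (KK.filter (fun s => y ∈ s)).card := by
      rw [← smul_eq_mul]
      exact Finset.card_nsmul_le_sum _ _ _ hlow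
    have h2 : ∑ s ∈ KK, (B.filter (fun y => y ∈ s)).card ≤ KK.card * 2 := by
      rw [← smul_eq_mul]
      exact Finset.sum_le_card_nsmul _ _ _ hup
    have h3 : KK.card ≤ (K G U 4).card := Finset.card_filter_le _ _
    omega

/-- One equality at the start of a strictly increasing list. -/
theorem E1 [DecidableEq V] : ∀ (q : ℕ) (U : Finset V) (ps : List ℕ),
    (q :: ps).Pairwise (· < ·) → C G U 0 (q :: q :: ps) → q ≤ (K G U (ps.length + 3)).card := by
  intro q
  induction q with
  | zero => intro U ps _ _; omega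
  | succ q ih =>
  intro U ps hps hC
  have hC' := hC
  simp only [C] at hC'
  obtain ⟨-, hW, hC2⟩ := hC'
  obtain ⟨A, hAW, hAc⟩ := Finset.exists_subset_card_eq (s := W G U (q + 1)) (n := q + 2)
    (by omega)
  have hAU : A ⊆ U := fun a ha => (mem_W.1 (hAW ha)).1
  have hAQ : ∀ a ∈ A, (cn G U a).card ≤ q + 1 := fun a ha => (mem_W.1 (hAW ha)).2
  by_cases hnf : ∃ x ∈ A, ∃ y ∈ U, y ∉ A ∧ ∀ z ∈ A, ¬ (G.Adj x z ∧ G.Adj y z)
  · obtain ⟨x, hx, y, hyU, hyA, hxy⟩ := hnf
    have hxy' : y ≠ x := fun h => hyA (h ▸ hx)
    set U' := (U.erase x).erase y with hU'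
    have hU'U : U' ⊆ U := (Finset.erase_subset _ _).trans (Finset.erase_subset _ _)
    have hxU' : x ∉ U' := by simp [hU']
    have hyU' : y ∉ U' := by simp [hU']
    have hcardU : U.card ≤ U'.card + 2 := by
      rw [hU', Finset.card_erase_of_mem (Finset.mem_erase.2 ⟨hxy', hyU⟩),
        Finset.card_erase_of_mem (hAU hx)]
      omega
    have hA' : A.erase x ⊆ W G U' q := by
      intro v hv
      rw [Finset.mem_erase] at hv
      have hvU' : v ∈ U' := by
        rw [hU', Finset.mem_erase, Finset.mem_erase]
        exact ⟨fun h => hyA (h ▸ hv.2), hv.1, hAU hv.2⟩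
      refine mem_W.2 ⟨hvU', ?_⟩
      have h1 := hAQ v hv.2
      have h2 := hxy v hv.2
      by_cases h3 : G.Adj x v
      · have h4 : ¬ G.Adj y v := fun h => h2 ⟨h3, h⟩
        have h5 : y ∈ cn G U v := mem_cn.2 ⟨hyU, fun h => h4 h.symm⟩
        have := cn_card_lt hU'U h5 hyU'
        omega
      · have h5 : x ∈ cn G U v := mem_cn.2 ⟨hAU hx, fun h => h3 h.symm⟩
        have := cn_card_lt hU'U h5 hxU'
        omega
    have hA'c : (A.erase x).card = q + 1 := by
      rw [Finset.card_erase_of_mem hx, hAc]
      omega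
    have hW' := Finset.card_le_card hA'
    have hCU' : C G U' 0 (q :: q :: ps) := by
      simp only [C]
      refine ⟨by omega, by omega, ?_⟩
      refine C_sub hU'U hcardU ps _ ?_
      have : 0 + q + q + 2 = 0 + (q + 1) + (q + 1) := by ring
      rw [this]
      exact hC2
    have hIH := ih U' ps (by
      rw [List.pairwise_cons] at hps ⊢
      exact ⟨fun a ha => (Nat.lt_succ_self q).trans (hps.1 a ha), hps.2⟩) hCU'
    have hcx : U'.card ≤ (nb G U' x).card + q := by
      have h1 := cn_card_add_nb_card (G := G) U' x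
      have h2 := cn_card_lt hU'U (self_mem_cn (G := G) (hAU hx)) hxU'
      have h3 := hAQ x hx
      omega
    have hCn : C G (nb G U' x) 0 (q :: ps) := by
      refine C_sub nb_subset hcx _ 0 ?_
      simp only [C] at hCU' ⊢
      exact ⟨hCU'.2.1, hCU'.2.2⟩
    have hgr := Finset.card_pos.2 (greedy _ _ hCn)
    have hsp := K_split (G := G) (hAU hx) (ps.length + 2)
    have h1 : (K G U' (ps.length + 3)).card ≤ (K G (U.erase x) (ps.length + 2 + 1)).card :=
      Finset.card_le_card (K_mono (Finset.erase_subset _ _) _)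
    have h2 : (K G (nb G U' x) (ps.length + 2)).card ≤ (K G (nb G U x) (ps.length + 2)).card := by
      refine Finset.card_le_card (K_mono ?_ _)
      intro u hu
      rw [mem_nb] at hu ⊢
      exact ⟨hU'U hu.1, hu.2⟩
    have h3 : (q :: ps).length + 1 = ps.length + 2 := by simp
    rw [h3] at hgr
    have h4 : ps.length + 3 = ps.length + 2 + 1 := by ring
    rw [h4] at hIH h1 ⊢
    omega
  · push Not at hnf
    have hfail : ∀ x ∈ A, ∀ y ∈ U, y ∉ A → ∃ z ∈ A, G.Adj x z ∧ G.Adj y z := by
      intro x hx y hy hyA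
      obtain ⟨z, hz, h⟩ := hnf x hx y hy hyA
      exact ⟨z, hz, h⟩
    have htri : ∀ y ∈ U, y ∉ A → ∃ z1 ∈ A, ∃ z2 ∈ A, G.Adj z1 z2 ∧ G.Adj y z1 ∧ G.Adj y z2 := by
      intro y hy hyA
      obtain ⟨x, hx⟩ : A.Nonempty := Finset.card_pos.1 (by omega)
      obtain ⟨z1, hz1, _, hyz1⟩ := hfail x hx y hy hyA
      obtain ⟨z2, hz2, hz12, hyz2⟩ := hfail z1 hz1 y hy hyA
      exact ⟨z1, hz1, z2, hz2, hz12, hyz1, hyz2⟩
    match ps, hps, hC2 with
    | [], _, hC2 =>
      simp only [C] at hC2
      have hBc : q + 1 ≤ (U \ A).card := by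
        have := Finset.le_card_sdiff A U
        omega
      refine hBc.trans ?_
      choose! f hf g hg hfg hyf hyg using htri
      refine Finset.card_le_card_of_injOn (fun y => ({y, g y, f y} : Finset V)) ?_ ?_
      · intro y hy
        have hyU := (Finset.mem_sdiff.1 hy).1
        have hyA := (Finset.mem_sdiff.1 hy).2
        exact triple_mem_K (hAU (hf y hyU hyA)) (hAU (hg y hyU hyA)) hyU (hfg y hyU hyA)
          (hyf y hyU hyA).symm (hyg y hyU hyA).symm
      · intro y hy y' hy' hyy'
        have hyU := (Finset.mem_sdiff.1 hy).1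
        have hyA := (Finset.mem_sdiff.1 hy).2
        have hyU' := (Finset.mem_sdiff.1 hy').1
        have hyA' := (Finset.mem_sdiff.1 hy').2
        have h1 : y ∈ ({y', g y', f y'} : Finset V) := by
          simp only at hyy'
          rw [← hyy']
          simp
        simp only [Finset.mem_insert, Finset.mem_singleton] at h1
        rcases h1 with h1 | h1 | h1
        · exact h1
        · exact absurd (h1 ▸ hg y' hyU' hyA') hyA
        · exact absurd (h1 ▸ hf y' hyU' hyA') hyA
    | [P], hps, hC2 =>
      simp only [C] at hC2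
      refine special3 (Q := q + 1) (P := P) ?_ hAW hAc hfail (by omega) (by omega)
      rw [List.pairwise_cons] at hps
      exact hps.1 P (by simp)
    | (P :: P' :: rest), hps, hC2 =>
      simp only [C] at hC2
      have hP : ∀ x ∈ P' :: rest, P < x := by
        rw [List.pairwise_cons, List.pairwise_cons] at hps
        exact hps.2.1
      have h := lemG U (K G A 2) 2 (q + 1 + (q + 1)) P P' rest hP
        ((W G U P) \ A).card G ((W G U P) \ A) rfl ?_ ?_ ?_ ?_ ?_ ?_ ?_
      · have hBc : q + 1 ≤ ((W G U P) \ A).card := by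
          have := Finset.le_card_sdiff A (W G U P)
          omega
        have h2 := Finset.card_filter_le (K G U (2 + 1 + (rest.length + 1) + 1))
          (fun s => ∃ T ∈ K G A 2, T ⊆ s)
        have h3 : (P :: P' :: rest).length + 3 = 2 + 1 + (rest.length + 1) + 1 := by
          simp; ring
        rw [h3]
        omega
      · intro v hv
        exact (mem_W.1 (Finset.mem_sdiff.1 hv).1).1
      · intro T hT
        exact K_mono hAU _ hT
      · intro T hT
        have hT' := mem_K.1 hT
        obtain ⟨a, b, hab, rfl⟩ := Finset.card_eq_two.1 hT'.2.1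
        have ha : a ∈ A := hT'.1 (by simp)
        have hb : b ∈ A := hT'.1 (by simp)
        have h1 : U.card ≤ (comN G U {a, b}).card + (cn G U a ∪ cn G U b).card := by
          have h : U ⊆ comN G U {a, b} ∪ (cn G U a ∪ cn G U b) := by
            intro u hu
            by_cases h : G.Adj a u ∧ G.Adj b u
            · refine Finset.mem_union_left _ (mem_comN.2 ⟨hu, ?_⟩)
              intro t ht
              simp only [Finset.mem_insert, Finset.mem_singleton] at ht
              rcases ht with rfl | rfl
              · exact h.1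
              · exact h.2
            · refine Finset.mem_union_right _ ?_
              simp only [Finset.mem_union, mem_cn]
              tauto
          exact (Finset.card_le_card h).trans (Finset.card_union_le _ _)
        have h2 := Finset.card_union_le (cn G U a) (cn G U b)
        have h3 := hAQ a ha
        have h4 := hAQ b hb
        omega
      · intro T hT
        exact (Finset.disjoint_sdiff).mono_left (mem_K.1 hT).1
      · intro y hy
        exact (mem_W.1 (Finset.mem_sdiff.1 hy).1).2
      · intro y hy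
        have hyU := (mem_W.1 (Finset.mem_sdiff.1 hy).1).1
        have hyA := (Finset.mem_sdiff.1 hy).2
        obtain ⟨z1, hz1, z2, hz2, h12, hy1, hy2⟩ := htri y hyU hyA
        refine ⟨{z2, z1}, pair_mem_K hz1 hz2 h12, ?_⟩
        intro t ht
        simp only [Finset.mem_insert, Finset.mem_singleton] at ht
        rcases ht with rfl | rfl
        · exact hy2.symm
        · exact hy1.symm
      · simp only [C]
        refine ⟨?_, ?_⟩
        · have := hC2.2.1
          have h5 : 0 + (q + 1) + (q + 1) + P + 1 = q + 1 + (q + 1) + P + 1 := by ring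
          rw [← h5]
          exact this
        · have := hC2.2.2
          have h5 : 0 + (q + 1) + (q + 1) + P + P' = q + 1 + (q + 1) + P + P' := by ring
          rw [← h5]
          exact this

end

end Pool.Agent.MP76b19e
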