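import Pool.Agent.Lib.MP76b19e.Basic

/-! The edge deletion lemma and the bound for lists with one equality (MP_76b19e_co). -/

open Finset

noncomputable section

namespace Pool.Agent.MP76b19e

open Classical in
/-- common neighbours in `U` of the set `T` -/
def comN {V : Type*} (G : SimpleGraph V) (U T : Finset V) : Finset V :=
  U.filter (fun u => ∀ t ∈ T, G.Adj t u)

section
variable {V : Type*} {G : SimpleGraph V}

lemma mem_comN {U T : Finset V} {u : V} : u ∈ comN G U T ↔ u ∈ U ∧ ∀ t ∈ T, G.Adj t u := by
  classical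
  simp [comN]

lemma comN_subset {U T : Finset V} : comN G U T ⊆ U := fun _ hu => (mem_comN.1 hu).1

lemma comN_disjoint {U T : Finset V} : Disjoint T (comN G U T) := by
  rw [Finset.disjoint_left]
  intro t ht ht'
  exact G.loopless.irrefl t ((mem_comN.1 ht').2 t ht)

lemma union_mem_K [DecidableEq V] {U T s : Finset V} {l m : ℕ} (hT : T ∈ K G U l)
    (hs : s ∈ K G (comN G U T) m) : T ∪ s ∈ K G U (l + m) := by
  rw [mem_K] at hT hs ⊢
  obtain ⟨hT1, hT2, hT3⟩ := hT
  obtain ⟨hs1, hs2, hs3⟩ := hs
  refine ⟨Finset.union_subset hT1 (hs1.trans comN_subset), ?_, ?_⟩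
  · rw [Finset.card_union_of_disjoint, hT2, hs2]
    exact (comN_disjoint (G := G) (U := U) (T := T)).mono_right hs1
  · rw [Finset.coe_union]
    intro a ha b hb hab
    rcases ha with ha | ha <;> rcases hb with hb | hb
    · exact hT3 ha hb hab
    · exact (mem_comN.1 (hs1 hb)).2 a ha
    · exact ((mem_comN.1 (hs1 ha)).2 b hb).symm
    · exact hs3 ha hb hab

lemma union_injOn [DecidableEq V] {U T : Finset V} {m : ℕ} :
    Set.InjOn (fun s : Finset V => T ∪ s) (K G (comN G U T) m : Set (Finset V)) := by
  intro s hs t ht hst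
  have h1 : Disjoint T s := (comN_disjoint (G := G) (U := U) (T := T)).mono_right (mem_K.1 hs).1
  have h2 : Disjoint T t := (comN_disjoint (G := G) (U := U) (T := T)).mono_right (mem_K.1 ht).1
  have h3 : (T ∪ s) \ T = (T ∪ t) \ T := by
    simp only at hst
    rw [hst]
  rwa [Finset.union_sdiff_cancel_left h1, Finset.union_sdiff_cancel_left h2] at h3

lemma comN_insert_card [DecidableEq V] {U T : Finset V} {y : V} :
    (comN G U T).card ≤ (comN G U (insert y T)).card + (cn G U y).card := by
  have h : comN G U T ⊆ comN G U (insert y T) ∪ cn G U y := by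
    intro u hu
    rw [mem_comN] at hu
    by_cases hy : G.Adj y u
    · refine Finset.mem_union_left _ (mem_comN.2 ⟨hu.1, ?_⟩)
      intro t ht
      rcases Finset.mem_insert.1 ht with rfl | ht
      · exact hy
      · exact hu.2 t ht
    · exact Finset.mem_union_right _ (mem_cn.2 ⟨hu.1, hy⟩)
  exact (Finset.card_le_card h).trans (Finset.card_union_le _ _)

lemma insert_clique [DecidableEq V] {U T : Finset V} {l : ℕ} {y : V} (hT : T ∈ K G U l)
    (hy : y ∈ U) (hyT : ∀ t ∈ T, G.Adj t y) : insert y T ∈ K G U (l + 1) := by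
  rw [mem_K] at hT ⊢
  obtain ⟨hT1, hT2, hT3⟩ := hT
  have hy' : y ∉ T := fun h => G.loopless.irrefl y (hyT y h)
  refine ⟨?_, by rw [Finset.card_insert_of_notMem hy', hT2], ?_⟩
  · intro u hu
    rcases Finset.mem_insert.1 hu with rfl | hu
    · exact hy
    · exact hT1 hu
  · rw [Finset.coe_insert, SimpleGraph.isClique_insert]
    exact ⟨hT3, fun b hb _ => (hyT b hb).symm⟩

end

/-- General edge deletion lemma. -/
theorem lemG {V : Type*} [DecidableEq V] (U : Finset V) (F : Finset (Finset V)) (l c p p' : ℕ)
    (ps : List ℕ) (hps : ∀ x ∈ p' :: ps, p < x) :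
    ∀ (b : ℕ) (G : SimpleGraph V) (B : Finset V), B.card = b → B ⊆ U →
      (∀ T ∈ F, T ∈ K G U l) → (∀ T ∈ F, U.card ≤ (comN G U T).card + c) →
      (∀ T ∈ F, Disjoint T B) → (∀ y ∈ B, (cn G U y).card ≤ p) →
      (∀ y ∈ B, ∃ T ∈ F, ∀ t ∈ T, G.Adj t y) → C G U (c + p) (p' :: ps) →
      b ≤ ((K G U (l + 1 + (ps.length + 1) + 1)).filter (fun s => ∃ T ∈ F, T ⊆ s)).card := by
  intro b
  induction b using Nat.strong_induction_on with
  | _ b ih =>
  intro G B hB hBU hF hFc hFB hBp hBF hC
  by_cases hcase : ∃ y ∈ B, ∃ z ∈ B, y ≠ z ∧ ∃ s ∈ K G U (l + 1 + (ps.length + 1) + 1),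
      y ∈ s ∧ z ∈ s ∧ ∃ T ∈ F, T ⊆ s
  · obtain ⟨y, hy, z, hz, hyz, s, hs, hys, hzs, T, hTF, hTs⟩ := hcase
    have hscl := (mem_K.1 hs).2.2
    have hyT : y ∉ T := fun h => Finset.disjoint_left.1 (hFB T hTF) h hy
    have hzT : z ∉ T := fun h => Finset.disjoint_left.1 (hFB T hTF) h hz
    have hT1 : insert y T ∈ K G U (l + 1) := by
      refine insert_clique (hF T hTF) (hBU hy) ?_
      intro t ht
      exact hscl (hTs ht) hys (fun h => hyT (h ▸ ht))
    have hT2 : insert z (insert y T) ∈ K G U (l + 1 + 1) := by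
      refine insert_clique hT1 (hBU hz) ?_
      intro t ht
      rcases Finset.mem_insert.1 ht with rfl | ht
      · exact hscl hys hzs hyz
      · exact hscl (hTs ht) hzs (fun h => hzT (h ▸ ht))
    have hcard : U.card ≤ (comN G U (insert z (insert y T))).card + (c + p + p) := by
      have h1 := hFc T hTF
      have h2 := comN_insert_card (G := G) (U := U) (T := T) (y := y)
      have h3 := comN_insert_card (G := G) (U := U) (T := insert y T) (y := z)
      have h4 := hBp y hy
      have h5 := hBp z hz
      omega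
    have hp' : p < p' := hps p' (by simp)
    have hC1 : C G U (1 + (c + p + p)) ps := by
      have := hC
      simp only [C] at this
      exact C_le ps _ _ (by omega) this.2
    have hC2 : C G (comN G U (insert z (insert y T))) 1 ps := C_sub comN_subset hcard ps 1 hC1
    have hex := excess ps _ hC2
    -- cliques containing y and z
    have hbig : 2 ≤ (((K G U (l + 1 + (ps.length + 1) + 1)).filter
        (fun s => ∃ T ∈ F, T ⊆ s)).filter (fun s => y ∈ s ∧ z ∈ s)).card := by
      refine hex.trans ?_
      rw [← Finset.card_image_of_injOn (union_injOn (G := G) (U := U)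
        (T := insert z (insert y T)) (m := ps.length + 1))]
      apply Finset.card_le_card
      intro w hw
      obtain ⟨s', hs', rfl⟩ := Finset.mem_image.1 hw
      have hmem := union_mem_K hT2 hs'
      rw [Finset.mem_filter, Finset.mem_filter]
      refine ⟨⟨?_, T, hTF, ?_⟩, ?_, ?_⟩
      · have : l + 1 + (ps.length + 1) + 1 = l + 1 + 1 + (ps.length + 1) := by ring
        rw [this]
        exact hmem
      · intro t ht
        simp [ht]
      · simp
      · simp
    -- delete the edge
    set G' : SimpleGraph V := G.deleteEdges {s(y, z)} with hG'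
    have hadj : ∀ a b : V, G'.Adj a b ↔ G.Adj a b ∧ ¬ (s(a, b) = s(y, z)) := by
      intro a b
      rw [hG', SimpleGraph.deleteEdges_adj]
      simp
    have hle : G' ≤ G := by
      intro a b hab
      exact ((hadj a b).1 hab).1
    have hadj' : ∀ a b : V, a ≠ y → a ≠ z → (G'.Adj a b ↔ G.Adj a b) := by
      intro a b hay haz
      rw [hadj]
      refine ⟨fun h => h.1, fun h => ⟨h, ?_⟩⟩
      rw [Sym2.eq_iff]
      rintro (⟨h1, _⟩ | ⟨h1, _⟩)
      · exact hay h1
      · exact haz h1
    have hcn' : ∀ a : V, a ≠ y → a ≠ z → cn G' U a = cn G U a := by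
      intro a hay haz
      ext u
      rw [mem_cn, mem_cn, hadj' a u hay haz]
    have hcny : (cn G' U y).card ≤ p + 1 := by
      have : cn G' U y ⊆ insert z (cn G U y) := by
        intro u hu
        rw [mem_cn] at hu
        rw [Finset.mem_insert, mem_cn]
        by_cases huz : u = z
        · exact Or.inl huz
        · right
          refine ⟨hu.1, fun h => hu.2 ((hadj y u).2 ⟨h, ?_⟩)⟩
          rw [Sym2.eq_iff]
          rintro (⟨_, h1⟩ | ⟨h1, _⟩)
          · exact huz h1
          · exact hyz h1
      have h1 := Finset.card_le_card this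
      have h2 := Finset.card_insert_le z (cn G U y)
      have h3 := hBp y hy
      omega
    have hcnz : (cn G' U z).card ≤ p + 1 := by
      have : cn G' U z ⊆ insert y (cn G U z) := by
        intro u hu
        rw [mem_cn] at hu
        rw [Finset.mem_insert, mem_cn]
        by_cases huy : u = y
        · exact Or.inl huy
        · right
          refine ⟨hu.1, fun h => hu.2 ((hadj z u).2 ⟨h, ?_⟩)⟩
          rw [Sym2.eq_iff]
          rintro (⟨h1, _⟩ | ⟨_, h1⟩)
          · exact hyz h1.symm
          · exact huy h1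
      have h1 := Finset.card_le_card this
      have h2 := Finset.card_insert_le y (cn G U z)
      have h3 := hBp z hz
      omega
    have hC' : C G' U (c + p) (p' :: ps) := by
      refine C_graph (p' :: ps) (c + p) ?_ hC
      intro x hx v hv
      rw [mem_W] at hv ⊢
      refine ⟨hv.1, ?_⟩
      have hpx := hps x hx
      by_cases h1 : v = y
      · rw [h1]; omega
      by_cases h2 : v = z
      · rw [h2]; omega
      rw [hcn' v h1 h2]
      exact hv.2
    have hcard' : ((B.erase y).erase z).card = b - 2 := by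
      rw [Finset.card_erase_of_mem, Finset.card_erase_of_mem hy, hB]
      · omega
      · exact Finset.mem_erase.2 ⟨hyz.symm, hz⟩
    have hb2 : 2 ≤ b := by
      rw [← hB]
      have : ({y, z} : Finset V) ⊆ B := by
        intro u hu
        rcases Finset.mem_insert.1 hu with rfl | hu
        · exact hy
        · rw [Finset.mem_singleton.1 hu]; exact hz
      calc 2 = ({y, z} : Finset V).card := (Finset.card_pair hyz).symm
        _ ≤ _ := Finset.card_le_card this
    have hmemB' : ∀ a, a ∈ (B.erase y).erase z → a ∈ B ∧ a ≠ y ∧ a ≠ z := by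
      intro a ha
      rw [Finset.mem_erase, Finset.mem_erase] at ha
      exact ⟨ha.2.2, ha.2.1, ha.1⟩
    have hTne : ∀ T ∈ F, ∀ t ∈ T, t ≠ y ∧ t ≠ z := by
      intro T hT t ht
      refine ⟨?_, ?_⟩
      · rintro rfl
        exact Finset.disjoint_left.1 (hFB T hT) ht hy
      · rintro rfl
        exact Finset.disjoint_left.1 (hFB T hT) ht hz
    have hIH := ih (b - 2) (by omega) G' ((B.erase y).erase z) hcard'
      (fun a ha => hBU (hmemB' a ha).1) ?_ ?_ ?_ ?_ ?_ hC'
    · -- combine
      have hsub : (K G' U (l + 1 + (ps.length + 1) + 1)).filter (fun s => ∃ T ∈ F, T ⊆ s) ⊆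
          ((K G U (l + 1 + (ps.length + 1) + 1)).filter
            (fun s => ∃ T ∈ F, T ⊆ s)).filter (fun s => ¬ (y ∈ s ∧ z ∈ s)) := by
        intro w hw
        rw [Finset.mem_filter] at hw
        have hw1 := mem_K.1 hw.1
        rw [Finset.mem_filter, Finset.mem_filter]
        refine ⟨⟨mem_K.2 ⟨hw1.1, hw1.2.1, ?_⟩, hw.2⟩, ?_⟩
        · exact hw1.2.2.mono hle
        · rintro ⟨h1, h2⟩
          have := hw1.2.2 h1 h2 hyz
          rw [hadj] at this
          exact this.2 rfl
      have h1 := Finset.card_le_card hsub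
      have h2 := Finset.card_filter_add_card_filter_not
        (s := (K G U (l + 1 + (ps.length + 1) + 1)).filter (fun s => ∃ T ∈ F, T ⊆ s))
        (fun s => y ∈ s ∧ z ∈ s)
      omega
    · intro T' hT'
      have h1 := mem_K.1 (hF T' hT')
      refine mem_K.2 ⟨h1.1, h1.2.1, ?_⟩
      intro a ha b' hb' hab
      exact (hadj' a b' (hTne T' hT' a ha).1 (hTne T' hT' a ha).2).2 (h1.2.2 ha hb' hab)
    · intro T' hT'
      have : comN G' U T' = comN G U T' := by
        ext u
        rw [mem_comN, mem_comN]
        refine and_congr Iff.rfl ⟨fun h t ht => ?_, fun h t ht => ?_⟩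
        · exact (hadj' t u (hTne T' hT' t ht).1 (hTne T' hT' t ht).2).1 (h t ht)
        · exact (hadj' t u (hTne T' hT' t ht).1 (hTne T' hT' t ht).2).2 (h t ht)
      rw [this]
      exact hFc T' hT'
    · intro T' hT'
      refine (hFB T' hT').mono_right ?_
      intro a ha
      exact (hmemB' a ha).1
    · intro a ha
      rw [hcn' a (hmemB' a ha).2.1 (hmemB' a ha).2.2]
      exact hBp a (hmemB' a ha).1
    · intro a ha
      obtain ⟨T', hT', h⟩ := hBF a (hmemB' a ha).1
      refine ⟨T', hT', fun t ht => ?_⟩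
      exact (hadj' t a (hTne T' hT' t ht).1 (hTne T' hT' t ht).2).2 (h t ht)
  · push Not at hcase
    have hex : ∀ y ∈ B, ∃ s ∈ (K G U (l + 1 + (ps.length + 1) + 1)).filter
        (fun s => ∃ T ∈ F, T ⊆ s), y ∈ s := by
      intro y hy
      obtain ⟨T, hTF, hTy⟩ := hBF y hy
      have hT1 : insert y T ∈ K G U (l + 1) := insert_clique (hF T hTF) (hBU hy) hTy
      have hcard : U.card ≤ (comN G U (insert y T)).card + (c + p) := by
        have h1 := hFc T hTF
        have h2 := comN_insert_card (G := G) (U := U) (T := T) (y := y)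
        have h4 := hBp y hy
        omega
      have hC2 : C G (comN G U (insert y T)) 0 (p' :: ps) := by
        refine C_sub comN_subset hcard (p' :: ps) 0 ?_
        rw [zero_add]
        exact hC
      obtain ⟨s, hs⟩ := greedy _ _ hC2
      refine ⟨insert y T ∪ s, ?_, by simp⟩
      rw [Finset.mem_filter]
      refine ⟨?_, T, hTF, ?_⟩
      · have := union_mem_K hT1 hs
        have h2 : l + 1 + (ps.length + 1) + 1 = l + 1 + ((p' :: ps).length + 1) := by
          simp; ring
        rw [h2]
        exact this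
      · intro t ht
        simp [ht]
    choose! f hf1 hf2 using hex
    rw [← hB]
    refine Finset.card_le_card_of_injOn f (fun y hy => hf1 y hy) ?_
    intro y hy z hz hyz
    by_contra hne
    have h1 := hf1 y hy
    rw [Finset.mem_filter] at h1
    obtain ⟨h2, T, hT, hTs⟩ := h1
    exact hcase y hy z hz hne (f y) h2 (hf2 y hy) (hyz ▸ hf2 z hz) T hT hTs

end Pool.Agent.MP76b19e
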