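import Pool.Agent.Lib.MP76b19e.One

/-! The core case `r = 3` (MP_76b19e_co). -/

open Finset

noncomputable section

namespace Pool.Agent.MP76b19e

section
variable {V : Type*} {G : SimpleGraph V}

lemma dcount {α β : Type*} (S : Finset α) (T : Finset β) (r : α → β → Prop)
    [∀ a b, Decidable (r a b)] :
    ∑ a ∈ S, (T.filter (fun b => r a b)).card = ∑ b ∈ T, (S.filter (fun a => r a b)).card :=
  Finset.sum_card_bipartiteAbove_eq_sum_card_bipartiteBelow r

lemma comN_pair [DecidableEq V] {U : Finset V} {a b : V} :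
    U.card ≤ (comN G U {b, a}).card + ((cn G U a).card + (cn G U b).card) := by
  have h : U ⊆ comN G U {b, a} ∪ (cn G U a ∪ cn G U b) := by
    intro u hu
    by_cases h : G.Adj a u ∧ G.Adj b u
    · refine Finset.mem_union_left _ (mem_comN.2 ⟨hu, ?_⟩)
      intro t ht
      simp only [Finset.mem_insert, Finset.mem_singleton] at ht
      rcases ht with rfl | rfl
      · exact h.2
      · exact h.1
    · refine Finset.mem_union_right _ ?_
      simp only [Finset.mem_union, mem_cn]
      tauto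
  have h1 := (Finset.card_le_card h).trans (Finset.card_union_le _ _)
  have h2 := Finset.card_union_le (cn G U a) (cn G U b)
  omega

/-- step (a): each edge of `A` is in many 4-cliques -/
lemma step_a [DecidableEq V] {Q : ℕ} {U A : Finset V} (hA : A ⊆ W G U Q)
    (hU : 3 * Q + 1 ≤ U.card)
    (hfail : ∀ x1 ∈ A, ∀ x2 ∈ A, G.Adj x1 x2 → ∀ y ∈ U, y ∉ A →
      ∃ z ∈ A, G.Adj x1 z ∧ G.Adj x2 z ∧ G.Adj y z) :
    ∀ X ∈ K G A 2, Q + 1 ≤ 2 * (((K G U 4).filter (fun s => 3 ≤ (s ∩ A).card)).filter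
      (fun s => X ⊆ s)).card := by
  intro X hX
  have hAU : A ⊆ U := fun a ha => (mem_W.1 (hA ha)).1
  have hAQ : ∀ a ∈ A, (cn G U a).card ≤ Q := fun a ha => (mem_W.1 (hA ha)).2
  have hX' := mem_K.1 hX
  obtain ⟨b, a, hab', rfl⟩ := Finset.card_eq_two.1 hX'.2.1
  have ha : a ∈ A := hX'.1 (by simp)
  have hb : b ∈ A := hX'.1 (by simp)
  have hab : G.Adj a b := hX'.2.2 (by simp) (by simp) hab'.symm
  have hE : Q + 1 ≤ (comN G U {b, a}).card := by
    have h1 := comN_pair (G := G) (U := U) (a := a) (b := b)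
    have h2 := hAQ a ha
    have h3 := hAQ b hb
    omega
  have hadjE : ∀ c ∈ comN G U {b, a}, c ∈ U ∧ G.Adj a c ∧ G.Adj b c := by
    intro c hc
    rw [mem_comN] at hc
    exact ⟨hc.1, hc.2 a (by simp), hc.2 b (by simp)⟩
  have hmemE : ∀ c, c ∈ U → G.Adj a c → G.Adj b c → c ∈ comN G U {b, a} := by
    intro c hc h1 h2
    rw [mem_comN]
    refine ⟨hc, ?_⟩
    intro t ht
    simp only [Finset.mem_insert, Finset.mem_singleton] at ht
    rcases ht with rfl | rfl
    · exact h2
    · exact h1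
  have hd : ∀ c ∈ comN G U {b, a}, ∃ d ∈ comN G U {b, a}, G.Adj c d ∧ (c ∈ A ∨ d ∈ A) := by
    intro c hc
    obtain ⟨hcU, hac, hbc⟩ := hadjE c hc
    by_cases hcA : c ∈ A
    · have h1 := comN_triple (G := G) (U := U) (a := a) (b := b) (c := c)
      have h2 := Finset.card_union_le (cn G U a) (cn G U b ∪ cn G U c)
      have h3 := Finset.card_union_le (cn G U b) (cn G U c)
      have h4 := hAQ a ha
      have h5 := hAQ b hb
      have h6 := hAQ c hcA
      obtain ⟨d, hd⟩ : (comN G U {c, b, a}).Nonempty := Finset.card_pos.1 (by omega)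
      rw [mem_comN] at hd
      refine ⟨d, hmemE d hd.1 (hd.2 a (by simp)) (hd.2 b (by simp)), hd.2 c (by simp),
        Or.inl hcA⟩
    · obtain ⟨z, hz, haz, hbz, hcz⟩ := hfail a ha b hb hab c hcU hcA
      exact ⟨z, hmemE z (hAU hz) haz hbz, hcz, Or.inr hz⟩
  choose! d hdE hcd hdA using hd
  refine hE.trans ?_
  have hinj := Finset.card_le_mul_card_image (f := fun c => insert (d c) ({c, b, a} : Finset V))
    (comN G U {b, a}) 2 ?_
  · refine hinj.trans (Nat.mul_le_mul_left 2 (Finset.card_le_card ?_))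
    intro s hs
    obtain ⟨c, hc, rfl⟩ := Finset.mem_image.1 hs
    obtain ⟨hcU, hac, hbc⟩ := hadjE c hc
    obtain ⟨hdU, had, hbd⟩ := hadjE (d c) (hdE c hc)
    have h4 : insert (d c) ({c, b, a} : Finset V) ∈ K G U 4 := by
      refine insert_clique (triple_mem_K (hAU ha) (hAU hb) hcU hab hac hbc) hdU ?_
      intro t ht
      simp only [Finset.mem_insert, Finset.mem_singleton] at ht
      rcases ht with rfl | rfl | rfl
      · exact hcd _ hc
      · exact hbd
      · exact had
    rw [Finset.mem_filter, Finset.mem_filter]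
    refine ⟨⟨h4, ?_⟩, ?_⟩
    · rcases hdA c hc with hcA | hdA'
      · have hsub : ({c, b, a} : Finset V) ⊆ insert (d c) ({c, b, a} : Finset V) ∩ A := by
          intro u hu
          rw [Finset.mem_inter]
          refine ⟨Finset.mem_insert_of_mem hu, ?_⟩
          simp only [Finset.mem_insert, Finset.mem_singleton] at hu
          rcases hu with rfl | rfl | rfl
          · exact hcA
          · exact hb
          · exact ha
        have h3 : ({c, b, a} : Finset V).card = 3 :=
          (mem_K.1 (triple_mem_K (G := G) (hAU ha) (hAU hb) hcU hab hac hbc)).2.1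
        calc 3 = ({c, b, a} : Finset V).card := h3.symm
          _ ≤ _ := Finset.card_le_card hsub
      · have hsub : ({d c, b, a} : Finset V) ⊆ insert (d c) ({c, b, a} : Finset V) ∩ A := by
          intro u hu
          rw [Finset.mem_inter]
          simp only [Finset.mem_insert, Finset.mem_singleton] at hu ⊢
          rcases hu with rfl | rfl | rfl
          · exact ⟨by simp, hdA'⟩
          · exact ⟨by simp, hb⟩
          · exact ⟨by simp, ha⟩
        have h3 : ({d c, b, a} : Finset V).card = 3 :=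
          (mem_K.1 (triple_mem_K (G := G) (hAU ha) (hAU hb) hdU hab had hbd)).2.1
        calc 3 = ({d c, b, a} : Finset V).card := h3.symm
          _ ≤ _ := Finset.card_le_card hsub
    · intro u hu
      simp only [Finset.mem_insert, Finset.mem_singleton] at hu ⊢
      rcases hu with rfl | rfl <;> simp
  · intro s hs
    obtain ⟨c0, hc0, rfl⟩ := Finset.mem_image.1 hs
    have hsub : (comN G U {b, a}).filter (fun c => insert (d c) ({c, b, a} : Finset V) =
        insert (d c0) ({c0, b, a} : Finset V)) ⊆ {c0, d c0} := by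
      intro c hc
      rw [Finset.mem_filter] at hc
      obtain ⟨hcU, hac, hbc⟩ := hadjE c hc.1
      have h1 : c ∈ insert (d c0) ({c0, b, a} : Finset V) := by
        rw [← hc.2]
        simp
      simp only [Finset.mem_insert, Finset.mem_singleton] at h1 ⊢
      rcases h1 with h1 | h1 | h1 | h1
      · exact Or.inr h1
      · exact Or.inl h1
      · exact absurd h1 hbc.ne'
      · exact absurd h1 hac.ne'
    exact (Finset.card_le_card hsub).trans Finset.card_le_two

/-- step (f) -/
lemma step_f [DecidableEq V] {A : Finset V} :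
    ∑ v ∈ A, (nb G A v).card ≤ 2 * (K G A 2).card := by
  have h1 : ∀ v ∈ A, (nb G A v).card ≤ ((K G A 2).filter (fun X => v ∈ X)).card := by
    intro v hv
    refine Finset.card_le_card_of_injOn (fun z => ({z, v} : Finset V)) ?_ ?_
    · intro z hz
      have hz' := mem_nb.1 hz
      rw [Finset.mem_coe, Finset.mem_filter]
      exact ⟨pair_mem_K hv hz'.1 hz'.2, by simp⟩
    · intro z hz z' hz' h
      have hz1 := mem_nb.1 hz
      have h2 : z ∈ ({z', v} : Finset V) := by
        simp only at h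
        rw [← h]; simp
      simp only [Finset.mem_insert, Finset.mem_singleton] at h2
      rcases h2 with h2 | h2
      · exact h2
      · exact absurd h2 hz1.2.ne'
  have hdc : ∑ v ∈ A, ((K G A 2).filter (fun X => v ∈ X)).card =
      ∑ X ∈ K G A 2, (A.filter (fun v => v ∈ X)).card :=
    Finset.sum_card_bipartiteAbove_eq_sum_card_bipartiteBelow (fun v X => v ∈ X)
  have h2 : ∑ X ∈ K G A 2, (A.filter (fun v => v ∈ X)).card ≤ (K G A 2).card * 2 := by
    rw [← smul_eq_mul]
    refine Finset.sum_le_card_nsmul _ _ _ ?_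
    intro X hX
    have h3 : A.filter (fun v => v ∈ X) ⊆ X := fun v hv => (Finset.mem_filter.1 hv).2
    exact (Finset.card_le_card h3).trans (mem_K.1 hX).2.1.le
  have h3 := Finset.sum_le_sum h1
  omega

lemma step_d [DecidableEq V] {Q : ℕ} {U A : Finset V} (hQ : 1 ≤ Q) (hA : A ⊆ W G U Q)
    (hAc : A.card = 2 * Q + 1)
    (hfail : ∀ x1 ∈ A, ∀ x2 ∈ A, G.Adj x1 x2 → ∀ y ∈ U, y ∉ A →
      ∃ z ∈ A, G.Adj x1 z ∧ G.Adj x2 z ∧ G.Adj y z) :
    ∀ y ∈ U, y ∉ A → (nb G A y).card ≤
      (K G (nb G A y) 2).card := by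
  intro y hyU hyA
  have hAU : A ⊆ U := fun a ha => (mem_W.1 (hA ha)).1
  have hAQ : ∀ a ∈ A, (cn G U a).card ≤ Q := fun a ha => (mem_W.1 (hA ha)).2
  have h1 : ∀ x ∈ nb G A y, 2 ≤ ((K G (nb G A y) 2).filter
      (fun X => x ∈ X)).card := by
    intro x hx
    rw [mem_nb] at hx
    obtain ⟨hxA, hyx⟩ := hx
    obtain ⟨x', hx'⟩ : (nb G A x).Nonempty := by
      apply Finset.card_pos.1
      have h2 := cn_card_add_nb_card (G := G) A x
      have h3 := Finset.card_le_card (cn_mono (G := G) hAU x)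
      have h4 := hAQ x hxA
      omega
    rw [mem_nb] at hx'
    obtain ⟨z, hz, hxz, _, hyz⟩ := hfail x hxA x' hx'.1 hx'.2 y hyU hyA
    obtain ⟨z', hz', hxz', hzz', hyz'⟩ := hfail x hxA z hz hxz y hyU hyA
    have hmem : ∀ w ∈ A, G.Adj x w → G.Adj y w → ({w, x} : Finset V) ∈
        (K G (nb G A y) 2).filter (fun X => x ∈ X) := by
      intro w hw hxw hyw
      rw [Finset.mem_filter]
      exact ⟨pair_mem_K (mem_nb.2 ⟨hxA, hyx⟩) (mem_nb.2 ⟨hw, hyw⟩) hxw, by simp⟩
    have hne : ({z, x} : Finset V) ≠ {z', x} := by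
      intro h
      have h2 : z ∈ ({z', x} : Finset V) := by rw [← h]; simp
      simp only [Finset.mem_insert, Finset.mem_singleton] at h2
      rcases h2 with h2 | h2
      · exact hzz'.ne h2
      · exact hxz.ne' h2
    have hsub : ({{z, x}, {z', x}} : Finset (Finset V)) ⊆
        (K G (nb G A y) 2).filter (fun X => x ∈ X) := by
      intro t ht
      simp only [Finset.mem_insert, Finset.mem_singleton] at ht
      rcases ht with rfl | rfl
      · exact hmem z hz hxz hyz
      · exact hmem z' hz' hxz' hyz'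
    calc 2 = ({{z, x}, {z', x}} : Finset (Finset V)).card := (Finset.card_pair hne).symm
      _ ≤ _ := Finset.card_le_card hsub
  have hdc : ∑ x ∈ nb G A y, ((K G (nb G A y) 2).filter
      (fun X => x ∈ X)).card = ∑ X ∈ K G (nb G A y) 2,
      ((nb G A y).filter (fun x => x ∈ X)).card :=
    Finset.sum_card_bipartiteAbove_eq_sum_card_bipartiteBelow (fun v X => v ∈ X)
  have h2 : ∑ X ∈ K G (nb G A y) 2,
      ((nb G A y).filter (fun x => x ∈ X)).card ≤
      (K G (nb G A y) 2).card * 2 := by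
    rw [← smul_eq_mul]
    refine Finset.sum_le_card_nsmul _ _ _ ?_
    intro X hX
    have h3 : (nb G A y).filter (fun v => v ∈ X) ⊆ X := fun v hv => (Finset.mem_filter.1 hv).2
    exact (Finset.card_le_card h3).trans (mem_K.1 hX).2.1.le
  have h3 : (nb G A y).card * 2 ≤ ∑ x ∈ nb G A y,
      ((K G (nb G A y) 2).filter (fun X => x ∈ X)).card := by
    rw [← smul_eq_mul]
    exact Finset.card_nsmul_le_sum _ _ _ h1
  omega

lemma step_c [DecidableEq V] {U A : Finset V} (hAU : A ⊆ U)
    (hfail : ∀ x1 ∈ A, ∀ x2 ∈ A, G.Adj x1 x2 → ∀ y ∈ U, y ∉ A →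
      ∃ z ∈ A, G.Adj x1 z ∧ G.Adj x2 z ∧ G.Adj y z) :
    ∑ y ∈ U \ A, (K G (nb G A y) 2).card ≤
      3 * ((K G U 4).filter (fun s => (s ∩ A).card = 3)).card := by
  set K3 := (K G U 4).filter (fun s => (s ∩ A).card = 3) with hK3
  have h1 : ∀ y ∈ U \ A, (K G (nb G A y) 2).card ≤
      3 * (K3.filter (fun s => y ∈ s)).card := by
    intro y hy
    have hyU := (Finset.mem_sdiff.1 hy).1
    have hyA := (Finset.mem_sdiff.1 hy).2
    have h2 : ∀ X ∈ K G (nb G A y) 2,
        1 ≤ ((K3.filter (fun s => y ∈ s)).filter (fun s => X ⊆ s)).card := by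
      intro X hX
      have hX' := mem_K.1 hX
      obtain ⟨b, a, hab', rfl⟩ := Finset.card_eq_two.1 hX'.2.1
      have ha' := mem_nb.1 (hX'.1 (show a ∈ ({b, a} : Finset V) by simp))
      have hb' := mem_nb.1 (hX'.1 (show b ∈ ({b, a} : Finset V) by simp))
      have ha : a ∈ A := ha'.1
      have hb : b ∈ A := hb'.1
      have hab : G.Adj a b := hX'.2.2 (by simp) (by simp) hab'.symm
      have hay : G.Adj a y := ha'.2.symm
      have hby : G.Adj b y := hb'.2.symm
      obtain ⟨z, hz, haz, hbz, hyz⟩ := hfail a ha b hb hab y hyU hyA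
      apply Finset.card_pos.2
      have hAtri := triple_mem_K (G := G) ha hb hz hab haz hbz
      refine ⟨insert y ({z, b, a} : Finset V), ?_⟩
      rw [Finset.mem_filter, Finset.mem_filter, hK3, Finset.mem_filter]
      refine ⟨⟨⟨?_, ?_⟩, by simp⟩, ?_⟩
      · refine insert_clique (K_mono hAU _ hAtri) hyU ?_
        intro t ht
        simp only [Finset.mem_insert, Finset.mem_singleton] at ht
        rcases ht with rfl | rfl | rfl
        · exact hyz.symm
        · exact hby
        · exact hay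
      · have : insert y ({z, b, a} : Finset V) ∩ A = {z, b, a} := by
          rw [Finset.insert_inter_of_notMem hyA]
          exact Finset.inter_eq_left.2 (mem_K.1 hAtri).1
        rw [this]
        exact (mem_K.1 hAtri).2.1
      · intro u hu
        simp only [Finset.mem_insert, Finset.mem_singleton] at hu ⊢
        rcases hu with rfl | rfl <;> simp
    have hdc : ∑ X ∈ K G (nb G A y) 2,
        ((K3.filter (fun s => y ∈ s)).filter (fun s => X ⊆ s)).card =
        ∑ s ∈ K3.filter (fun s => y ∈ s),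
          ((K G (nb G A y) 2).filter (fun X => X ⊆ s)).card :=
      dcount (K G (nb G A y) 2) (K3.filter (fun s => y ∈ s)) (fun X s => X ⊆ s)
    have h3 : ∑ s ∈ K3.filter (fun s => y ∈ s),
        ((K G (nb G A y) 2).filter (fun X => X ⊆ s)).card ≤
        (K3.filter (fun s => y ∈ s)).card * 3 := by
      rw [← smul_eq_mul]
      refine Finset.sum_le_card_nsmul _ _ _ ?_
      intro s hs
      rw [Finset.mem_filter, hK3, Finset.mem_filter] at hs
      have h4 : (K G (nb G A y) 2).filter (fun X => X ⊆ s) ⊆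
          (s ∩ A).powersetCard 2 := by
        intro X hX
        rw [Finset.mem_filter] at hX
        rw [Finset.mem_powersetCard]
        have hX' := mem_K.1 hX.1
        exact ⟨Finset.subset_inter hX.2 (hX'.1.trans nb_subset), hX'.2.1⟩
      refine (Finset.card_le_card h4).trans ?_
      rw [Finset.card_powersetCard, hs.1.2]
      norm_num [Nat.choose]
    have h4 : (K G (nb G A y) 2).card * 1 ≤
        ∑ X ∈ K G (nb G A y) 2,
        ((K3.filter (fun s => y ∈ s)).filter (fun s => X ⊆ s)).card := by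
      rw [← smul_eq_mul]
      exact Finset.card_nsmul_le_sum _ _ _ h2
    omega
  have hdc : ∑ y ∈ U \ A, (K3.filter (fun s => y ∈ s)).card =
      ∑ s ∈ K3, ((U \ A).filter (fun y => y ∈ s)).card :=
    Finset.sum_card_bipartiteAbove_eq_sum_card_bipartiteBelow (fun y s => y ∈ s)
  have h5 : ∑ s ∈ K3, ((U \ A).filter (fun y => y ∈ s)).card ≤ K3.card * 1 := by
    rw [← smul_eq_mul]
    refine Finset.sum_le_card_nsmul _ _ _ ?_
    intro s hs
    rw [hK3, Finset.mem_filter] at hs
    have h6 : (U \ A).filter (fun y => y ∈ s) ⊆ s \ (s ∩ A) := by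
      intro u hu
      rw [Finset.mem_filter, Finset.mem_sdiff] at hu
      rw [Finset.mem_sdiff, Finset.mem_inter]
      exact ⟨hu.2, fun h => hu.1.2 h.2⟩
    have h7 := Finset.card_le_card h6
    have h8 := Finset.card_sdiff_add_card_eq_card (Finset.inter_subset_left : s ∩ A ⊆ s)
    have h9 := (mem_K.1 hs.1).2.1
    have h10 := hs.2
    omega
  have h6 := Finset.sum_le_sum h1
  rw [← Finset.mul_sum] at h6
  omega

lemma step_e [DecidableEq V] {Q : ℕ} {U A : Finset V} (hA : A ⊆ W G U Q)
    (hB : Q ≤ (U \ A).card) :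
    ∑ v ∈ A, (cn G A v).card ≤ ∑ y ∈ U \ A, (nb G A y).card := by
  have hdc : ∑ y ∈ U \ A, (nb G A y).card = ∑ v ∈ A, (nb G (U \ A) v).card := by
    classical
    have := Finset.sum_card_bipartiteAbove_eq_sum_card_bipartiteBelow (s := U \ A) (t := A)
      (fun y v => G.Adj y v)
    have h1 : ∀ y, nb G A y = Finset.bipartiteAbove (fun y v => G.Adj y v) A y := by
      intro y
      ext u
      simp [mem_nb, Finset.mem_bipartiteAbove]
    have h2 : ∀ v, nb G (U \ A) v = Finset.bipartiteBelow (fun y v => G.Adj y v) (U \ A) v := by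
      intro v
      ext u
      simp [mem_nb, Finset.mem_bipartiteBelow, G.adj_comm]
    simp_rw [h1, h2]
    exact this
  rw [hdc]
  apply Finset.sum_le_sum
  intro v hv
  have h1 := cn_card_add_nb_card (G := G) (U \ A) v
  have h2 := (mem_W.1 (hA hv)).2
  have hAU : A ⊆ U := fun a ha => (mem_W.1 (hA ha)).1
  have h3 : (cn G A v).card + (cn G (U \ A) v).card ≤ (cn G U v).card := by
    rw [← Finset.card_union_of_disjoint]
    · apply Finset.card_le_card
      exact Finset.union_subset (cn_mono hAU v) (cn_mono Finset.sdiff_subset v)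
    · rw [Finset.disjoint_left]
      intro u hu hu'
      exact (Finset.mem_sdiff.1 (mem_cn.1 hu').1).2 (mem_cn.1 hu).1
  omega

lemma core3_fail [DecidableEq V] {Q : ℕ} (hQ : 1 ≤ Q) {U A : Finset V} (hA : A ⊆ W G U Q)
    (hAc : A.card = 2 * Q + 1) (hU : 3 * Q + 1 ≤ U.card)
    (hfail : ∀ x1 ∈ A, ∀ x2 ∈ A, G.Adj x1 x2 → ∀ y ∈ U, y ∉ A →
      ∃ z ∈ A, G.Adj x1 z ∧ G.Adj x2 z ∧ G.Adj y z) : Q ^ 2 ≤ (K G U 4).card := by
  have hAU : A ⊆ U := fun a ha => (mem_W.1 (hA ha)).1
  have hAQ : ∀ a ∈ A, (cn G U a).card ≤ Q := fun a ha => (mem_W.1 (hA ha)).2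
  have ha := step_a hA hU hfail
  have hc := step_c hAU hfail
  have hd := step_d hQ hA hAc hfail
  have he := step_e (G := G) hA (by
    have := Finset.le_card_sdiff A U
    omega)
  have hf := step_f (G := G) (A := A)
  set KK := (K G U 4).filter (fun s => 3 ≤ (s ∩ A).card) with hKK
  set K3 := (K G U 4).filter (fun s => (s ∩ A).card = 3) with hK3
  set E2 := K G A 2 with hE2
  -- double count
  have hdc : ∑ X ∈ E2, (KK.filter (fun s => X ⊆ s)).card =
      ∑ s ∈ KK, (E2.filter (fun X => X ⊆ s)).card :=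
    dcount E2 KK (fun X s => X ⊆ s)
  have h1 : (Q + 1) * E2.card ≤ 2 * ∑ s ∈ KK, (E2.filter (fun X => X ⊆ s)).card := by
    rw [← hdc, Finset.mul_sum]
    calc (Q + 1) * E2.card = E2.card • (Q + 1) := by rw [smul_eq_mul]; ring
      _ ≤ _ := Finset.card_nsmul_le_sum _ _ _ ha
  have h2 : ∑ s ∈ KK, (E2.filter (fun X => X ⊆ s)).card + 3 * K3.card ≤ 6 * KK.card := by
    have h3 : K3 = KK.filter (fun s => (s ∩ A).card = 3) := by
      rw [hK3, hKK]
      ext s
      simp only [Finset.mem_filter]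
      constructor
      · rintro ⟨h1, h2⟩
        exact ⟨⟨h1, h2.ge⟩, h2⟩
      · rintro ⟨⟨h1, _⟩, h2⟩
        exact ⟨h1, h2⟩
    rw [h3, Finset.card_filter, Finset.mul_sum, ← Finset.sum_add_distrib, mul_comm 6]
    rw [← smul_eq_mul]
    refine Finset.sum_le_card_nsmul _ _ _ ?_
    intro s hs
    rw [hKK, Finset.mem_filter] at hs
    have h4 : (E2.filter (fun X => X ⊆ s)).card ≤ (s ∩ A).card.choose 2 := by
      rw [← Finset.card_powersetCard]
      apply Finset.card_le_card
      intro X hX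
      rw [Finset.mem_filter] at hX
      rw [Finset.mem_powersetCard]
      have hX' := mem_K.1 hX.1
      exact ⟨Finset.subset_inter hX.2 hX'.1, hX'.2.1⟩
    have h5 : (s ∩ A).card ≤ 4 := by
      have := Finset.card_le_card (Finset.inter_subset_left : s ∩ A ⊆ s)
      rw [(mem_K.1 hs.1).2.1] at this
      exact this
    have h6 := hs.2
    generalize hm : (s ∩ A).card = m at h4 h5 h6
    have hm' : m = 3 ∨ m = 4 := by omega
    rcases hm' with rfl | rfl
    · have : Nat.choose 3 2 = 3 := by norm_num [Nat.choose]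
      simp
      omega
    · have : Nat.choose 4 2 = 6 := by norm_num [Nat.choose]
      simp
      omega
  have h3 : ∑ v ∈ A, (cn G A v).card ≤ 3 * K3.card := by
    refine he.trans (le_trans ?_ hc)
    apply Finset.sum_le_sum
    intro y hy
    exact hd y (Finset.mem_sdiff.1 hy).1 (Finset.mem_sdiff.1 hy).2
  have h4 : ∑ v ∈ A, ((Q + 1) * (nb G A v).card + 4 * (cn G A v).card) ≤ 24 * KK.card := by
    rw [Finset.sum_add_distrib, ← Finset.mul_sum, ← Finset.mul_sum]
    have h5 : (Q + 1) * ∑ v ∈ A, (nb G A v).card ≤ 2 * ((Q + 1) * E2.card) := by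
      calc (Q + 1) * ∑ v ∈ A, (nb G A v).card ≤ (Q + 1) * (2 * E2.card) :=
            Nat.mul_le_mul_left _ hf
        _ = _ := by ring
    omega
  have hterm : ∀ v ∈ A, (cn G A v).card + (nb G A v).card = 2 * Q + 1 ∧ 1 ≤ (cn G A v).card ∧
      (cn G A v).card ≤ Q := by
    intro v hv
    refine ⟨by rw [cn_card_add_nb_card, hAc], ?_, ?_⟩
    · exact Finset.card_pos.2 ⟨v, self_mem_cn hv⟩
    · exact (Finset.card_le_card (cn_mono hAU v)).trans (hAQ v hv)
  have hKKle : KK.card ≤ (K G U 4).card := Finset.card_filter_le _ _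
  refine le_trans ?_ hKKle
  rcases Nat.lt_or_ge Q 3 with hQ3 | hQ3
  · have h5 : A.card * (2 * Q ^ 2 + 2 * Q + 4) ≤ 24 * KK.card := by
      refine le_trans ?_ h4
      rw [← smul_eq_mul]
      refine Finset.card_nsmul_le_sum _ _ _ ?_
      intro v hv
      obtain ⟨h6, h7, h8⟩ := hterm v hv
      have hQ' : Q = 1 ∨ Q = 2 := by omega
      rcases hQ' with rfl | rfl <;> omega
    rw [hAc] at h5
    have hQ' : Q = 1 ∨ Q = 2 := by omega
    rcases hQ' with rfl | rfl <;> norm_num at h5 ⊢ <;> omega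
  · have h5 : A.card * (Q ^ 2 + 6 * Q + 1) ≤ 24 * KK.card := by
      refine le_trans ?_ h4
      rw [← smul_eq_mul]
      refine Finset.card_nsmul_le_sum _ _ _ ?_
      intro v hv
      obtain ⟨h6, h7, h8⟩ := hterm v hv
      have h9 : (nb G A v).card = 2 * Q + 1 - (cn G A v).card := by omega
      obtain ⟨e, he'⟩ := Nat.exists_eq_add_of_le h8
      have h10 : (nb G A v).card = Q + 1 + e := by omega
      rw [h10]
      generalize (cn G A v).card = p at *
      subst he'
      nlinarith
    rw [hAc] at h5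
    by_cases h3' : Q = 3
    · subst h3'; norm_num at h5 ⊢; omega
    by_cases h4' : Q = 4
    · subst h4'; norm_num at h5 ⊢; omega
    have hQ5 : 5 ≤ Q := by omega
    obtain ⟨e, rfl⟩ := Nat.exists_eq_add_of_le hQ5
    have h6 : 24 * (5 + e) ^ 2 ≤ (2 * (5 + e) + 1) * ((5 + e) ^ 2 + 6 * (5 + e) + 1) := by
      ring_nf
      nlinarith
    omega

theorem C3 [DecidableEq V] : ∀ (q : ℕ) (U : Finset V), C G U 0 [q, q, q] →
    q ^ 2 ≤ (K G U 4).card := by
  intro q
  induction q with
  | zero => intro U _; simp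
  | succ q ih =>
  intro U hC
  have hC' := hC
  simp only [C] at hC'
  obtain ⟨-, -, hW, hUc⟩ := hC'
  obtain ⟨A, hAW, hAc⟩ := Finset.exists_subset_card_eq (s := W G U (q + 1)) (n := 2 * (q + 1) + 1)
    (by omega)
  have hAU : A ⊆ U := fun a ha => (mem_W.1 (hAW ha)).1
  have hAQ : ∀ a ∈ A, (cn G U a).card ≤ q + 1 := fun a ha => (mem_W.1 (hAW ha)).2
  by_cases hnf : ∃ x1 ∈ A, ∃ x2 ∈ A, G.Adj x1 x2 ∧ ∃ y ∈ U, y ∉ A ∧
      ∀ z ∈ A, ¬ (G.Adj x1 z ∧ G.Adj x2 z ∧ G.Adj y z)
  · obtain ⟨x1, hx1, x2, hx2, h12, y, hyU, hyA, hxy⟩ := hnf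
    have hyx1 : y ≠ x1 := fun h => hyA (h ▸ hx1)
    have hyx2 : y ≠ x2 := fun h => hyA (h ▸ hx2)
    set U' := ((U.erase x1).erase x2).erase y with hU'
    have hU'U : U' ⊆ U :=
      ((Finset.erase_subset _ _).trans (Finset.erase_subset _ _)).trans (Finset.erase_subset _ _)
    have hx1U' : x1 ∉ U' := by simp [hU']
    have hx2U' : x2 ∉ U' := by simp [hU']
    have hyU' : y ∉ U' := by simp [hU']
    have hmemU' : ∀ v, v ∈ U' ↔ v ≠ y ∧ v ≠ x2 ∧ v ≠ x1 ∧ v ∈ U := by
      intro v
      rw [hU', Finset.mem_erase, Finset.mem_erase, Finset.mem_erase]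
    have hcardU : U'.card + 3 = U.card := by
      rw [hU', Finset.card_erase_of_mem, Finset.card_erase_of_mem, Finset.card_erase_of_mem]
      · omega
      · exact hAU hx1
      · exact Finset.mem_erase.2 ⟨h12.ne', hAU hx2⟩
      · exact Finset.mem_erase.2 ⟨hyx2, Finset.mem_erase.2 ⟨hyx1, hyU⟩⟩
    have hA' : (A.erase x1).erase x2 ⊆ W G U' q := by
      intro v hv
      rw [Finset.mem_erase, Finset.mem_erase] at hv
      have hvU' : v ∈ U' := (hmemU' v).2 ⟨fun h => hyA (h ▸ hv.2.2), hv.1, hv.2.1, hAU hv.2.2⟩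
      refine mem_W.2 ⟨hvU', ?_⟩
      have h1 := hAQ v hv.2.2
      have h2 := hxy v hv.2.2
      by_cases h3 : G.Adj x1 v
      · by_cases h4 : G.Adj x2 v
        · have h4 : ¬ G.Adj y v := fun h => h2 ⟨h3, h4, h⟩
          have h5 : y ∈ cn G U v := mem_cn.2 ⟨hyU, fun h => h4 h.symm⟩
          have := cn_card_lt hU'U h5 hyU'
          omega
        · have h5 : x2 ∈ cn G U v := mem_cn.2 ⟨hAU hx2, fun h => h4 h.symm⟩
          have := cn_card_lt hU'U h5 hx2U'
          omega
      · have h5 : x1 ∈ cn G U v := mem_cn.2 ⟨hAU hx1, fun h => h3 h.symm⟩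
        have := cn_card_lt hU'U h5 hx1U'
        omega
    have hA'c : ((A.erase x1).erase x2).card = 2 * q + 1 := by
      rw [Finset.card_erase_of_mem, Finset.card_erase_of_mem hx1, hAc]
      · omega
      · exact Finset.mem_erase.2 ⟨h12.ne', hx2⟩
    have hW' := Finset.card_le_card hA'
    have hCU' : C G U' 0 [q, q, q] := by
      simp only [C]
      refine ⟨by omega, by omega, by omega, by omega⟩
    have hIH := ih U' hCU'
    have hc1 : (cn G U' x1).card ≤ q := by
      have h2 := cn_card_lt hU'U (self_mem_cn (G := G) (hAU hx1)) hx1U'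
      have h3 := hAQ x1 hx1
      omega
    have hc2 : (cn G U' x2).card ≤ q := by
      have h2 := cn_card_lt hU'U (self_mem_cn (G := G) (hAU hx2)) hx2U'
      have h3 := hAQ x2 hx2
      omega
    have htail : C G U' q [q, q] := by
      simp only [C] at hCU' ⊢
      omega
    have hn1 : C G (nb G U' x1) 0 [q, q] := by
      refine C_sub (c := q) nb_subset ?_ _ 0 (by simpa using htail)
      have h1 := cn_card_add_nb_card (G := G) U' x1
      omega
    have hn2 : C G (nb G U' x2) 0 [q, q] := by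
      refine C_sub (c := q) nb_subset ?_ _ 0 (by simpa using htail)
      have h1 := cn_card_add_nb_card (G := G) U' x2
      omega
    have hn12 : C G (nb G (nb G U' x1) x2) 0 [q] := by
      have htail2 : C G (nb G U' x1) q [q] := by
        simp only [C] at hn1 ⊢
        omega
      refine C_sub (c := q) nb_subset ?_ _ 0 (by simpa using htail2)
      have h1 := cn_card_add_nb_card (G := G) (nb G U' x1) x2
      have h2 := Finset.card_le_card (cn_mono (G := G) (nb_subset (G := G) (U := U') (v := x1)) x2)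
      omega
    have e1 := E1 (G := G) q (nb G U' x1) [] (by simp) hn1
    have e2 := E1 (G := G) q (nb G U' x2) [] (by simp) hn2
    have e12 : 1 ≤ (K G (nb G (nb G U' x1) x2) 2).card :=
      Finset.card_pos.2 (greedy [q] _ hn12)
    simp only [List.length_nil, zero_add] at e1 e2
    -- splitting
    have s1 := K_split (G := G) (hAU hx1) 3
    have hx2e : x2 ∈ U.erase x1 := Finset.mem_erase.2 ⟨h12.ne', hAU hx2⟩
    have s2 := K_split (G := G) hx2e 3
    have hx2n : x2 ∈ nb G U x1 := mem_nb.2 ⟨hAU hx2, h12⟩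
    have s3 := K_split (G := G) hx2n 2
    have m1 : (K G U' 4).card ≤ (K G ((U.erase x1).erase x2) (3 + 1)).card :=
      Finset.card_le_card (K_mono (Finset.erase_subset _ _) _)
    have m2 : (K G (nb G U' x2) 3).card ≤ (K G (nb G (U.erase x1) x2) 3).card := by
      refine Finset.card_le_card (K_mono ?_ _)
      intro u hu
      rw [mem_nb, hmemU'] at hu
      exact mem_nb.2 ⟨Finset.mem_erase.2 ⟨hu.1.2.2.1, hu.1.2.2.2⟩, hu.2⟩
    have m3 : (K G (nb G U' x1) 3).card ≤ (K G ((nb G U x1).erase x2) (2 + 1)).card := by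
      refine Finset.card_le_card (K_mono ?_ _)
      intro u hu
      rw [mem_nb, hmemU'] at hu
      exact Finset.mem_erase.2 ⟨hu.1.2.1, mem_nb.2 ⟨hu.1.2.2.2, hu.2⟩⟩
    have m4 : (K G (nb G (nb G U' x1) x2) 2).card ≤ (K G (nb G (nb G U x1) x2) 2).card := by
      refine Finset.card_le_card (K_mono ?_ _)
      intro u hu
      rw [mem_nb, mem_nb, hmemU'] at hu
      exact mem_nb.2 ⟨mem_nb.2 ⟨hu.1.1.2.2.2, hu.1.2⟩, hu.2⟩
    have h4 : (3 + 1 : ℕ) = 4 := rfl
    have h3 : (2 + 1 : ℕ) = 3 := rfl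
    rw [h4] at s1 s2 m1
    rw [h3] at s3 m3
    have hsq : (q + 1) ^ 2 = q ^ 2 + q + q + 1 := by ring
    rw [hsq]
    omega
  · push Not at hnf
    refine core3_fail (by omega) hAW hAc (by omega) ?_
    intro a ha b hb hab y hy hyA
    obtain ⟨z, hz, h⟩ := hnf a ha b hb hab y hy hyA
    exact ⟨z, hz, h⟩

end

end Pool.Agent.MP76b19e
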