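import Pool.Agent.Lib.MP76b19e.Maj

/-! The construction with few cliques (MP_76b19e_co). -/

open Finset

noncomputable section

namespace Pool.Agent.MP76b19e

section
variable {n : ℕ}

/-- partial sums -/
def ss (p : ℕ → ℕ) (i : ℕ) : ℕ := ∑ l ∈ range i, p l

lemma ss_zero (p : ℕ → ℕ) : ss p 0 = 0 := by simp [ss]

lemma ss_succ (p : ℕ → ℕ) (i : ℕ) : ss p (i + 1) = ss p i + p i := by
  simp [ss, Finset.sum_range_succ]

lemma ss_mono (p : ℕ → ℕ) : Monotone (ss p) := by
  apply monotone_nat_of_le_succ
  intro i
  rw [ss_succ]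
  omega

/-- block index -/
def bb (p : ℕ → ℕ) (v : ℕ) : ℕ := sInf {i | v < ss p (i + 1)}

lemma bb_eq {p : ℕ → ℕ} {v i : ℕ} (h1 : ss p i ≤ v) (h2 : v < ss p (i + 1)) : bb p v = i := by
  apply le_antisymm
  · exact Nat.sInf_le h2
  · have hmem : bb p v ∈ {i | v < ss p (i + 1)} := Nat.sInf_mem ⟨i, h2⟩
    by_contra hlt
    push Not at hlt
    have h3 : v < ss p (bb p v + 1) := hmem
    have h4 : ss p (bb p v + 1) ≤ ss p i := ss_mono p (by omega)
    omega

lemma bb_spec {p : ℕ → ℕ} {v r : ℕ} (h : v < ss p r) :
    bb p v < r ∧ ss p (bb p v) ≤ v ∧ v < ss p (bb p v + 1) := by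
  have hr : 1 ≤ r := by
    by_contra hr
    have : r = 0 := by omega
    subst this
    rw [ss_zero] at h
    omega
  have hne : v < ss p (r - 1 + 1) := by rwa [Nat.sub_add_cancel hr]
  have h1 : v < ss p (bb p v + 1) :=
    Nat.sInf_mem (s := {i | v < ss p (i + 1)}) ⟨r - 1, hne⟩
  have h2 : bb p v ≤ r - 1 := Nat.sInf_le hne
  refine ⟨by omega, ?_, h1⟩
  rcases Nat.eq_zero_or_pos (bb p v) with h0 | hpos
  · rw [h0, ss_zero]; omega
  · by_contra hlt
    push Not at hlt
    have h3 : bb p v - 1 ∈ {i | v < ss p (i + 1)} := by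
      change v < ss p (bb p v - 1 + 1)
      rw [Nat.sub_add_cancel hpos]
      exact hlt
    have h4 : bb p v ≤ bb p v - 1 := Nat.sInf_le h3
    omega

/-- the vertices joined to the last vertex -/
def TT (r : ℕ) (p : ℕ → ℕ) (v : ℕ) : Prop :=
  (bb p v + 1 < r ∧ p (bb p v) = p (bb p v + 1)) ∨ v = ss p (bb p v)

/-- the graph -/
def GG (n r : ℕ) (p : ℕ → ℕ) : SimpleGraph (Fin n) where
  Adj u v := ((u : ℕ) < ss p r ∧ (v : ℕ) < ss p r ∧ bb p u ≠ bb p v) ∨
    ((u : ℕ) = ss p r ∧ (v : ℕ) < ss p r ∧ TT r p v) ∨
    ((v : ℕ) = ss p r ∧ (u : ℕ) < ss p r ∧ TT r p u)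
  symm := ⟨by
    intro u v h
    rcases h with h | h | h
    · exact Or.inl ⟨h.2.1, h.1, h.2.2.symm⟩
    · exact Or.inr (Or.inr h)
    · exact Or.inr (Or.inl h)⟩
  loopless := ⟨by
    intro u h
    rcases h with h | h | h
    · exact h.2.2 rfl
    · omega
    · omega⟩

lemma GG_adj {r : ℕ} {p : ℕ → ℕ} {u v : Fin n} : (GG n r p).Adj u v ↔
    ((u : ℕ) < ss p r ∧ (v : ℕ) < ss p r ∧ bb p u ≠ bb p v) ∨
    ((u : ℕ) = ss p r ∧ (v : ℕ) < ss p r ∧ TT r p v) ∨
    ((v : ℕ) = ss p r ∧ (u : ℕ) < ss p r ∧ TT r p u) := Iff.rfl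

/-- a block -/
def blk (n : ℕ) (p : ℕ → ℕ) (i : ℕ) : Finset (Fin n) :=
  univ.filter (fun u : Fin n => ss p i ≤ (u : ℕ) ∧ (u : ℕ) < ss p (i + 1))

lemma card_interval {a b : ℕ} (hb : b ≤ n) :
    (univ.filter (fun u : Fin n => a ≤ (u : ℕ) ∧ (u : ℕ) < b)).card = b - a := by
  rw [← Nat.card_Ico]
  refine Finset.card_bij (fun v _ => (v : ℕ)) ?_ ?_ ?_
  · intro v hv
    simpa using hv
  · intro u _ w _ h
    exact Fin.ext h
  · intro c hc
    rw [Finset.mem_Ico] at hc
    exact ⟨⟨c, by omega⟩, by simpa using hc, rfl⟩

lemma card_blk {p : ℕ → ℕ} {i r : ℕ} (hi : i < r) (hn : n = ss p r + 1) :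
    (blk n p i).card = p i := by
  have h1 : ss p (i + 1) ≤ ss p r := ss_mono p hi
  rw [blk, card_interval (by omega), ss_succ]
  omega

lemma cn_lt_upper {p : ℕ → ℕ} {r : ℕ} (hn : n = ss p r + 1) (v : Fin n)
    (hv : (v : ℕ) < ss p r) :
    (cn (GG n r p) univ v).card ≤ p (bb p v) + 1 ∧
    (TT r p v → (cn (GG n r p) univ v).card ≤ p (bb p v)) ∧
    p (bb p v) ≤ (cn (GG n r p) univ v).card := by
  classical
  obtain ⟨hbr, hb1, hb2⟩ := bb_spec hv
  have hz : ss p r < n := by omega
  have hsub : cn (GG n r p) univ v ⊆ insert (⟨ss p r, hz⟩ : Fin n) (blk n p (bb p v)) := by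
    intro u hu
    have hu' := (mem_cn.1 hu).2
    rw [GG_adj] at hu'
    push Not at hu'
    rw [Finset.mem_insert]
    by_cases huz : (u : ℕ) = ss p r
    · left; exact Fin.ext huz
    · right
      have hul : (u : ℕ) < ss p r := by have := u.2; omega
      have h1 := hu'.1 hv hul
      obtain ⟨h2, h3, h4⟩ := bb_spec hul
      rw [blk, Finset.mem_filter, h1]
      exact ⟨Finset.mem_univ _, h3, h4⟩
  refine ⟨?_, ?_, ?_⟩
  · have h1 := Finset.card_le_card hsub
    have h2 := Finset.card_insert_le (⟨ss p r, hz⟩ : Fin n) (blk n p (bb p v))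
    rw [card_blk hbr hn] at h2
    omega
  · intro hT
    rw [← card_blk hbr hn]
    apply Finset.card_le_card
    intro u hu
    have h1 := hsub hu
    rw [Finset.mem_insert] at h1
    rcases h1 with h1 | h1
    · exfalso
      apply (mem_cn.1 hu).2
      rw [GG_adj]
      right; right
      rw [h1]
      exact ⟨rfl, hv, hT⟩
    · exact h1
  · have hsub2 : blk n p (bb p v) ⊆ cn (GG n r p) univ v := by
      intro u hu
      rw [blk, Finset.mem_filter] at hu
      have h1 : bb p u = bb p v := bb_eq hu.2.1 hu.2.2
      have h2 : ss p (bb p v + 1) ≤ ss p r := ss_mono p hbr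
      refine mem_cn.2 ⟨Finset.mem_univ _, ?_⟩
      rw [GG_adj]
      rintro (h | h | h)
      · exact h.2.2 h1.symm
      · omega
      · omega
    rw [← card_blk hbr hn]
    exact Finset.card_le_card hsub2

lemma GG_C {p : ℕ → ℕ} {r : ℕ} (hn : n = ss p r + 1)
    (hmono : ∀ i, i + 1 < r → p i ≤ p (i + 1)) (hpos : ∀ i, i < r → 1 ≤ p i) :
    C (GG n r p) univ 0 (List.map p (List.range r)) := by
  classical
  have hmono' : ∀ i j, i ≤ j → j < r → p i ≤ p j := by
    intro i j hij
    induction j with
    | zero => intro _; have : i = 0 := by omega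
              rw [this]
    | succ j ih =>
      intro hj
      rcases Nat.lt_or_ge i (j + 1) with h | h
      · exact (ih (by omega) (by omega)).trans (hmono j hj)
      · have : i = j + 1 := by omega
        rw [this]
  have hW : ∀ i, i < r → ss p i + 1 ≤ (W (GG n r p) univ (p i)).card := by
    intro i hi
    have h0 : ss p (i + 1) ≤ ss p r := ss_mono p hi
    have h1 : ss p i + p i = ss p (i + 1) := (ss_succ p i).symm
    have h1' := hpos i hi
    have h2 : (univ.filter (fun u : Fin n => 0 ≤ (u : ℕ) ∧ (u : ℕ) < ss p i + 1)) ⊆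
        W (GG n r p) univ (p i) := by
      intro v hv
      rw [Finset.mem_filter] at hv
      refine mem_W.2 ⟨Finset.mem_univ _, ?_⟩
      have hvr : (v : ℕ) < ss p r := by omega
      obtain ⟨hbr, hb1, hb2⟩ := bb_spec hvr
      obtain ⟨hA, hB, -⟩ := cn_lt_upper hn v hvr
      by_cases hT : TT r p v
      · refine (hB hT).trans (hmono' _ _ ?_ hi)
        by_contra hlt
        push Not at hlt
        have : ss p (i + 1) ≤ ss p (bb p v) := ss_mono p hlt
        omega
      · unfold TT at hT
        push Not at hT
        have hlt : bb p v < i := by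
          by_contra hge
          push Not at hge
          have h3 : ss p i ≤ ss p (bb p v) := ss_mono p hge
          apply hT.2
          omega
        have h4 := hT.1 (by omega)
        have h5 := hmono (bb p v) (by omega)
        have h6 := hmono' (bb p v + 1) i (by omega) hi
        omega
    have h3 := Finset.card_le_card h2
    rw [card_interval (by omega)] at h3
    omega
  have key : ∀ m j, j + m = r → C (GG n r p) univ (ss p j) (List.map p (List.range' j m)) := by
    intro m
    induction m with
    | zero =>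
      intro j hj
      simp only [List.range'_zero, List.map_nil, C]
      have : j = r := by omega
      rw [this]
      simp [hn]
    | succ m ih =>
      intro j hj
      rw [List.range'_succ, List.map_cons]
      simp only [C]
      refine ⟨hW j (by omega), ?_⟩
      rw [← ss_succ]
      exact ih (j + 1) (by omega)
  have := key r 0 (by omega)
  rwa [ss_zero, ← List.range_eq_range'] at this

lemma GG_deg {p : ℕ → ℕ} {r : ℕ} (hr : 1 ≤ r) (hn : n = ss p r + 1)
    (hmono : ∀ i, i + 1 < r → p i ≤ p (i + 1)) (hpos : ∀ i, i < r → 1 ≤ p i) :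
    IsGreatest (Set.range (deg (GG n r p))) (n - p 0) := by
  classical
  have hmono' : ∀ j, j < r → p 0 ≤ p j := by
    intro j
    induction j with
    | zero => intro _; exact le_rfl
    | succ j ih => intro hj; exact (ih (by omega)).trans (hmono j hj)
  have hz : ss p r < n := by omega
  have hlow : ∀ v : Fin n, p 0 ≤ (cn (GG n r p) univ v).card := by
    intro v
    by_cases hv : (v : ℕ) < ss p r
    · obtain ⟨hbr, -, -⟩ := bb_spec hv
      exact (hmono' _ hbr).trans (cn_lt_upper hn v hv).2.2
    · have hv' : (v : ℕ) = ss p r := by have := v.2; omega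
      obtain ⟨m, rfl⟩ : ∃ m, r = m + 1 := ⟨r - 1, by omega⟩
      have hm := hpos m (by omega)
      have hsm := ss_succ p m
      have hm' : ss p m < n := by omega
      have hsub : insert v ((blk n p m).erase ⟨ss p m, hm'⟩) ⊆ cn (GG n (m + 1) p) univ v := by
        intro u hu
        refine mem_cn.2 ⟨Finset.mem_univ _, ?_⟩
        rw [Finset.mem_insert] at hu
        rcases hu with rfl | hu
        · exact (GG n (m + 1) p).loopless.irrefl u
        · rw [Finset.mem_erase, blk, Finset.mem_filter] at hu
          have hbu : bb p u = m := bb_eq hu.2.2.1 hu.2.2.2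
          rw [GG_adj]
          rintro (h | h | h)
          · omega
          · rcases h.2.2 with h4 | h4
            · omega
            · apply hu.1
              apply Fin.ext
              rw [h4, hbu]
          · omega
      have h1 := Finset.card_le_card hsub
      have h2 : v ∉ (blk n p m).erase ⟨ss p m, hm'⟩ := by
        intro h
        rw [Finset.mem_erase, blk, Finset.mem_filter] at h
        omega
      rw [Finset.card_insert_of_notMem h2, Finset.card_erase_of_mem, card_blk (by omega) hn] at h1
      · have := hmono' m (by omega)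
        omega
      · rw [blk, Finset.mem_filter]
        refine ⟨Finset.mem_univ _, ?_, ?_⟩
        · simp
        · simp only; omega
  refine ⟨?_, ?_⟩
  · have h0 : 0 < ss p r := by
      have h1 : ss p 1 ≤ ss p r := ss_mono p hr
      have h2 : ss p 1 = p 0 := by simp [ss]
      have := hpos 0 hr
      omega
    have hb0 : bb p 0 = 0 := by
      apply bb_eq
      · rw [ss_zero]
      · have h2 : ss p (0 + 1) = p 0 := by simp [ss]
        rw [h2]
        exact hpos 0 hr
    refine ⟨⟨0, by omega⟩, ?_⟩
    have h3 := cn_lt_upper hn ⟨0, by omega⟩ h0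
    simp only [hb0] at h3
    have hT : TT r p 0 := by
      right
      rw [hb0, ss_zero]
    have h4 := h3.2.1 hT
    have h5 := h3.2.2
    have h6 := deg_add (GG n r p) ⟨0, by omega⟩
    omega
  · rintro d ⟨v, rfl⟩
    have h1 := hlow v
    have h2 := deg_add (GG n r p) v
    omega

lemma GG_cliques {p : ℕ → ℕ} {r : ℕ} (hn : n = ss p r + 1) :
    (K (GG n r p) univ (r + 1)).card ≤
      ∏ i ∈ range r, (if i + 1 < r ∧ p i = p (i + 1) then p i else 1) := by
  classical
  have hz : ss p r < n := by omega
  set z : Fin n := ⟨ss p r, hz⟩ with hzdef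
  set T : Fin r → Finset (Fin n) := fun i =>
    univ.filter (fun v : Fin n => (v : ℕ) < ss p r ∧ bb p v = i ∧ TT r p v) with hT
  have hsub : K (GG n r p) univ (r + 1) ⊆
      (Fintype.piFinset T).image (fun φ => insert z (univ.image φ)) := by
    intro t ht
    have ht' := mem_K.1 ht
    obtain ⟨-, htc, htcl⟩ := ht'
    set t' : Finset (Fin n) := t.filter (fun v : Fin n => (v : ℕ) < ss p r) with ht'def
    have hinj : Set.InjOn (fun v : Fin n => bb p v) (t' : Set (Fin n)) := by
      intro u hu v hv huv
      by_contra hne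
      rw [Finset.mem_coe, ht'def, Finset.mem_filter] at hu hv
      have := htcl hu.1 hv.1 hne
      rw [GG_adj] at this
      rcases this with h | h | h
      · exact h.2.2 huv
      · omega
      · omega
    have himg : t'.image (fun v : Fin n => bb p v) ⊆ range r := by
      intro i hi
      obtain ⟨v, hv, rfl⟩ := Finset.mem_image.1 hi
      rw [ht'def, Finset.mem_filter] at hv
      exact Finset.mem_range.2 (bb_spec hv.2).1
    have hcard1 := Finset.card_le_card himg
    rw [Finset.card_image_of_injOn hinj, Finset.card_range] at hcard1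
    have htt' : t ⊆ insert z t' := by
      intro v hv
      rw [Finset.mem_insert, ht'def, Finset.mem_filter]
      by_cases h : (v : ℕ) < ss p r
      · exact Or.inr ⟨hv, h⟩
      · left
        apply Fin.ext
        have := v.2
        simp only [hzdef]
        omega
    have hzt : z ∈ t := by
      by_contra hzt
      have h1 : t ⊆ t' := by
        intro v hv
        rcases Finset.mem_insert.1 (htt' hv) with h | h
        · exact absurd (h ▸ hv) hzt
        · exact h
      have := Finset.card_le_card h1
      omega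
    have hcard2 : r ≤ t'.card := by
      have h1 := Finset.card_le_card htt'
      have h2 := Finset.card_insert_le z t'
      omega
    have himg_eq : t'.image (fun v : Fin n => bb p v) = range r := by
      apply Finset.eq_of_subset_of_card_le himg
      rw [Finset.card_image_of_injOn hinj, Finset.card_range]
      exact hcard2
    have hex : ∀ i : Fin r, ∃ v ∈ t', bb p v = i := by
      intro i
      have : (i : ℕ) ∈ t'.image (fun v : Fin n => bb p v) := by
        rw [himg_eq]
        exact Finset.mem_range.2 i.2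
      obtain ⟨v, hv, hv2⟩ := Finset.mem_image.1 this
      exact ⟨v, hv, hv2⟩
    choose φ hφ1 hφ2 using hex
    have hφ1' : ∀ i, φ i ∈ t ∧ (φ i : ℕ) < ss p r := by
      intro i
      have := hφ1 i
      rwa [ht'def, Finset.mem_filter] at this
    refine Finset.mem_image.2 ⟨φ, ?_, ?_⟩
    · rw [Fintype.mem_piFinset]
      intro i
      rw [hT, Finset.mem_filter]
      refine ⟨Finset.mem_univ _, (hφ1' i).2, hφ2 i, ?_⟩
      have hne : φ i ≠ z := by
        intro h
        have h2 := (hφ1' i).2
        rw [h] at h2
        simp [hzdef] at h2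
      have := htcl (hφ1' i).1 hzt hne
      rw [GG_adj] at this
      have hzv : (z : ℕ) = ss p r := rfl
      rcases this with h | h | h
      · omega
      · omega
      · exact h.2.2
    · have hφinj : Function.Injective φ := by
        intro i j hij
        apply Fin.ext
        rw [← hφ2 i, ← hφ2 j, hij]
      have hzn : z ∉ univ.image φ := by
        intro h
        obtain ⟨i, _, hi⟩ := Finset.mem_image.1 h
        have h2 := (hφ1' i).2
        rw [hi] at h2
        simp [hzdef] at h2
      apply Finset.eq_of_subset_of_card_le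
      · intro v hv
        rcases Finset.mem_insert.1 hv with rfl | hv
        · exact hzt
        · obtain ⟨i, _, rfl⟩ := Finset.mem_image.1 hv
          exact (hφ1' i).1
      · rw [Finset.card_insert_of_notMem hzn, Finset.card_image_of_injective _ hφinj, htc]
        simp
  refine (Finset.card_le_card hsub).trans (Finset.card_image_le.trans ?_)
  rw [Fintype.card_piFinset, Finset.prod_range]
  apply Finset.prod_le_prod' 
  intro i _
  split_ifs with hi
  · rw [← card_blk i.2 hn]
    apply Finset.card_le_card
    intro v hv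
    rw [hT, Finset.mem_filter] at hv
    obtain ⟨h1, h2, h3⟩ := bb_spec hv.2.1
    rw [blk, Finset.mem_filter, ← hv.2.2.1]
    exact ⟨Finset.mem_univ _, h2, h3⟩
  · rw [Finset.card_le_one]
    intro a ha b hb
    rw [hT, Finset.mem_filter] at ha hb
    apply Fin.ext
    have h1 : (a : ℕ) = ss p i := by
      rcases ha.2.2.2 with h | h
      · rw [ha.2.2.1] at h
        exact absurd h hi
      · rw [h, ha.2.2.1]
    have h2 : (b : ℕ) = ss p i := by
      rcases hb.2.2.2 with h | h
      · rw [hb.2.2.1] at h
        exact absurd h hi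
      · rw [h, hb.2.2.1]
    rw [h1, h2]

end

end Pool.Agent.MP76b19e
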